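import Pool.Agent.Lib.MP_8a3537_gt.CT.Spec
import Pool.Agent.Lib.MP_8a3537_gt.UV.RES

/-!
# COS: the decomposition of a group ring along the cosets of a subgroup
-/

set_option autoImplicit false

namespace Pool.Agent.Lib.MP8a3537.CT

open Matrix
open Pool.Agent.Lib.MP8a3537.AUL (FC Res gsub FinRes Aus)
open Pool.Agent.Lib.MP8a3537.AUF (Coh FinResP PZL PF)

namespace COSM

variable {R Γ : Type} [Ring R] [Group Γ] (H : Subgroup Γ)

theorem co_mem (g : Γ) (a : MonoidAlgebra R Γ) (h : Γ) (hh : h ∈ H) :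
    (co R H g a : MonoidAlgebra R Γ).coeff h = a.coeff (g * h) := by
  have h1 := UV.RESAux.emb_coeff_mem H (MonoidAlgebra.ofCoeff (Finsupp.comapDomain
    (fun h : H => g * (h : Γ)) a.coeff
    (fun _ _ _ _ h => Subtype.ext (mul_left_cancel h)))) ⟨h, hh⟩
  exact h1

theorem co_not_mem (g : Γ) (a : MonoidAlgebra R Γ) (h : Γ) (hh : h ∉ H) :
    (co R H g a : MonoidAlgebra R Γ).coeff h = 0 :=
  UV.RESAux.emb_coeff_not_mem H _ h hh

theorem gs_not_mem (b : gsub R H) (h : Γ) (hh : h ∉ H) :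
    (b : MonoidAlgebra R Γ).coeff h = 0 := by
  obtain ⟨_, ⟨c, rfl⟩⟩ := b
  exact UV.RESAux.emb_coeff_not_mem H _ h hh

theorem gs_ext {a b : gsub R H} (h : ∀ k ∈ H, (a : MonoidAlgebra R Γ).coeff k =
    (b : MonoidAlgebra R Γ).coeff k) : a = b := by
  apply Subtype.ext
  ext k
  by_cases hk : k ∈ H
  · exact h k hk
  · rw [gs_not_mem H a k hk, gs_not_mem H b k hk]

theorem co_add (g : Γ) (a b : MonoidAlgebra R Γ) : co R H g (a + b) = co R H g a + co R H g b := by
  apply gs_ext
  intro k hk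
  have h1 : ((co R H g a + co R H g b : gsub R H) : MonoidAlgebra R Γ).coeff k =
      (co R H g a : MonoidAlgebra R Γ).coeff k + (co R H g b : MonoidAlgebra R Γ).coeff k := rfl
  rw [h1, co_mem H g _ k hk, co_mem H g _ k hk, co_mem H g _ k hk]
  rfl

theorem co_zero (g : Γ) : co R H g (0 : MonoidAlgebra R Γ) = 0 := by
  have h := co_add H g (0 : MonoidAlgebra R Γ) 0
  rw [add_zero] at h
  exact left_eq_add.1 h

/-- `co` as an additive map -/
noncomputable def coH (g : Γ) : MonoidAlgebra R Γ →+ gsub R H where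
  toFun := co R H g
  map_zero' := co_zero H g
  map_add' := co_add H g

theorem co_mul (g : Γ) (h : Γ) (hh : h ∈ H) (a : MonoidAlgebra R Γ) :
    (co R H (g * h) a : MonoidAlgebra R Γ) =
      MonoidAlgebra.single h⁻¹ 1 * (co R H g a : MonoidAlgebra R Γ) := by
  ext k
  rw [MonoidAlgebra.coeff_single_mul_apply, inv_inv, one_mul]
  by_cases hk : k ∈ H
  · rw [co_mem H _ _ k hk, co_mem H _ _ (h * k) (H.mul_mem hh hk), mul_assoc]
  · rw [co_not_mem H _ _ k hk, co_not_mem H _ _ (h * k)]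
    intro h2
    exact hk ((H.mul_mem_cancel_left hh).1 h2)

theorem co_single_mul (g k : Γ) (r : R) (a : MonoidAlgebra R Γ) :
    (co R H g (MonoidAlgebra.single k r * a) : MonoidAlgebra R Γ) =
      MonoidAlgebra.single 1 r * (co R H (k⁻¹ * g) a : MonoidAlgebra R Γ) := by
  ext h
  rw [MonoidAlgebra.coeff_single_mul_apply, inv_one, one_mul]
  by_cases hh : h ∈ H
  · rw [co_mem H _ _ h hh, co_mem H _ _ h hh, MonoidAlgebra.coeff_single_mul_apply, mul_assoc]
  · rw [co_not_mem H _ _ h hh, co_not_mem H _ _ h hh, mul_zero]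

theorem co_mul_gs (g : Γ) (a : MonoidAlgebra R Γ) (b : gsub R H) :
    co R H g (a * (b : MonoidAlgebra R Γ)) = co R H g a * b := by
  obtain ⟨_, ⟨c, rfl⟩⟩ := b
  apply Subtype.ext
  change (co R H g (a * UV.emb R H c) : MonoidAlgebra R Γ) =
    (co R H g a : MonoidAlgebra R Γ) * UV.emb R H c
  induction c using MonoidAlgebra.induction_linear with
  | zero =>
    rw [map_zero, mul_zero, mul_zero, co_zero]
    rfl
  | add x y hx hy =>
    rw [map_add, mul_add, mul_add, co_add, ← hx, ← hy]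
    rfl
  | single k r =>
    rw [UV.RESAux.emb_single]
    ext h
    rw [MonoidAlgebra.coeff_mul_single_apply]
    by_cases hh : h ∈ H
    · rw [co_mem H _ _ h hh, MonoidAlgebra.coeff_mul_single_apply,
        co_mem H _ _ _ (H.mul_mem hh (H.inv_mem k.2)), mul_assoc]
    · rw [co_not_mem H _ _ h hh, co_not_mem H, zero_mul]
      intro h2
      exact hh ((H.mul_mem_cancel_right (H.inv_mem k.2)).1 h2)

theorem eq_of_co {a b : MonoidAlgebra R Γ} (h : ∀ g, co R H g a = co R H g b) : a = b := by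
  ext g
  have h1 := congrArg (fun z : gsub R H => (z : MonoidAlgebra R Γ).coeff 1) (h g)
  simp only [co_mem H g _ 1 H.one_mem, mul_one] at h1
  exact h1

theorem fin_co (a : MonoidAlgebra R Γ) :
    {y : Γ ⧸ H | ∃ g : Γ, (g : Γ ⧸ H) = y ∧ co R H g a ≠ 0}.Finite := by
  classical
  refine (a.coeff.support.image (fun g : Γ => (g : Γ ⧸ H))).finite_toSet.subset ?_
  rintro y ⟨g, rfl, hg⟩
  have h1 : ∃ h ∈ H, a.coeff (g * h) ≠ 0 := by
    by_contra hc
    push Not at hc
    apply hg
    apply gs_ext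
    intro k hk
    rw [co_mem H g a k hk, hc k hk]
    rfl
  obtain ⟨h, hh, hne⟩ := h1
  rw [Finset.mem_coe, Finset.mem_image]
  refine ⟨g * h, Finsupp.mem_support_iff.2 hne, ?_⟩
  exact QuotientGroup.mk_mul_of_mem g hh

theorem co_of_mem (g : Γ) (hg : g ∉ H) (b : gsub R H) :
    co R H g (b : MonoidAlgebra R Γ) = 0 := by
  apply gs_ext
  intro k hk
  rw [co_mem H g _ k hk, gs_not_mem H b]
  · rfl
  · intro h2
    exact hg ((H.mul_mem_cancel_right hk).1 h2)

theorem co_one (b : gsub R H) : co R H 1 (b : MonoidAlgebra R Γ) = b := by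
  apply gs_ext
  intro k hk
  rw [co_mem H 1 _ k hk, one_mul]

theorem co_single_one (g k : Γ) (a : MonoidAlgebra R Γ) :
    co R H g (MonoidAlgebra.single k 1 * a) = co R H (k⁻¹ * g) a := by
  apply Subtype.ext
  rw [co_single_mul, ← MonoidAlgebra.one_def, one_mul]

theorem ex_co (s : Γ ⧸ H → Γ) (hs : ∀ y, (s y : Γ ⧸ H) = y) (b : (Γ ⧸ H) →₀ gsub R H) :
    ∃ a : MonoidAlgebra R Γ, ∀ y, co R H (s y) a = b y := by
  classical
  refine ⟨∑ z ∈ b.support, MonoidAlgebra.single (s z) 1 * ((b z : gsub R H) : MonoidAlgebra R Γ),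
    fun y => ?_⟩
  change coH H (s y) _ = _
  rw [map_sum]
  change ∑ z ∈ b.support, co R H (s y) (MonoidAlgebra.single (s z) 1 *
    ((b z : gsub R H) : MonoidAlgebra R Γ)) = b y
  have h1 : ∀ z, co R H (s y) (MonoidAlgebra.single (s z) 1 *
      ((b z : gsub R H) : MonoidAlgebra R Γ)) = if z = y then b y else 0 := by
    intro z
    rw [co_single_one]
    split_ifs with h
    · rw [h, inv_mul_cancel, co_one]
    · apply co_of_mem
      intro h2
      apply h
      rw [← hs z, ← hs y]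
      exact QuotientGroup.eq.2 h2
  rw [Finset.sum_congr rfl fun z _ => h1 z, Finset.sum_ite_eq']
  split_ifs with h
  · rfl
  · exact (Finsupp.notMem_support_iff.1 h).symm

end COSM

open COSM in
/-- module COS -/
theorem specCOS : SpecCOS := by
  intro R Γ _ _ H
  exact ⟨fun g a h hh => co_mem H g a h hh, fun g a h hh => co_not_mem H g a h hh, co_add H,
    fun g a h hh => co_mul H g h hh a, co_single_mul H, co_mul_gs H, fun a b h => eq_of_co H h,
    fin_co H, fun s hs b => ex_co H s hs b⟩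

end Pool.Agent.Lib.MP8a3537.CT
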