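import Pool.Agent.Lib.MP_8a3537_gt.CT.Spec
import Pool.Agent.Lib.MP_8a3537_gt.AUF.CFP
import Pool.Agent.Lib.MP_8a3537_gt.AUF.RFP

/-!
# Group rings of groups acting on trees (MP_8a3537_gt, folder CT), module COT: coherence
-/

set_option autoImplicit false

namespace Pool.Agent.Lib.MP8a3537.CT

open Matrix
open Pool.Agent.Lib.MP8a3537.AUL (FC Res gsub FinRes Aus)
open Pool.Agent.Lib.MP8a3537.AUF (Coh FinResP PZL PF)

namespace COTM

/-- The zero complex. -/
def zc (A : Type) [Ring A] : FC A where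
  I := Empty
  fin := inferInstance
  dec := inferInstance
  deg := fun i => i.elim
  e := fun i => i.elim
  he := fun i => i.elim
  hee := fun i => i.elim

/-- Its augmentation. -/
def zr (A : Type) [Ring A] (N : Type) [AddCommGroup N] [Module A N]
    (h : Subsingleton N) : Res (zc A) N where
  pi := 0
  isRes := ⟨fun i => i.elim, fun _ _ _ _ _ => ⟨0, funext fun i => i.elim⟩⟩
  low := fun _ _ _ _ => rfl
  surj := fun _ => ⟨0, Subsingleton.elim _ _⟩
  zero := fun _ => rfl
  ker := fun _ _ _ => ⟨0, funext fun i => i.elim⟩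

theorem fr_zero (A : Type) [Ring A] (D : ℕ) (N : Type) [AddCommGroup N] [Module A N]
    (h : Subsingleton N) : FR A D N :=
  ⟨zc A, ⟨zr A N h⟩, fun i => i.elim⟩

section

variable {R Γ V : Type} [Ring R] [Group Γ] [MulAction Γ V] {n : ℕ}

/-- The inclusion of the part of `K`. -/
noncomputable def phi (U : Set V) (K : Submodule (MonoidAlgebra R Γ) (Fin n → MonoidAlgebra R Γ))
    (v : V) : (((Lc R Γ U n).res K).N v) →ₗ[Sb R (Γ := Γ) v] ((Lc R Γ U n).N v) where
  toFun m := ⟨((m : K) : Fin n → MonoidAlgebra R Γ), m.2⟩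
  map_add' _ _ := rfl
  map_smul' _ _ := rfl

theorem phi_inj (U : Set V) (K : Submodule (MonoidAlgebra R Γ) (Fin n → MonoidAlgebra R Γ))
    (v : V) : Function.Injective (phi U K v) := by
  intro a b h
  have h1 := congrArg (fun z : (Lc R Γ U n).N v => (z : Fin n → MonoidAlgebra R Γ)) h
  exact Subtype.ext (Subtype.ext h1)

theorem fp (U : Set V) (K : Submodule (MonoidAlgebra R Γ) (Fin n → MonoidAlgebra R Γ))
    (v : V) (hc : Coh (Sb R (Γ := Γ) v))
    (h1 : Module.FinitePresentation (Sb R (Γ := Γ) v) ((Lc R Γ U n).N v))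
    (h2 : Module.Finite (Sb R (Γ := Γ) v) (((Lc R Γ U n).res K).N v)) :
    Module.FinitePresentation (Sb R (Γ := Γ) v) (((Lc R Γ U n).res K).N v) := by
  have h3 : (LinearMap.range (phi U K v)).FG := by
    rw [LinearMap.range_eq_map]
    exact Module.Finite.fg_top.map _
  have h4 := (AUF.specCFP _ hc).1 _ h1 _ h3
  exact Module.FinitePresentation.of_equiv (M := LinearMap.range (phi U K v))
    (LinearEquiv.ofInjective _ (phi_inj U K v)).symm

end

end COTM

open COTM in
theorem specCOT (hMVR : SpecMVR) (hLCF : SpecLCF) (hNFG : SpecNFG) (hKMV : SpecKMV) :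
    SpecCOT := by
  classical
  intro R Γ V _ _ _ T hT hact hinv D hv he n K hK
  obtain ⟨O, hO, hOi⟩ := exists_ori hact hinv
  obtain ⟨r, κ, hκ⟩ := Submodule.fg_iff_exists_fin_generating_family.1 hK
  obtain ⟨v0⟩ : Nonempty V := hT.connected.nonempty
  obtain ⟨U, hSU, hU⟩ := exists_cx hT ((Finset.univ : Finset (Fin r)).biUnion
    (fun j => (Finset.univ : Finset (Fin n)).biUnion
      (fun i => ((κ j i).coeff.support).image (fun g => g⁻¹ • v0))))
  have hInL : InL U v0 κ := by
    intro j i g hg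
    apply hSU
    rw [Finset.mem_biUnion]
    refine ⟨j, Finset.mem_univ _, ?_⟩
    rw [Finset.mem_biUnion]
    refine ⟨i, Finset.mem_univ _, ?_⟩
    rw [Finset.mem_image]
    exact ⟨g, Finsupp.mem_support_iff.2 hg, rfl⟩
  have hInvO : InvO Γ O := fun g p h => hOi g p.1 p.2 h
  obtain ⟨hM, hNf, hEf⟩ := hKMV R Γ V T O hT hact hO hInvO n U hU v0 r κ hInL
  obtain ⟨hN1, hN2⟩ := hNFG R Γ V T O hT hact hO hInvO
    (fun p hp => (he p.1 p.2 (hO.adj _ _ hp)).1) n U hU v0 r κ hInL
  have hFR : FR (MonoidAlgebra R Γ) (D + 1)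
      (Submodule.span (MonoidAlgebra R Γ) (Set.range κ)) := by
    refine hMVR R Γ V _ _ _ hM hNf hEf D ?_ ?_
    · intro v
      exact (hv v).2 _ (fp _ _ v (hv v).1 ((hLCF R Γ V n U).1 v) (hN1 v))
    · intro p
      by_cases hp : O p.1 p.2
      · exact (he p.1 p.2 (hO.adj _ _ hp)).2 _ (hN2 p)
      · apply fr_zero
        refine ⟨fun a b => ?_⟩
        have ha := (show _ ∧ (¬ O p.1 p.2 → ((a : Submodule.span (MonoidAlgebra R Γ)
          (Set.range κ)) : Fin n → MonoidAlgebra R Γ) = 0) from a.2).2 hp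
        have hb := (show _ ∧ (¬ O p.1 p.2 → ((b : Submodule.span (MonoidAlgebra R Γ)
          (Set.range κ)) : Fin n → MonoidAlgebra R Γ) = 0) from b.2).2 hp
        apply Subtype.ext
        apply Subtype.ext
        exact ha.trans hb.symm
  obtain ⟨C, ⟨res⟩, _⟩ := hFR
  have h5 := AUF.RFPM.finitePresentation res
  rw [hκ] at h5
  exact h5

end Pool.Agent.Lib.MP8a3537.CT
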