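import Pool.Agent.Lib.MP_8a3537_gt.CT.Spec

/-!
# Module FGA (MP_8a3537_gt, folder CT): rows with entries in `R[H]`
-/

set_option autoImplicit false

namespace Pool.Agent.Lib.MP8a3537.CT

open Pool.Agent.Lib.MP8a3537.AUL (gsub)

namespace FGAM

variable {R Γ : Type} [Ring R] [Group Γ]

/-- The part supported in the coset `y`. -/
noncomputable def pt (H : Subgroup Γ) (y : Γ ⧸ H) (a : MonoidAlgebra R Γ) : MonoidAlgebra R Γ :=
  MonoidAlgebra.single y.out 1 * (co R H y.out a : MonoidAlgebra R Γ)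

theorem pt_coeff (hC : SpecCOS) (H : Subgroup Γ) (y : Γ ⧸ H) (a : MonoidAlgebra R Γ) (k : Γ)
    (h : (k : Γ ⧸ H) = y) : (pt H y a).coeff k = a.coeff k := by
  have h1 : (y.out)⁻¹ * k ∈ H := by
    rw [← QuotientGroup.eq, QuotientGroup.out_eq', h]
  unfold pt
  rw [MonoidAlgebra.coeff_single_mul_apply, (hC R Γ H).1 _ _ _ h1, one_mul, mul_inv_cancel_left]

theorem pt_coeff' (hC : SpecCOS) (H : Subgroup Γ) (y : Γ ⧸ H) (a : MonoidAlgebra R Γ) (k : Γ)
    (h : (k : Γ ⧸ H) ≠ y) : (pt H y a).coeff k = 0 := by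
  have h1 : (y.out)⁻¹ * k ∉ H := by
    rw [← QuotientGroup.eq, QuotientGroup.out_eq']
    exact fun h' => h h'.symm
  unfold pt
  rw [MonoidAlgebra.coeff_single_mul_apply, (hC R Γ H).2.1 _ _ _ h1, mul_zero]

theorem pt_add (hC : SpecCOS) (H : Subgroup Γ) (y : Γ ⧸ H) (a b : MonoidAlgebra R Γ) :
    pt H y (a + b) = pt H y a + pt H y b := by
  unfold pt
  rw [(hC R Γ H).2.2.1, Subring.coe_add, mul_add]

theorem pt_mul (hC : SpecCOS) (H : Subgroup Γ) (y : Γ ⧸ H) (a b : MonoidAlgebra R Γ)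
    (hb : b ∈ gsub R H) : pt H y (a * b) = pt H y a * b := by
  unfold pt
  have h := (hC R Γ H).2.2.2.2.2.1 y.out a ⟨b, hb⟩
  rw [show a * b = a * ((⟨b, hb⟩ : gsub R H) : MonoidAlgebra R Γ) from rfl, h, Subring.coe_mul,
    mul_assoc]

theorem pt_one_mem (hC : SpecCOS) (H : Subgroup Γ) (a : MonoidAlgebra R Γ) :
    pt H ((1 : Γ) : Γ ⧸ H) a ∈ gsub R H := by
  have h1 : pt H ((1 : Γ) : Γ ⧸ H) a = (co R H 1 a : MonoidAlgebra R Γ) := by
    refine MonoidAlgebra.ext (Finsupp.ext fun k => ?_)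
    by_cases hk : k ∈ H
    · rw [pt_coeff hC H _ a k, (hC R Γ H).1 _ _ _ hk, one_mul]
      rw [eq_comm, QuotientGroup.eq]
      simpa using hk
    · rw [pt_coeff' hC H _ a k, (hC R Γ H).2.1 _ _ _ hk]
      rw [ne_eq, eq_comm, QuotientGroup.eq]
      simpa using hk
  rw [h1]
  exact (co R H 1 a).2

theorem emb_off (H : Subgroup Γ) (s : MonoidAlgebra R H) (g : Γ) (hg : g ∉ H) :
    (UV.emb R H s).coeff g = 0 := by
  change (Finsupp.mapDomain H.subtype s.coeff) g = 0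
  refine Finsupp.mapDomain_of_notMem_range _ _ ?_
  rintro ⟨h, rfl⟩
  exact hg h.2

/-- membership in the families at the point `1` of `Γ ⧸ H` -/
theorem mem_F {H : Subgroup Γ} {n : ℕ} {y : Γ ⧸ H} {x : Fin n → MonoidAlgebra R Γ} :
    x ∈ (Lc R Γ ({((1 : Γ) : Γ ⧸ H)} : Set (Γ ⧸ H)) n).N y ↔
      ∀ (i : Fin n) (g : Γ), (x i).coeff g ≠ 0 → (g : Γ ⧸ H) = y := by
  rw [mem_Lc]
  refine forall_congr' fun i => forall_congr' fun g => imp_congr_right fun _ => ?_
  rw [Set.mem_singleton_iff, inv_smul_eq_iff]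
  constructor
  · intro h
    rw [h]
    change (g : Γ ⧸ H) = ((g * 1 : Γ) : Γ ⧸ H)
    rw [mul_one]
  · intro h
    rw [← h]
    change (g : Γ ⧸ H) = ((g * 1 : Γ) : Γ ⧸ H)
    rw [mul_one]

/-- the coefficients of the sum -/
theorem tot_coeff {H : Subgroup Γ} {n : ℕ} (x : (Γ ⧸ H) →₀ (Fin n → MonoidAlgebra R Γ))
    (hx : ∀ y, x y ∈ (Lc R Γ ({((1 : Γ) : Γ ⧸ H)} : Set (Γ ⧸ H)) n).N y) (i : Fin n) (g : Γ) :
    (tot x i).coeff g = (x (g : Γ ⧸ H) i).coeff g := by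
  classical
  have h1 : tot x = ∑ y ∈ x.support, x y := by
    unfold tot
    rw [Finsupp.liftAddHom_apply]
    rfl
  rw [h1, Finset.sum_apply, MonoidAlgebra.coeff_sum, Finsupp.finsetSum_apply]
  rw [Finset.sum_eq_single (g : Γ ⧸ H)]
  · intro y _ hy
    by_contra h2
    exact hy (mem_F.1 (hx y) i g h2).symm
  · intro h2
    rw [Finsupp.notMem_support_iff.1 h2]
    rfl

/-- the values are the parts of the sum -/
theorem eq_pt (hC : SpecCOS) {H : Subgroup Γ} {n : ℕ}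
    (x : (Γ ⧸ H) →₀ (Fin n → MonoidAlgebra R Γ))
    (hx : ∀ y, x y ∈ (Lc R Γ ({((1 : Γ) : Γ ⧸ H)} : Set (Γ ⧸ H)) n).N y) (y : Γ ⧸ H) :
    x y = fun i => pt H y (tot x i) := by
  funext i
  refine MonoidAlgebra.ext (Finsupp.ext fun g => ?_)
  by_cases h : (g : Γ ⧸ H) = y
  · rw [pt_coeff hC H y _ g h, tot_coeff x hx, h]
  · rw [pt_coeff' hC H y _ g h]
    by_contra h2
    exact h (mem_F.1 (hx y) i g h2)

/-- the parts of the elements of the span -/
theorem pt_span (hC : SpecCOS) {H : Subgroup Γ} {n r : ℕ}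
    (κ : Fin r → Fin n → MonoidAlgebra R Γ) (hκ : ∀ j i, κ j i ∈ gsub R H)
    (a : Fin r → MonoidAlgebra R Γ) (y : Γ ⧸ H) :
    (fun i => pt H y ((∑ j, a j • κ j) i)) = ∑ j, pt H y (a j) • κ j := by
  classical
  funext i
  let φ : MonoidAlgebra R Γ →+ MonoidAlgebra R Γ := AddMonoidHom.mk' (pt H y) (pt_add hC H y)
  have h1 : ∀ b, pt H y b = φ b := fun b => rfl
  rw [Finset.sum_apply, Finset.sum_apply, h1, map_sum]
  refine Finset.sum_congr rfl fun j _ => ?_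
  exact pt_mul hC H y (a j) (κ j i) (hκ j i)

end FGAM

open FGAM in
theorem specFGA (hC : SpecCOS) : SpecFGA := by
  classical
  intro R Γ _ _ H n r κ hκ
  refine ⟨fun m => ?_, fun x hx h0 => ?_, fun x hx h0 y => ?_, ?_⟩
  · let s : Finset (Γ ⧸ H) := Finset.univ.biUnion fun i : Fin n =>
      (m i).coeff.support.image (fun g : Γ => (g : Γ ⧸ H))
    have hs : ∀ y : Γ ⧸ H, (fun i => pt H y (m i)) ≠ 0 → y ∈ s := by
      intro y hy
      by_contra h1
      refine hy (funext fun i => ?_)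
      refine MonoidAlgebra.ext (Finsupp.ext fun g => ?_)
      by_cases h2 : (g : Γ ⧸ H) = y
      · rw [pt_coeff hC H y _ g h2]
        by_contra h3
        refine h1 (Finset.mem_biUnion.2 ⟨i, Finset.mem_univ _, Finset.mem_image.2 ⟨g, ?_, h2⟩⟩)
        exact Finsupp.mem_support_iff.2 h3
      · rw [pt_coeff' hC H y _ g h2]
        rfl
    let x : (Γ ⧸ H) →₀ (Fin n → MonoidAlgebra R Γ) :=
      Finsupp.onFinset s (fun y i => pt H y (m i)) hs
    have hx : ∀ y, x y ∈ (Lc R Γ ({((1 : Γ) : Γ ⧸ H)} : Set (Γ ⧸ H)) n).N y := by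
      intro y
      rw [mem_F]
      intro i g h1
      by_contra h2
      exact h1 (pt_coeff' hC H y _ g h2)
    refine ⟨x, hx, funext fun i => ?_⟩
    refine MonoidAlgebra.ext (Finsupp.ext fun g => ?_)
    rw [tot_coeff x hx]
    exact pt_coeff hC H _ (m i) g rfl
  · refine Finsupp.ext fun y => ?_
    rw [eq_pt hC x hx y, h0]
    funext i
    refine MonoidAlgebra.ext (Finsupp.ext fun g => ?_)
    by_cases h : (g : Γ ⧸ H) = y
    · rw [pt_coeff hC H y _ g h]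
      rfl
    · rw [pt_coeff' hC H y _ g h]
      rfl
  · obtain ⟨a, ha⟩ := (Submodule.mem_span_range_iff_exists_fun _).1 h0
    rw [eq_pt hC x hx y, ← ha, pt_span hC κ hκ a y]
    exact Submodule.sum_mem _ fun j _ =>
      Submodule.smul_mem _ _ (Submodule.subset_span ⟨j, rfl⟩)
  · have hst : MulAction.stabilizer Γ ((1 : Γ) : Γ ⧸ H) = H := MulAction.stabilizer_quotient H
    rw [Module.Finite.iff_fg, Submodule.fg_def]
    set K := Submodule.span (MonoidAlgebra R Γ) (Set.range κ) with hK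
    have hmem : ∀ j, κ j ∈ K := fun j => Submodule.subset_span ⟨j, rfl⟩
    have hF : ∀ j, κ j ∈ (Lc R Γ ({((1 : Γ) : Γ ⧸ H)} : Set (Γ ⧸ H)) n).N ((1 : Γ) : Γ ⧸ H) := by
      intro j
      rw [mem_F]
      intro i g h1
      rw [eq_comm, QuotientGroup.eq, inv_one, one_mul]
      by_contra h2
      obtain ⟨c, hc⟩ := hκ j i
      rw [← hc] at h1
      exact h1 (emb_off H c g h2)
    refine ⟨Set.range fun j => (⟨κ j, hmem j⟩ : K), Set.finite_range _, le_antisymm ?_ ?_⟩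
    · rw [Submodule.span_le]
      rintro _ ⟨j, rfl⟩
      exact hF j
    · intro m hm
      have hm' : (m : Fin n → MonoidAlgebra R Γ) ∈
        (Lc R Γ ({((1 : Γ) : Γ ⧸ H)} : Set (Γ ⧸ H)) n).N ((1 : Γ) : Γ ⧸ H) := hm
      obtain ⟨a, ha⟩ := (Submodule.mem_span_range_iff_exists_fun _).1 m.2
      have h1 : (m : Fin n → MonoidAlgebra R Γ) =
          ∑ j, pt H ((1 : Γ) : Γ ⧸ H) (a j) • κ j := by
        rw [← pt_span hC κ hκ a, ha]
        funext i
        refine MonoidAlgebra.ext (Finsupp.ext fun g => ?_)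
        by_cases h : (g : Γ ⧸ H) = ((1 : Γ) : Γ ⧸ H)
        · rw [pt_coeff hC H _ _ g h]
        · rw [pt_coeff' hC H _ _ g h]
          by_contra h2
          exact h (mem_F.1 hm' i g h2)
      have h2 : ∀ j, pt H ((1 : Γ) : Γ ⧸ H) (a j) ∈ Sb R (Γ := Γ) ((1 : Γ) : Γ ⧸ H) := by
        intro j
        change _ ∈ gsub R (MulAction.stabilizer Γ ((1 : Γ) : Γ ⧸ H))
        rw [hst]
        exact pt_one_mem hC H _
      have h3 : m = ∑ j, (⟨_, h2 j⟩ : Sb R (Γ := Γ) ((1 : Γ) : Γ ⧸ H)) • (⟨κ j, hmem j⟩ : K) := by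
        apply Subtype.ext
        rw [h1, Submodule.coe_sum]
        rfl
      rw [h3]
      exact Submodule.sum_mem _ fun j _ =>
        Submodule.smul_mem _ _ (Submodule.subset_span ⟨j, rfl⟩)

end Pool.Agent.Lib.MP8a3537.CT
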