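import Pool.Agent.Lib.MP_8a3537_gt.CT.Spec
import Pool.Agent.Lib.MP_8a3537_gt.AUL.Main
import Pool.Agent.Lib.MP_8a3537_gt.AUF.CFP
import Pool.Agent.Lib.MP_8a3537_gt.AUF.RFP

/-!
# MP_8a3537_gt, folder CT, module FGU (helper9): from the finitely generated subgroups to the group
-/

set_option autoImplicit false

namespace Pool.Agent.Lib.MP8a3537.CT

open Matrix
open Pool.Agent.Lib.MP8a3537.AUL (FC Res gsub FinRes Aus)
open Pool.Agent.Lib.MP8a3537.AUF (Coh FinResP PZL PF)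

namespace FGUM

section Fin

variable {V A B : Type} [AddCommGroup A] [AddCommGroup B]

theorem tot_map (f : A →+ B) (x : V →₀ A) : tot (x.mapRange f (map_zero f)) = f (tot x) := by
  induction x using Finsupp.induction_linear with
  | zero => rw [Finsupp.mapRange_zero, map_zero, map_zero, map_zero]
  | add x y hx hy => rw [Finsupp.mapRange_add (map_add f), map_add, map_add, map_add, hx, hy]
  | single v a => rw [Finsupp.mapRange_single, tot_single, tot_single]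

/-- Choice of preimages. -/
theorem exists_lift (F : V → Set A) (h0 : ∀ y, (0 : A) ∈ F y) (f : A →+ B) (x : V →₀ B)
    (h : ∀ y, ∃ a ∈ F y, f a = x y) : ∃ a : V →₀ A, (∀ y, a y ∈ F y) ∧ ∀ y, f (a y) = x y := by
  classical
  choose c hc1 hc2 using h
  refine ⟨Finsupp.onFinset x.support (fun y => if x y = 0 then 0 else c y) fun y hy => ?_, ?_, ?_⟩
  · rw [Finsupp.mem_support_iff]
    intro h1
    exact hy (if_pos h1)
  · intro y
    rw [Finsupp.onFinset_apply]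
    split_ifs with h1
    · exact h0 y
    · exact hc1 y
  · intro y
    rw [Finsupp.onFinset_apply]
    split_ifs with h1
    · rw [map_zero, h1]
    · exact hc2 y

end Fin

theorem mem_gsub_of {R Γ : Type} [Ring R] [Group Γ] {H : Subgroup Γ} {a : MonoidAlgebra R Γ}
    (h : ∀ g, a.coeff g ≠ 0 → g ∈ H) : a ∈ gsub R H := by
  classical
  refine ⟨MonoidAlgebra.ofCoeff (Finsupp.comapDomain (fun h : H => (h : Γ)) a.coeff
    (fun _ _ _ _ h => Subtype.ext h)), ?_⟩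
  ext g
  by_cases hg : g ∈ H
  · exact UV.RESAux.emb_coeff_mem H _ ⟨g, hg⟩
  · rw [UV.RESAux.emb_coeff_not_mem H _ g hg]
    by_contra h1
    exact hg (h g (Ne.symm h1))

theorem trans {Γ : Type} [Group Γ] (H : Subgroup Γ) (y : Γ ⧸ H) :
    ∃ g : Γ, y = g • ((1 : Γ) : Γ ⧸ H) := by
  obtain ⟨g, rfl⟩ := QuotientGroup.mk_surjective y
  exact ⟨g, by rw [MulAction.Quotient.smul_coe, smul_eq_mul, mul_one]⟩

/-- The conclusion from a resolution of one submodule. -/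
theorem concl (hFRA : SpecFRA) (hLNR : SpecLNR) (hIN1 : SpecIN1) {R Γ M : Type} [Ring R] [Group Γ]
    {H : Subgroup Γ} [AddCommGroup M] [Module (MonoidAlgebra R Γ) M] (N : Fa R Γ (Γ ⧸ H) M)
    (D : ℕ) (hinj : ∀ x : W N, tot (x : TM (Γ ⧸ H) M).f = 0 → x = 0)
    (hsurj : ∀ m : M, ∃ x : W N, tot (x : TM (Γ ⧸ H) M).f = m)
    (hfr : FR (Sb R (Γ := Γ) ((1 : Γ) : Γ ⧸ H)) D (N.N ((1 : Γ) : Γ ⧸ H))) :
    FR (MonoidAlgebra R Γ) D M := by
  obtain ⟨t, ht⟩ := hLNR.1 R Γ (Γ ⧸ H) M N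
  have h1 : Function.Injective t := by
    rw [← LinearMap.ker_eq_bot, LinearMap.ker_eq_bot']
    intro x hx
    rw [ht] at hx
    exact hinj x hx
  have h2 : Function.Surjective t := by
    intro m
    obtain ⟨x, hx⟩ := hsurj m
    exact ⟨x, by rw [ht, hx]⟩
  have h3 := hIN1 R Γ (Γ ⧸ H) M N ((1 : Γ) : Γ ⧸ H) (fun y _ => trans H y) D hfr
  exact (hFRA (MonoidAlgebra R Γ) (W N) M).1 D (LinearEquiv.ofBijective t ⟨h1, h2⟩) h3

/-- Both parts for the rows `κ`. -/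
theorem main (hFRA : SpecFRA) (hLNR : SpecLNR) (hIN1 : SpecIN1) (hLCF : SpecLCF)
    (hTRB : SpecTRB) (hFGA : SpecFGA) {R Γ : Type} [Ring R] [Group Γ] {D : ℕ}
    (hR : ∀ H : Subgroup Γ, H.FG → Rg (MonoidAlgebra R H) D) {n r : ℕ}
    (κ : Fin r → Fin n → MonoidAlgebra R Γ) :
    FR (MonoidAlgebra R Γ) D (Submodule.span (MonoidAlgebra R Γ) (Set.range κ)) ∧
    ∀ (M : Type) [AddCommGroup M] [Module (MonoidAlgebra R Γ) M]
      (f : (Fin n → MonoidAlgebra R Γ) →ₗ[MonoidAlgebra R Γ] M), Function.Surjective f →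
      LinearMap.ker f = Submodule.span (MonoidAlgebra R Γ) (Set.range κ) →
      FR (MonoidAlgebra R Γ) D M := by
  classical
  -- the subgroup
  obtain ⟨H, hHfg, hκ⟩ : ∃ H : Subgroup Γ, H.FG ∧ ∀ j i, κ j i ∈ gsub R H := by
    let s : Finset Γ := Finset.univ.biUnion fun j : Fin r =>
      Finset.univ.biUnion fun i : Fin n => (κ j i).coeff.support
    refine ⟨Subgroup.closure (s : Set Γ), ⟨s, rfl⟩, fun j i => mem_gsub_of fun g hg => ?_⟩
    apply Subgroup.subset_closure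
    rw [Finset.mem_coe, Finset.mem_biUnion]
    refine ⟨j, Finset.mem_univ _, ?_⟩
    rw [Finset.mem_biUnion]
    exact ⟨i, Finset.mem_univ _, Finsupp.mem_support_iff.2 hg⟩
  obtain ⟨K, hK⟩ : ∃ K, K = Submodule.span (MonoidAlgebra R Γ) (Set.range κ) := ⟨_, rfl⟩
  obtain ⟨g1, g2, g3, g4⟩ := hFGA R Γ H n r κ hκ
  rw [← hK] at g3 g4 ⊢
  -- the ring
  have hS0 : Rg (Sb R (Γ := Γ) ((1 : Γ) : Γ ⧸ H)) D := by
    have h1 : MulAction.stabilizer Γ ((1 : Γ) : Γ ⧸ H) = H := MulAction.stabilizer_quotient H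
    change Rg (gsub R (MulAction.stabilizer Γ ((1 : Γ) : Γ ⧸ H))) D
    rw [h1]
    obtain ⟨e⟩ := hTRB.2 R Γ H
    exact (hTRB.1 _ _ e).1 D (hR H hHfg)
  have hF : Module.FinitePresentation (Sb R (Γ := Γ) ((1 : Γ) : Γ ⧸ H))
      ((Lc R Γ ({((1 : Γ) : Γ ⧸ H)} : Set (Γ ⧸ H)) n).N ((1 : Γ) : Γ ⧸ H)) := by
    have h1 := (hLCF R Γ (Γ ⧸ H) n {((1 : Γ) : Γ ⧸ H)}).1 ((1 : Γ) : Γ ⧸ H)
    rwa [Finset.coe_singleton] at h1
  -- the inclusion
  let ι : (((Lc R Γ ({((1 : Γ) : Γ ⧸ H)} : Set (Γ ⧸ H)) n).res K).N ((1 : Γ) : Γ ⧸ H))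
      →ₗ[Sb R (Γ := Γ) ((1 : Γ) : Γ ⧸ H)]
      ((Lc R Γ ({((1 : Γ) : Γ ⧸ H)} : Set (Γ ⧸ H)) n).N ((1 : Γ) : Γ ⧸ H)) :=
    { toFun := fun m => ⟨((m : K) : Fin n → MonoidAlgebra R Γ), m.2⟩
      map_add' := fun _ _ => rfl
      map_smul' := fun _ _ => rfl }
  have hι : Function.Injective ι := by
    intro a b hab
    have h1 := congrArg Subtype.val hab
    exact Subtype.ext (Subtype.ext h1)
  have hfg : (LinearMap.range ι).FG := by
    have : Module.Finite (Sb R (Γ := Γ) ((1 : Γ) : Γ ⧸ H))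
      (((Lc R Γ ({((1 : Γ) : Γ ⧸ H)} : Set (Γ ⧸ H)) n).res K).N ((1 : Γ) : Γ ⧸ H)) := g4
    exact Submodule.fg_range ι
  constructor
  · refine concl hFRA hLNR hIN1 ((Lc R Γ ({((1 : Γ) : Γ ⧸ H)} : Set (Γ ⧸ H)) n).res K) D ?_ ?_ ?_
    · intro x hx
      have h1 : (x : TM (Γ ⧸ H) K).f.mapRange K.subtype.toAddMonoidHom (map_zero _) = 0 := by
        apply g2
        · intro y
          exact x.2 y
        · rw [tot_map, hx, map_zero]
      apply Subtype.ext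
      change (x : TM (Γ ⧸ H) K).f = 0
      refine Finsupp.ext fun y => Subtype.ext ?_
      exact DFunLike.congr_fun h1 y
    · intro m
      obtain ⟨x, hx1, hx2⟩ := g1 m
      have h1 := g3 x hx1 (by rw [hx2]; exact m.2)
      obtain ⟨a, ha1, ha2⟩ := exists_lift
        (fun y => {a : K | (a : Fin n → MonoidAlgebra R Γ) ∈
          (Lc R Γ ({((1 : Γ) : Γ ⧸ H)} : Set (Γ ⧸ H)) n).N y})
        (fun y => ((Lc R Γ ({((1 : Γ) : Γ ⧸ H)} : Set (Γ ⧸ H)) n).N y).zero_mem)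
        K.subtype.toAddMonoidHom x
        (fun y => ⟨⟨x y, h1 y⟩, hx1 y, rfl⟩)
      refine ⟨⟨TM.mk a, ha1⟩, ?_⟩
      apply Subtype.ext
      change K.subtype.toAddMonoidHom (tot a) = (m : Fin n → MonoidAlgebra R Γ)
      rw [← tot_map, ← hx2]
      congr 1
      exact Finsupp.ext ha2
    · have h1 := (AUF.specCFP _ hS0.1).1 _ hF _ hfg
      have h2 : Module.FinitePresentation (Sb R (Γ := Γ) ((1 : Γ) : Γ ⧸ H))
          (((Lc R Γ ({((1 : Γ) : Γ ⧸ H)} : Set (Γ ⧸ H)) n).res K).N ((1 : Γ) : Γ ⧸ H)) :=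
        Module.FinitePresentation.of_equiv (R := Sb R (Γ := Γ) ((1 : Γ) : Γ ⧸ H))
          (M := LinearMap.range ι)
          (N := (((Lc R Γ ({((1 : Γ) : Γ ⧸ H)} : Set (Γ ⧸ H)) n).res K).N ((1 : Γ) : Γ ⧸ H)))
          (LinearEquiv.ofInjective ι hι).symm
      exact hS0.2 _ h2
  · intro M _ _ f hf hker
    refine concl hFRA hLNR hIN1 ((Lc R Γ ({((1 : Γ) : Γ ⧸ H)} : Set (Γ ⧸ H)) n).img f) D ?_ ?_ ?_
    · intro x hx
      obtain ⟨a, ha1, ha2⟩ := exists_lift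
        (fun y => {a : Fin n → MonoidAlgebra R Γ | a ∈
          (Lc R Γ ({((1 : Γ) : Γ ⧸ H)} : Set (Γ ⧸ H)) n).N y})
        (fun y => ((Lc R Γ ({((1 : Γ) : Γ ⧸ H)} : Set (Γ ⧸ H)) n).N y).zero_mem)
        f.toAddMonoidHom (x : TM (Γ ⧸ H) M).f
        (fun y => x.2 y)
      have h1 : a.mapRange f.toAddMonoidHom (map_zero _) = (x : TM (Γ ⧸ H) M).f :=
        Finsupp.ext ha2
      have h2 : tot a ∈ K := by
        rw [← hker, LinearMap.mem_ker]
        change f.toAddMonoidHom (tot a) = 0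
        rw [← tot_map, h1, hx]
      have h3 := g3 a ha1 h2
      apply Subtype.ext
      change (x : TM (Γ ⧸ H) M).f = 0
      refine Finsupp.ext fun y => ?_
      rw [← ha2 y]
      have h4 := h3 y
      rw [← hker, LinearMap.mem_ker] at h4
      exact h4
    · intro m
      obtain ⟨a, rfl⟩ := hf m
      obtain ⟨x, hx1, hx2⟩ := g1 a
      refine ⟨⟨TM.mk (x.mapRange f.toAddMonoidHom (map_zero _)), fun y => ⟨x y, hx1 y, rfl⟩⟩, ?_⟩
      change tot (x.mapRange f.toAddMonoidHom (map_zero _)) = f a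
      rw [tot_map, hx2]
      rfl
    · let p : ((Lc R Γ ({((1 : Γ) : Γ ⧸ H)} : Set (Γ ⧸ H)) n).N ((1 : Γ) : Γ ⧸ H))
          →ₗ[Sb R (Γ := Γ) ((1 : Γ) : Γ ⧸ H)]
          (((Lc R Γ ({((1 : Γ) : Γ ⧸ H)} : Set (Γ ⧸ H)) n).img f).N ((1 : Γ) : Γ ⧸ H)) :=
        { toFun := fun x => ⟨f (x : Fin n → MonoidAlgebra R Γ), ⟨x, x.2, rfl⟩⟩
          map_add' := fun a b => Subtype.ext (map_add f _ _)
          map_smul' := fun c a => Subtype.ext (map_smul f (c : MonoidAlgebra R Γ) _) }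
      have hp : Function.Surjective p := by
        rintro ⟨m, x, hx, rfl⟩
        exact ⟨⟨x, hx⟩, rfl⟩
      have hkp : LinearMap.ker p = LinearMap.range ι := by
        ext x
        rw [LinearMap.mem_ker, LinearMap.mem_range]
        constructor
        · intro h1
          have h2 : f (x : Fin n → MonoidAlgebra R Γ) = 0 := congrArg Subtype.val h1
          have h3 : (x : Fin n → MonoidAlgebra R Γ) ∈ K := by
            rw [← hker, LinearMap.mem_ker]
            exact h2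
          exact ⟨⟨⟨x, h3⟩, x.2⟩, rfl⟩
        · rintro ⟨m, rfl⟩
          apply Subtype.ext
          change f ((m : K) : Fin n → MonoidAlgebra R Γ) = 0
          have h3 : ((m : K) : Fin n → MonoidAlgebra R Γ) ∈ LinearMap.ker f := by
            rw [hker]
            exact (m : K).2
          exact LinearMap.mem_ker.1 h3
      have h2 : Module.FinitePresentation (Sb R (Γ := Γ) ((1 : Γ) : Γ ⧸ H))
          (((Lc R Γ ({((1 : Γ) : Γ ⧸ H)} : Set (Γ ⧸ H)) n).img f).N ((1 : Γ) : Γ ⧸ H)) :=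
        Module.finitePresentation_of_surjective p hp (by rw [hkp]; exact hfg)
      exact hS0.2 _ h2

end FGUM

open FGUM in
theorem specFGU (hFRA : SpecFRA) (hLNR : SpecLNR) (hIN1 : SpecIN1) (hLCF : SpecLCF)
    (hTRB : SpecTRB) (hFGA : SpecFGA) : SpecFGU := by
  intro R Γ _ _ D hR
  constructor
  · intro n N hN
    obtain ⟨r, κ, hκ⟩ := Submodule.fg_iff_exists_fin_generating_family.1 hN
    obtain ⟨C, ⟨res⟩, -⟩ := (main hFRA hLNR hIN1 hLCF hTRB hFGA hR κ).1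
    have h1 := (AUF.specRFP AUL.specRSM (MonoidAlgebra R Γ) C).1 _ res
    rw [hκ] at h1
    exact h1
  · intro M _ _ hM
    obtain ⟨n, K, e, hK⟩ := Module.FinitePresentation.exists_fin (MonoidAlgebra R Γ) M
    obtain ⟨r, κ, hκ⟩ := Submodule.fg_iff_exists_fin_generating_family.1 hK
    refine (main hFRA hLNR hIN1 hLCF hTRB hFGA hR κ).2 M
      (e.symm.toLinearMap.comp K.mkQ) (e.symm.surjective.comp (Submodule.mkQ_surjective K)) ?_
    rw [hκ]
    ext x
    rw [LinearMap.mem_ker]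
    change e.symm (K.mkQ x) = 0 ↔ x ∈ K
    rw [e.symm.map_eq_zero_iff, Submodule.mkQ_apply, Submodule.Quotient.mk_eq_zero]

end Pool.Agent.Lib.MP8a3537.CT
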