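import Pool.Agent.Lib.MP_8a3537_gt.CT.Spec

/-!
# MP_8a3537_gt, folder CT, module FNT (helper32): finite free resolutions
-/

set_option autoImplicit false

namespace Pool.Agent.Lib.MP8a3537.CT

open Matrix
open Pool.Agent.Lib.MP8a3537.AUL (FC Res gsub FinRes Aus)
open Pool.Agent.Lib.MP8a3537.AUF (Coh FinResP PZL PF)

namespace FNTM

/-- The zero complex. -/
def zeroFC (A : Type) [Ring A] : FC A where
  I := Empty
  fin := inferInstance
  dec := inferInstance
  deg := fun i => i.elim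
  e := fun i => i.elim
  he := fun i => i.elim
  hee := fun i => i.elim

theorem fr_zero (A : Type) [Ring A] (D : ℕ) (N : Type) [AddCommGroup N] [Module A N]
    (h : Subsingleton N) : FR A D N := by
  refine ⟨zeroFC A, ⟨⟨0, ⟨fun i => i.elim, fun q _ x _ _ => ⟨x, funext fun i => i.elim⟩⟩,
    fun q x _ _ => rfl, fun m => ⟨0, Subsingleton.elim _ _⟩, fun y => rfl,
    fun x _ _ => ⟨x, funext fun i => i.elim⟩⟩⟩, fun i => i.elim⟩

section

variable {R Γ Y P M : Type} [Ring R] [Group Γ] [MulAction Γ Y] [AddCommGroup P]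
  [Module (MonoidAlgebra R Γ) P] [AddCommGroup M] [Module (MonoidAlgebra R Γ) M]

/-- The map from a member of the family to the member of the image. -/
noncomputable def toImg (F : Fa R Γ Y P) (f : P →ₗ[MonoidAlgebra R Γ] M) (y : Y) :
    F.N y →ₗ[Sb R (Γ := Γ) y] (F.img f).N y where
  toFun x := ⟨f x, x, x.2, rfl⟩
  map_add' _ _ := Subtype.ext (map_add f _ _)
  map_smul' a b := Subtype.ext (map_smul f (a : MonoidAlgebra R Γ) (b : P))

theorem toImg_surj (F : Fa R Γ Y P) (f : P →ₗ[MonoidAlgebra R Γ] M) (y : Y) :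
    Function.Surjective (toImg F f y) := by
  rintro ⟨_, x, hx, rfl⟩
  exact ⟨⟨x, hx⟩, rfl⟩

/-- The inclusion of `K ∩ F_y` in `F_y`. -/
noncomputable def fromRes (F : Fa R Γ Y P) (K : Submodule (MonoidAlgebra R Γ) P) (y : Y) :
    (F.res K).N y →ₗ[Sb R (Γ := Γ) y] F.N y where
  toFun x := ⟨(x : K), x.2⟩
  map_add' _ _ := rfl
  map_smul' _ _ := rfl

theorem img_fp (F : Fa R Γ Y P) (f : P →ₗ[MonoidAlgebra R Γ] M) (y : Y)
    (h1 : Module.FinitePresentation (Sb R (Γ := Γ) y) (F.N y))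
    (h2 : Module.Finite (Sb R (Γ := Γ) y) ((F.res (LinearMap.ker f)).N y)) :
    Module.FinitePresentation (Sb R (Γ := Γ) y) ((F.img f).N y) := by
  refine Module.finitePresentation_of_surjective (toImg F f y) (toImg_surj F f y) ?_
  have h3 : LinearMap.ker (toImg F f y) = LinearMap.range (fromRes F (LinearMap.ker f) y) := by
    ext x
    rw [LinearMap.mem_ker, LinearMap.mem_range]
    constructor
    · intro h
      have h4 : f (x : P) = 0 := congrArg Subtype.val h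
      exact ⟨⟨⟨(x : P), LinearMap.mem_ker.2 h4⟩, x.2⟩, rfl⟩
    · rintro ⟨z, rfl⟩
      exact Subtype.ext (LinearMap.mem_ker.1 (z : LinearMap.ker f).2)
  rw [h3, LinearMap.range_eq_map]
  exact h2.fg_top.map _

theorem img_finite (F : Fa R Γ Y P) (f : P →ₗ[MonoidAlgebra R Γ] M) (y : Y)
    (h1 : Module.Finite (Sb R (Γ := Γ) y) (F.N y)) :
    Module.Finite (Sb R (Γ := Γ) y) ((F.img f).N y) :=
  Module.Finite.of_surjective (toImg F f y) (toImg_surj F f y)

theorem img_sub (F : Fa R Γ Y P) (f : P →ₗ[MonoidAlgebra R Γ] M) (y : Y)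
    (h1 : ∀ x ∈ F.N y, x = 0) : Subsingleton ((F.img f).N y) := by
  refine ⟨fun a b => ?_⟩
  obtain ⟨x, rfl⟩ := toImg_surj F f y a
  obtain ⟨z, rfl⟩ := toImg_surj F f y b
  have e1 : x = 0 := Subtype.ext (h1 _ x.2)
  have e2 : z = 0 := Subtype.ext (h1 _ z.2)
  rw [e1, e2]

end

/-- The finite connected set. -/
theorem exists_U {R Γ V : Type} [Ring R] [Group Γ] [MulAction Γ V] {T : SimpleGraph V}
    (hT : T.IsTree) (v0 : V) {n r : ℕ} (κ : Fin r → Fin n → MonoidAlgebra R Γ) :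
    ∃ U : Finset V, Cx T (U : Set V) ∧ v0 ∈ U ∧ InL U v0 κ := by
  classical
  obtain ⟨U, h1, h2⟩ := exists_cx hT (insert v0 (Finset.univ.biUnion fun j : Fin r =>
    Finset.univ.biUnion fun i : Fin n => ((κ j i).coeff.support).image fun g => g⁻¹ • v0))
  refine ⟨U, h2, h1 (Finset.mem_insert_self _ _), fun j => mem_Lc.2 fun i g hg => ?_⟩
  refine h1 (Finset.mem_insert_of_mem ?_)
  refine Finset.mem_biUnion.2 ⟨j, Finset.mem_univ _, Finset.mem_biUnion.2 ⟨i, Finset.mem_univ _,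
    Finset.mem_image.2 ⟨g, Finsupp.mem_support_iff.2 hg, rfl⟩⟩⟩

end FNTM

open FNTM

theorem specFNT (hMVR : SpecMVR) (hLCF : SpecLCF) (hNFG : SpecNFG) (hQMV : SpecQMV) : SpecFNT := by
  intro R Γ V _ _ _ T hT hact hinv D hV hE M _ _ hM
  obtain ⟨n, K, e, hK⟩ := Module.FinitePresentation.exists_fin (MonoidAlgebra R Γ) M
  obtain ⟨r, κ, hκ⟩ := Submodule.fg_iff_exists_fin_generating_family.1 hK
  obtain ⟨v0⟩ := hT.connected.nonempty
  obtain ⟨U, hU, hv0, hL⟩ := exists_U hT v0 κ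
  obtain ⟨O, hO, hOi⟩ := exists_ori hact hinv
  have hOI : InvO Γ O := fun g p h => hOi g p.1 p.2 h
  let f : (Fin n → MonoidAlgebra R Γ) →ₗ[MonoidAlgebra R Γ] M :=
    (e.symm : ((Fin n → MonoidAlgebra R Γ) ⧸ K) →ₗ[MonoidAlgebra R Γ] M) ∘ₗ K.mkQ
  have hf : Function.Surjective f := e.symm.surjective.comp K.mkQ_surjective
  have hk : LinearMap.ker f = Submodule.span (MonoidAlgebra R Γ) (Set.range κ) := by
    rw [hκ]
    ext x
    rw [LinearMap.mem_ker]
    change e.symm (K.mkQ x) = 0 ↔ _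
    rw [LinearEquiv.map_eq_zero_iff, Submodule.mkQ_apply, Submodule.Quotient.mk_eq_zero]
  have hno : ∀ p : V × V, O p.1 p.2 → IsNoetherianRing (Sb R (Γ := Γ) p) := fun p hp =>
    (hE p.1 p.2 (hO.adj _ _ hp)).1
  obtain ⟨q1, q2, q3⟩ := hQMV R Γ V T O hT hact hO hOI n U hU v0 hv0 r κ hL M f hf hk
  refine hMVR R Γ V M _ _ q1 q2 q3 D (fun v => ?_) (fun p => ?_)
  · refine (hV v).2 _ (img_fp _ f v ((hLCF R Γ V n U).1 v) ?_)
    rw [hk]
    exact (hNFG R Γ V T O hT hact hO hOI hno n U hU v0 r κ hL).1 v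
  · by_cases hp : O p.1 p.2
    · refine (hE p.1 p.2 (hO.adj _ _ hp)).2 _ (img_finite _ f p ?_)
      have h1 := (hLCF R Γ (V × V) n (U ×ˢ U)).2.2.1 (fun p => O p.1 p.2) hOI p
      rw [Finset.coe_product] at h1
      exact h1
    · refine fr_zero _ _ _ (img_sub _ f p fun x hx => ?_)
      exact hx.2 hp

end Pool.Agent.Lib.MP8a3537.CT
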