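import Pool.Agent.Lib.MP_8a3537_gt.CT.Spec

/-!
# Group rings of groups acting on trees (MP_8a3537_gt, folder CT), module IN1: the induced module of
one orbit (helper21)
-/

set_option autoImplicit false

namespace Pool.Agent.Lib.MP8a3537.CT

open Matrix
open Pool.Agent.Lib.MP8a3537.AUL (FC Res gsub InDeg bc)

namespace IN1M

/-! ### Rows and their parts along the cosets -/

section Rows

variable {R Γ : Type} [Ring R] [Group Γ] {H : Subgroup Γ} {I : Type}

theorem single_mem {h : Γ} (hh : h ∈ H) (r : R) :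
    (MonoidAlgebra.single h r : MonoidAlgebra R Γ) ∈ gsub R H :=
  ⟨MonoidAlgebra.single ⟨h, hh⟩ r, by
    change MonoidAlgebra.mapDomain _ _ = _
    rw [MonoidAlgebra.mapDomain_single]
    rfl⟩

/-- The rows of the parts. -/
noncomputable def cor (H : Subgroup Γ) (g : Γ) (x : I → MonoidAlgebra R Γ) : I → gsub R H :=
  fun i => co R H g (x i)

theorem co_zero (hC : SpecCOS) (g : Γ) : co R H g 0 = 0 := by
  have h := (hC R Γ H).2.2.1 g 0 0
  rw [add_zero] at h
  exact left_eq_add.1 h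

theorem cor_add (hC : SpecCOS) (g : Γ) (x x' : I → MonoidAlgebra R Γ) :
    cor H g (x + x') = cor H g x + cor H g x' :=
  funext fun i => (hC R Γ H).2.2.1 g (x i) (x' i)

theorem cor_zero (hC : SpecCOS) (g : Γ) : cor H g (0 : I → MonoidAlgebra R Γ) = 0 :=
  funext fun _ => co_zero hC g

theorem cor_mul (hC : SpecCOS) (g h : Γ) (hh : h ∈ H) (x : I → MonoidAlgebra R Γ) :
    cor H (g * h) x =
      (⟨MonoidAlgebra.single h⁻¹ 1, single_mem (H.inv_mem hh) 1⟩ : gsub R H) • cor H g x :=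
  funext fun i => Subtype.ext ((hC R Γ H).2.2.2.1 g (x i) h hh)

theorem cor_single (hC : SpecCOS) (g k : Γ) (c : R) (x : I → MonoidAlgebra R Γ) :
    cor H g ((MonoidAlgebra.single k c : MonoidAlgebra R Γ) • x) =
      (⟨MonoidAlgebra.single 1 c, single_mem H.one_mem c⟩ : gsub R H) • cor H (k⁻¹ * g) x :=
  funext fun i => Subtype.ext ((hC R Γ H).2.2.2.2.1 g k c (x i))

theorem cor_vecMul (hC : SpecCOS) (C : FC (gsub R H)) (g : Γ) (x : C.I → MonoidAlgebra R Γ) :
    cor H g (x ᵥ* (bc C).e) = cor H g x ᵥ* C.e := by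
  let f : MonoidAlgebra R Γ →+ gsub R H := AddMonoidHom.mk' (co R H g) ((hC R Γ H).2.2.1 g)
  funext j
  change f (∑ i, x i * ((C.e i j : gsub R H) : MonoidAlgebra R Γ)) = ∑ i, co R H g (x i) * C.e i j
  rw [map_sum]
  refine Finset.sum_congr rfl fun i _ => ?_
  exact (hC R Γ H).2.2.2.2.2.1 g (x i) (C.e i j)

theorem cor_fin [Fintype I] (hC : SpecCOS) (x : I → MonoidAlgebra R Γ) :
    {q : Γ ⧸ H | ∃ g : Γ, (g : Γ ⧸ H) = q ∧ cor H g x ≠ 0}.Finite := by
  refine (Set.finite_iUnion fun i : I => (hC R Γ H).2.2.2.2.2.2.2.1 (x i)).subset ?_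
  rintro q ⟨g, hg, hx⟩
  obtain ⟨i, hi⟩ := Function.ne_iff.1 hx
  exact Set.mem_iUnion.2 ⟨i, g, hg, hi⟩

theorem out_mk (q : Γ ⧸ H) : ((Quotient.out q : Γ) : Γ ⧸ H) = q := QuotientGroup.out_eq' q

theorem cor_ext (hC : SpecCOS) {x x' : I → MonoidAlgebra R Γ}
    (h : ∀ q : Γ ⧸ H, cor H (Quotient.out q) x = cor H (Quotient.out q) x') : x = x' := by
  have h1 : ∀ g : Γ, cor H g x = cor H g x' := by
    intro g
    have h2 : (Quotient.out (g : Γ ⧸ H))⁻¹ * g ∈ H := QuotientGroup.eq.1 (out_mk (g : Γ ⧸ H))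
    have h3 : g = Quotient.out (g : Γ ⧸ H) * ((Quotient.out (g : Γ ⧸ H))⁻¹ * g) := by group
    rw [h3, cor_mul hC _ _ h2, cor_mul hC _ _ h2, h]
  exact funext fun i => (hC R Γ H).2.2.2.2.2.2.1 _ _ fun g => congrFun (h1 g) i

theorem cor_ex [Fintype I] (hC : SpecCOS) (z : Γ ⧸ H → I → gsub R H)
    (hz : {q | z q ≠ 0}.Finite) :
    ∃ x : I → MonoidAlgebra R Γ, ∀ q, cor H (Quotient.out q) x = z q := by
  have h1 : ∀ i : I, ∃ a : MonoidAlgebra R Γ, ∀ q : Γ ⧸ H, co R H (Quotient.out q) a = z q i := by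
    intro i
    have hf : (Function.support fun q => z q i).Finite := hz.subset fun q hq h0 => hq (by
      change z q i = 0
      rw [h0]
      rfl)
    obtain ⟨a, ha⟩ := (hC R Γ H).2.2.2.2.2.2.2.2 Quotient.out out_mk
      (Finsupp.ofSupportFinite (fun q => z q i) hf)
    exact ⟨a, ha⟩
  choose x hx using h1
  exact ⟨x, fun q => funext fun i => hx i q⟩

/-- Solution of `x = y e` from the parts. -/
theorem solve (hC : SpecCOS) (C : FC (gsub R H)) (x : C.I → MonoidAlgebra R Γ)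
    (h : ∀ q : Γ ⧸ H, ∃ y : C.I → gsub R H, cor H (Quotient.out q) x = y ᵥ* C.e) :
    ∃ y : C.I → MonoidAlgebra R Γ, x = y ᵥ* (bc C).e := by
  have h1 : ∀ q : Γ ⧸ H, ∃ y : C.I → gsub R H, cor H (Quotient.out q) x = y ᵥ* C.e ∧
      (cor H (Quotient.out q) x = 0 → y = 0) := by
    intro q
    by_cases h0 : cor H (Quotient.out q) x = 0
    · exact ⟨0, by rw [h0, Matrix.zero_vecMul], fun _ => rfl⟩
    · obtain ⟨y, hy⟩ := h q
      exact ⟨y, hy, fun h2 => absurd h2 h0⟩
  choose z hz hz0 using h1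
  obtain ⟨y, hy⟩ := cor_ex hC z ((cor_fin hC x).subset fun q hq =>
    ⟨Quotient.out q, out_mk q, fun h0 => hq (hz0 q h0)⟩)
  refine ⟨y, cor_ext (H := H) hC fun q => ?_⟩
  exact (hz q).trans (((congrArg (· ᵥ* C.e) (hy q)).symm).trans (cor_vecMul hC C _ y).symm)

theorem cor_deg (hC : SpecCOS) {deg : I → ℤ} {q : ℤ} {x : I → MonoidAlgebra R Γ}
    (h : InDeg deg q x) (g : Γ) : InDeg deg q (cor H g x) := by
  intro i hi
  change co R H g (x i) = 0
  rw [h i hi, co_zero hC]

end Rows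

/-! ### The augmentation -/

section Aug

variable {R Γ Y M : Type} [Ring R] [Group Γ] [MulAction Γ Y] [AddCommGroup M]
  [Module (MonoidAlgebra R Γ) M] (N : Fa R Γ Y M) (y0 : Y) {C : FC (Sb R (Γ := Γ) y0)}
  (r : Res C (N.N y0))

/-- The value at `g • y0`. -/
noncomputable def F (g : Γ) (x : C.I → MonoidAlgebra R Γ) : M :=
  (MonoidAlgebra.single g 1 : MonoidAlgebra R Γ) •
    ((r.pi (cor (MulAction.stabilizer Γ y0) g x) : N.N y0) : M)

theorem F_mem (g : Γ) (x : C.I → MonoidAlgebra R Γ) : F N y0 r g x ∈ N.N (g • y0) :=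
  N.eqv g y0 _ (r.pi _).2

theorem F_mul (hC : SpecCOS) (g h : Γ) (hh : h ∈ MulAction.stabilizer Γ y0)
    (x : C.I → MonoidAlgebra R Γ) : F N y0 r (g * h) x = F N y0 r g x := by
  unfold F
  rw [cor_mul hC g h hh, map_smul]
  change (MonoidAlgebra.single (g * h) 1 : MonoidAlgebra R Γ) •
    ((MonoidAlgebra.single h⁻¹ 1 : MonoidAlgebra R Γ) •
      ((r.pi (cor (MulAction.stabilizer Γ y0) g x) : N.N y0) : M)) = _
  rw [smul_smul, MonoidAlgebra.single_mul_single, mul_one, mul_inv_cancel_right]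

theorem F_eq (hC : SpecCOS) {g g' : Γ} (h : g • y0 = g' • y0) (x : C.I → MonoidAlgebra R Γ) :
    F N y0 r g x = F N y0 r g' x := by
  have h1 : g'⁻¹ * g ∈ MulAction.stabilizer Γ y0 := by
    rw [MulAction.mem_stabilizer_iff, mul_smul, h, inv_smul_smul]
  have h2 : g = g' * (g'⁻¹ * g) := by group
  rw [h2, F_mul N y0 r hC _ _ h1]

open scoped Classical in
/-- The function `pi x`. -/
noncomputable def G (x : C.I → MonoidAlgebra R Γ) (y : Y) : M :=
  if h : ∃ g : Γ, y = g • y0 then F N y0 r h.choose x else 0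

theorem G_orb (hC : SpecCOS) (g : Γ) (x : C.I → MonoidAlgebra R Γ) :
    G N y0 r x (g • y0) = F N y0 r g x := by
  have h : ∃ g' : Γ, g • y0 = g' • y0 := ⟨g, rfl⟩
  unfold G
  rw [dif_pos h]
  exact F_eq N y0 r hC h.choose_spec.symm x

theorem G_not (x : C.I → MonoidAlgebra R Γ) {y : Y} (h : ¬ ∃ g : Γ, y = g • y0) :
    G N y0 r x y = 0 := dif_neg h

theorem G_mem (hC : SpecCOS) (x : C.I → MonoidAlgebra R Γ) (y : Y) : G N y0 r x y ∈ N.N y := by
  by_cases h : ∃ g : Γ, y = g • y0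
  · obtain ⟨g, rfl⟩ := h
    rw [G_orb N y0 r hC]
    exact F_mem N y0 r g x
  · rw [G_not N y0 r x h]
    exact (N.N y).zero_mem

theorem F_zero_of {g : Γ} {x : C.I → MonoidAlgebra R Γ}
    (h : cor (MulAction.stabilizer Γ y0) g x = 0) : F N y0 r g x = 0 := by
  unfold F
  rw [h, map_zero]
  exact smul_zero _

theorem G_fin (hC : SpecCOS) (x : C.I → MonoidAlgebra R Γ) :
    (Function.support (G N y0 r x)).Finite := by
  refine ((cor_fin (H := MulAction.stabilizer Γ y0) hC x).image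
    fun q => (Quotient.out q : Γ) • y0).subset ?_
  intro y hy
  have h : ∃ g : Γ, y = g • y0 := by
    by_contra h0
    exact hy (G_not N y0 r x h0)
  obtain ⟨g, rfl⟩ := h
  refine ⟨(g : Γ ⧸ MulAction.stabilizer Γ y0), ⟨g, rfl, fun h0 => hy ?_⟩, ?_⟩
  · rw [G_orb N y0 r hC, F_zero_of N y0 r h0]
  · have h1 : (Quotient.out (g : Γ ⧸ MulAction.stabilizer Γ y0))⁻¹ * g ∈
        MulAction.stabilizer Γ y0 := QuotientGroup.eq.1 (out_mk _)
    rw [MulAction.mem_stabilizer_iff, mul_smul, inv_smul_eq_iff] at h1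
    exact h1.symm

/-- The augmentation as a function. -/
noncomputable def P (hC : SpecCOS) (x : C.I → MonoidAlgebra R Γ) : W N :=
  ⟨TM.mk (Finsupp.ofSupportFinite (G N y0 r x) (G_fin N y0 r hC x)), fun y => G_mem N y0 r hC x y⟩

theorem P_f (hC : SpecCOS) (x : C.I → MonoidAlgebra R Γ) (y : Y) :
    (P N y0 r hC x : TM Y M).f y = G N y0 r x y := rfl

theorem W_ext {a b : W N} (h : ∀ y, (a : TM Y M).f y = (b : TM Y M).f y) : a = b :=
  Subtype.ext (Finsupp.ext h)

theorem P_add (hC : SpecCOS) (x x' : C.I → MonoidAlgebra R Γ) :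
    P N y0 r hC (x + x') = P N y0 r hC x + P N y0 r hC x' := by
  refine W_ext N fun y => ?_
  change G N y0 r (x + x') y = G N y0 r x y + G N y0 r x' y
  by_cases h : ∃ g : Γ, y = g • y0
  · obtain ⟨g, rfl⟩ := h
    rw [G_orb N y0 r hC, G_orb N y0 r hC, G_orb N y0 r hC]
    unfold F
    rw [cor_add hC, map_add]
    exact smul_add _ _ _
  · rw [G_not N y0 r _ h, G_not N y0 r _ h, G_not N y0 r _ h, add_zero]

theorem P_single (hC : SpecCOS) (k : Γ) (c : R) (x : C.I → MonoidAlgebra R Γ) :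
    P N y0 r hC ((MonoidAlgebra.single k c : MonoidAlgebra R Γ) • x) =
      (MonoidAlgebra.single k c : MonoidAlgebra R Γ) • P N y0 r hC x := by
  refine W_ext N fun y => ?_
  have h0 : (((MonoidAlgebra.single k c : MonoidAlgebra R Γ) • P N y0 r hC x : W N) : TM Y M).f y =
      (MonoidAlgebra.single k c : MonoidAlgebra R Γ) • G N y0 r x (k⁻¹ • y) := smul_f k c _ y
  rw [h0, P_f]
  by_cases h : ∃ g : Γ, y = g • y0
  · obtain ⟨g, rfl⟩ := h
    rw [smul_smul, G_orb N y0 r hC, G_orb N y0 r hC]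
    unfold F
    rw [cor_single hC, map_smul]
    change (MonoidAlgebra.single g 1 : MonoidAlgebra R Γ) •
      ((MonoidAlgebra.single 1 c : MonoidAlgebra R Γ) •
        ((r.pi (cor (MulAction.stabilizer Γ y0) (k⁻¹ * g) x) : N.N y0) : M)) = _
    rw [smul_smul, smul_smul, MonoidAlgebra.single_mul_single, MonoidAlgebra.single_mul_single,
      mul_one, one_mul, mul_one, mul_inv_cancel_left]
  · have h' : ¬ ∃ g : Γ, k⁻¹ • y = g • y0 := by
      rintro ⟨g, hg⟩
      exact h ⟨k * g, by rw [mul_smul, ← hg, smul_inv_smul]⟩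
    rw [G_not N y0 r _ h, G_not N y0 r _ h', smul_zero]

theorem P_zero (hC : SpecCOS) : P N y0 r hC (0 : C.I → MonoidAlgebra R Γ) = 0 := by
  have h := P_add N y0 r hC 0 0
  rw [add_zero] at h
  exact left_eq_add.1 h

theorem P_smul (hC : SpecCOS) (a : MonoidAlgebra R Γ) (x : C.I → MonoidAlgebra R Γ) :
    P N y0 r hC (a • x) = a • P N y0 r hC x := by
  induction a using MonoidAlgebra.induction_linear with
  | zero => rw [zero_smul, zero_smul, P_zero]
  | add a b ha hb => rw [add_smul, add_smul, P_add, ha, hb]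
  | single k c => exact P_single N y0 r hC k c x

/-- The augmentation. -/
noncomputable def aug (hC : SpecCOS) : (C.I → MonoidAlgebra R Γ) →ₗ[MonoidAlgebra R Γ] W N where
  toFun := P N y0 r hC
  map_add' := P_add N y0 r hC
  map_smul' := P_smul N y0 r hC

theorem P_eq_zero (hC : SpecCOS) {x : C.I → MonoidAlgebra R Γ}
    (h : ∀ g, r.pi (cor (MulAction.stabilizer Γ y0) g x) = 0) : P N y0 r hC x = 0 := by
  refine W_ext N fun y => ?_
  change G N y0 r x y = 0
  by_cases hy : ∃ g : Γ, y = g • y0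
  · obtain ⟨g, rfl⟩ := hy
    rw [G_orb N y0 r hC]
    unfold F
    rw [h g]
    exact smul_zero _
  · exact G_not N y0 r _ hy

theorem single_inj {g : Γ} {m : M} (h : (MonoidAlgebra.single g 1 : MonoidAlgebra R Γ) • m = 0) :
    m = 0 := by
  have h1 : (MonoidAlgebra.single g⁻¹ 1 : MonoidAlgebra R Γ) •
      ((MonoidAlgebra.single g 1 : MonoidAlgebra R Γ) • m) = 0 := by
    rw [h, smul_zero]
  rwa [smul_smul, MonoidAlgebra.single_mul_single, inv_mul_cancel, one_mul,
    ← MonoidAlgebra.one_def, one_smul] at h1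

end Aug

end IN1M

open IN1M

theorem specIN1 (hC : SpecCOS) : SpecIN1 := by
  intro R Γ Y M _ _ _ _ _ N y0 horb D hFR
  obtain ⟨C, ⟨r⟩, hdeg⟩ := hFR
  refine ⟨bc C, ⟨⟨aug N y0 r hC, ⟨r.isRes.1, ?_⟩, ?_, ?_, ?_, ?_⟩⟩, hdeg⟩
  · -- exactness
    intro q hq
    have key : ∀ x : C.I → MonoidAlgebra R Γ, InDeg C.deg q x → x ᵥ* (bc C).e = 0 →
        ∃ y : C.I → MonoidAlgebra R Γ, x = y ᵥ* (bc C).e := by
      intro x hx hxe
      refine solve hC C x fun s => ?_
      refine r.isRes.2 q hq _ (cor_deg hC hx _) ?_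
      rw [← cor_vecMul hC, hxe]
      exact cor_zero hC _
    exact fun x hx hxe => key x hx hxe
  · -- low
    intro q x hq hx
    exact P_eq_zero N y0 r hC fun g => r.low q _ hq (cor_deg hC hx g)
  · -- surjectivity
    intro w
    have h1 : ∀ s : Γ ⧸ MulAction.stabilizer Γ y0, ∃ z : C.I → Sb R (Γ := Γ) y0,
        ((r.pi z : N.N y0) : M) = (MonoidAlgebra.single (Quotient.out s)⁻¹ 1 : MonoidAlgebra R Γ) •
          (w : TM Y M).f ((Quotient.out s : Γ) • y0) ∧
        ((w : TM Y M).f ((Quotient.out s : Γ) • y0) = 0 → z = 0) := by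
      intro s
      by_cases h0 : (w : TM Y M).f ((Quotient.out s : Γ) • y0) = 0
      · refine ⟨0, ?_, fun _ => rfl⟩
        rw [h0, smul_zero, map_zero]
        rfl
      · have h2 := N.eqv (Quotient.out s)⁻¹ _ _ (w.2 ((Quotient.out s : Γ) • y0))
        rw [inv_smul_smul] at h2
        obtain ⟨z, hz⟩ := r.surj ⟨_, h2⟩
        exact ⟨z, by rw [hz], fun h3 => absurd h3 h0⟩
    choose z hz hz0 using h1
    have hinj : Function.Injective
        fun s : Γ ⧸ MulAction.stabilizer Γ y0 => (Quotient.out s : Γ) • y0 := by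
      intro s s' hs
      have h2 : (Quotient.out s)⁻¹ * Quotient.out s' ∈ MulAction.stabilizer Γ y0 := by
        rw [MulAction.mem_stabilizer_iff, mul_smul, inv_smul_eq_iff]
        exact hs.symm
      rw [← out_mk s, ← out_mk s']
      exact QuotientGroup.eq.2 h2
    obtain ⟨x, hx⟩ := cor_ex hC z ((((w : TM Y M).f.support.finite_toSet).preimage
      hinj.injOn).subset fun s hs => by
        change (Quotient.out s : Γ) • y0 ∈ ((w : TM Y M).f.support : Set Y)
        rw [Finset.mem_coe, Finsupp.mem_support_iff]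
        exact fun h0 => hs (hz0 s h0))
    refine ⟨x, W_ext N fun y => ?_⟩
    change G N y0 r x y = _
    by_cases hy : ∃ g : Γ, y = g • y0
    · obtain ⟨g, rfl⟩ := hy
      have h3 : (Quotient.out (g : Γ ⧸ MulAction.stabilizer Γ y0))⁻¹ * g ∈
          MulAction.stabilizer Γ y0 := QuotientGroup.eq.1 (out_mk _)
      rw [MulAction.mem_stabilizer_iff, mul_smul, inv_smul_eq_iff] at h3
      rw [h3, G_orb N y0 r hC]
      unfold F
      rw [hx, hz, smul_smul, MonoidAlgebra.single_mul_single, mul_inv_cancel, one_mul,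
        ← MonoidAlgebra.one_def, one_smul]
    · rw [G_not N y0 r _ hy]
      by_contra h0
      exact hy (horb y ⟨_, w.2 y, fun h4 => h0 h4.symm⟩)
  · -- zero
    intro y
    refine P_eq_zero N y0 r hC fun g => ?_
    have h1 := cor_vecMul hC C g y
    have h2 : cor (MulAction.stabilizer Γ y0) g (y ᵥ* (bc C).e) =
        cor (MulAction.stabilizer Γ y0) g y ᵥ* C.e := h1
    exact (congrArg r.pi h2).trans (r.zero _)
  · -- the kernel
    have key : ∀ x : C.I → MonoidAlgebra R Γ, InDeg C.deg 0 x → P N y0 r hC x = 0 →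
        ∃ y : C.I → MonoidAlgebra R Γ, x = y ᵥ* (bc C).e := by
      intro x hx hx0
      refine solve hC C x fun s => ?_
      refine r.ker _ (cor_deg hC hx _) ?_
      have h1 : G N y0 r x ((Quotient.out s : Γ) • y0) = 0 := by
        rw [← P_f N y0 r hC, hx0]
        rfl
      rw [G_orb N y0 r hC] at h1
      exact Subtype.ext (single_inj h1)
    exact fun x hx hx0 => key x hx hx0

end Pool.Agent.Lib.MP8a3537.CT
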