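import Pool.Agent.Lib.MP_8a3537_gt.CT.Spec

/-!
# MP_8a3537, folder CT, module IN2: families with finitely many orbits
-/

set_option autoImplicit false

namespace Pool.Agent.Lib.MP8a3537.CT

open Matrix
open Pool.Agent.Lib.MP8a3537.AUL (FC Res gsub FinRes Aus)
open Pool.Agent.Lib.MP8a3537.AUF (Coh FinResP PZL PF)

namespace IN2M

variable {R Γ Y M : Type} [Ring R] [Group Γ] [MulAction Γ Y] [AddCommGroup M]
  [Module (MonoidAlgebra R Γ) M]

theorem f_ext {x y : TM Y M} (h : ∀ v, x.f v = y.f v) : x = y := Finsupp.ext h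

theorem mem_W {N : Fa R Γ Y M} {x : TM Y M} : x ∈ W N ↔ ∀ y, x.f y ∈ N.N y := Iff.rfl

theorem W_cut_le (N : Fa R Γ Y M) (P : Y → Prop) (hP : ∀ (g : Γ) (y : Y), P y → P (g • y)) :
    W (N.cut P hP) ≤ W N := fun _ hx y => (hx y).1

/-- The sum map of the two parts of a family. -/
noncomputable def sm (N : Fa R Γ Y M) (P : Y → Prop) (hP : ∀ (g : Γ) (y : Y), P y → P (g • y))
    (hP' : ∀ (g : Γ) (y : Y), ¬ P y → ¬ P (g • y)) :
    (W (N.cut P hP) × W (N.cut (fun y => ¬ P y) hP')) →ₗ[MonoidAlgebra R Γ] W N :=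
  (Submodule.inclusion (W_cut_le N P hP)).coprod (Submodule.inclusion (W_cut_le N _ hP'))

theorem sm_coe (N : Fa R Γ Y M) (P : Y → Prop) (hP : ∀ (g : Γ) (y : Y), P y → P (g • y))
    (hP' : ∀ (g : Γ) (y : Y), ¬ P y → ¬ P (g • y))
    (a : W (N.cut P hP) × W (N.cut (fun y => ¬ P y) hP')) :
    (sm N P hP hP' a : TM Y M) = (a.1 : TM Y M) + (a.2 : TM Y M) := rfl

theorem sm_bij (N : Fa R Γ Y M) (P : Y → Prop) (hP : ∀ (g : Γ) (y : Y), P y → P (g • y))
    (hP' : ∀ (g : Γ) (y : Y), ¬ P y → ¬ P (g • y)) : Function.Bijective (sm N P hP hP') := by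
  classical
  constructor
  · rw [← LinearMap.ker_eq_bot, LinearMap.ker_eq_bot']
    rintro ⟨a, b⟩ h
    have h1 : (a : TM Y M) + (b : TM Y M) = 0 := by
      rw [← sm_coe N P hP hP' (a, b), h]
      rfl
    have h2 : ∀ y, (a : TM Y M).f y + (b : TM Y M).f y = 0 := by
      intro y
      have h3 : ((a : TM Y M) + (b : TM Y M)).f y = 0 := by
        rw [h1, f_zero]
        rfl
      rw [f_add] at h3
      exact h3
    have h4 : ∀ y, (a : TM Y M).f y = 0 ∧ (b : TM Y M).f y = 0 := by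
      intro y
      by_cases hy : P y
      · have hb : (b : TM Y M).f y = 0 := (b.2 y).2 (fun hn => hn hy)
        have h5 := h2 y
        rw [hb, add_zero] at h5
        exact ⟨h5, hb⟩
      · have ha : (a : TM Y M).f y = 0 := (a.2 y).2 hy
        have h5 := h2 y
        rw [ha, zero_add] at h5
        exact ⟨ha, h5⟩
    refine Prod.ext (Subtype.ext (f_ext fun y => ?_)) (Subtype.ext (f_ext fun y => ?_))
    · exact (h4 y).1
    · exact (h4 y).2
  · rintro ⟨x, hx⟩
    have hx' : ∀ y, x.f y ∈ N.N y := hx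
    have ha : TM.mk (x.f.filter P) ∈ W (N.cut P hP) := by
      intro y
      rw [f_mk, mem_cut]
      by_cases hy : P y
      · rw [Finsupp.filter_apply_pos _ _ hy]
        exact ⟨hx' y, fun h => absurd hy h⟩
      · rw [Finsupp.filter_apply_neg _ _ hy]
        exact ⟨Submodule.zero_mem _, fun _ => rfl⟩
    have hb : TM.mk (x.f.filter (fun y => ¬ P y)) ∈ W (N.cut (fun y => ¬ P y) hP') := by
      intro y
      rw [f_mk, mem_cut]
      by_cases hy : P y
      · rw [Finsupp.filter_apply_neg _ _ (by simpa using hy)]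
        exact ⟨Submodule.zero_mem _, fun _ => rfl⟩
      · rw [Finsupp.filter_apply_pos (fun y => ¬ P y) _ hy]
        exact ⟨hx' y, fun h => absurd hy h⟩
    refine ⟨(⟨_, ha⟩, ⟨_, hb⟩), Subtype.ext (f_ext fun y => ?_)⟩
    rw [sm_coe, f_add, f_mk, f_mk]
    exact DFunLike.congr_fun (Finsupp.filter_add_filter_not x.f P) y

end IN2M

open IN2M in
theorem specIN2 (hFRA : SpecFRA) (hIN1 : SpecIN1) : SpecIN2 := by
  classical
  intro R Γ Y M _ _ _ _ _ N hN D hD
  obtain ⟨s, hs⟩ := hN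
  induction s using Finset.induction_on generalizing N with
  | empty =>
    have h0 : Subsingleton (W N) := by
      refine ⟨fun a b => ?_⟩
      have h1 : ∀ a : W N, ∀ y, (a : TM Y M).f y = 0 := by
        intro a y
        by_contra hne
        obtain ⟨g, z, hz, -⟩ := hs y ⟨_, a.2 y, hne⟩
        simp at hz
      exact Subtype.ext (f_ext fun y => by rw [h1 a y, h1 b y])
    have h2 := (hFRA (MonoidAlgebra R Γ) (W N) (W N)).2.2.2.1 h0
    exact (hFRA (MonoidAlgebra R Γ) (W N) (W N)).2.1 0 D (Nat.zero_le D) h2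
  | insert z s hz ih =>
    have hP : ∀ (g : Γ) (y : Y), (∃ k : Γ, y = k • z) → ∃ k : Γ, g • y = k • z := by
      rintro g y ⟨k, rfl⟩
      exact ⟨g * k, (mul_smul g k z).symm⟩
    have hP' : ∀ (g : Γ) (y : Y), ¬ (∃ k : Γ, y = k • z) → ¬ ∃ k : Γ, g • y = k • z := by
      rintro g y h ⟨k, hk⟩
      refine h ⟨g⁻¹ * k, ?_⟩
      rw [mul_smul, ← hk, inv_smul_smul]
    -- the family on the orbit of `z`
    have e1 : (N.cut (fun y => ∃ k : Γ, y = k • z) hP).N z = N.N z := by
      ext m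
      rw [mem_cut]
      exact ⟨fun h => h.1, fun h => ⟨h, fun hn => absurd ⟨1, (one_smul Γ z).symm⟩ hn⟩⟩
    have f1 : FR (MonoidAlgebra R Γ) D (W (N.cut (fun y => ∃ k : Γ, y = k • z) hP)) := by
      refine hIN1 R Γ Y M _ z ?_ D ?_
      · rintro y ⟨m, hm, hm0⟩
        by_contra hn
        exact hm0 (hm.2 hn)
      · exact (hFRA _ (N.N z) _).1 D (LinearEquiv.ofEq _ _ e1.symm) (hD z)
    -- the rest
    have f2 : FR (MonoidAlgebra R Γ) D (W (N.cut (fun y => ¬ ∃ k : Γ, y = k • z) hP')) := by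
      refine ih _ ?_ ?_
      · intro y
        by_cases hy : ∃ k : Γ, y = k • z
        · have h0 : Subsingleton ((N.cut (fun y => ¬ ∃ k : Γ, y = k • z) hP').N y) := by
            refine ⟨fun a b => ?_⟩
            have ha : (a : M) = 0 := a.2.2 (fun hn => hn hy)
            have hb : (b : M) = 0 := b.2.2 (fun hn => hn hy)
            exact Subtype.ext (by rw [ha, hb])
          have h2 := (hFRA (Sb R (Γ := Γ) y) _ ((N.cut (fun y => ¬ ∃ k : Γ, y = k • z) hP').N y)).2.2.2.1 h0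
          exact (hFRA (Sb R (Γ := Γ) y) _ ((N.cut (fun y => ¬ ∃ k : Γ, y = k • z) hP').N y)).2.1 0 D
            (Nat.zero_le D) h2
        · have e2 : (N.cut (fun y => ¬ ∃ k : Γ, y = k • z) hP').N y = N.N y := by
            ext m
            rw [mem_cut]
            exact ⟨fun h => h.1, fun h => ⟨h, fun hn => absurd hy hn⟩⟩
          exact (hFRA _ (N.N y) _).1 D (LinearEquiv.ofEq _ _ e2.symm) (hD y)
      · rintro y ⟨m, hm, hm0⟩
        obtain ⟨g, w, hw, hy⟩ := hs y ⟨m, hm.1, hm0⟩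
        rw [Finset.mem_insert] at hw
        rcases hw with hw | hw
        · exfalso
          refine hm0 (hm.2 fun hn => hn ⟨g, ?_⟩)
          rw [hy, hw]
        · exact ⟨g, w, hw, hy⟩
    exact (hFRA (MonoidAlgebra R Γ) _ (W N)).1 D (LinearEquiv.ofBijective _ (sm_bij N _ hP hP'))
      ((hFRA (MonoidAlgebra R Γ) _ _).2.2.1 D f1 f2)

end Pool.Agent.Lib.MP8a3537.CT
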