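import Pool.Agent.Lib.MP_8a3537_gt.CT.Spec

/-!
# Module KMV (MP_8a3537_gt, folder CT): the data of a finitely generated submodule
-/

set_option autoImplicit false

namespace Pool.Agent.Lib.MP8a3537.CT

open Matrix
open Pool.Agent.Lib.MP8a3537.AUL (FC Res gsub FinRes Aus)
open Pool.Agent.Lib.MP8a3537.AUF (Coh FinResP PZL PF)

namespace KMVM

section Maps

variable {V A B : Type} [AddCommGroup A] [AddCommGroup B]

theorem tot_map (f : A →+ B) (x : V →₀ A) :
    tot (Finsupp.mapRange.addMonoidHom f x) = f (tot x) := by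
  have e : (tot.comp (Finsupp.mapRange.addMonoidHom f) : (V →₀ A) →+ B) = f.comp tot := by
    refine Finsupp.addHom_ext fun u a => ?_
    rw [AddMonoidHom.comp_apply, AddMonoidHom.comp_apply, Finsupp.mapRange.addMonoidHom_apply,
      Finsupp.mapRange_single, tot_single, tot_single]
  exact congrArg (fun g => g x) e

theorem bd_map (f : A →+ B) (y : (V × V) →₀ A) :
    bd (Finsupp.mapRange.addMonoidHom f y) = Finsupp.mapRange.addMonoidHom f (bd y) := by
  have e : (bd.comp (Finsupp.mapRange.addMonoidHom f) : ((V × V) →₀ A) →+ (V →₀ B)) =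
      (Finsupp.mapRange.addMonoidHom f).comp bd := by
    refine Finsupp.addHom_ext fun p a => ?_
    rw [AddMonoidHom.comp_apply, AddMonoidHom.comp_apply, Finsupp.mapRange.addMonoidHom_apply,
      Finsupp.mapRange_single, bd_single, bd_single, map_sub,
      Finsupp.mapRange.addMonoidHom_apply, Finsupp.mapRange.addMonoidHom_apply,
      Finsupp.mapRange_single, Finsupp.mapRange_single]
  exact congrArg (fun g => g y) e

end Maps

section Lift

variable {S P : Type} [Ring S] [AddCommGroup P] [Module S P]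

/-- A function with values in `K`. -/
theorem lift {Y : Type} (K : Submodule S P) (x : Y →₀ P) (hx : ∀ v, x v ∈ K) :
    ∃ x' : Y →₀ K, (∀ v, (x' v : P) = x v) ∧
      Finsupp.mapRange.addMonoidHom K.subtype.toAddMonoidHom x' = x := by
  classical
  have h0 : ∀ v, (⟨x v, hx v⟩ : K) ≠ 0 → v ∈ x.support := by
    intro v h
    rw [Finsupp.mem_support_iff]
    intro h1
    exact h (Subtype.ext h1)
  refine ⟨Finsupp.onFinset x.support (fun v => (⟨x v, hx v⟩ : K)) h0, fun v => rfl, ?_⟩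
  ext v
  rfl

end Lift

section Main

variable {R Γ V : Type} [Ring R] [Group Γ] [MulAction Γ V]

theorem span_mem_K {n : ℕ} {v : V}
    {K : Submodule (MonoidAlgebra R Γ) (Fin n → MonoidAlgebra R Γ)}
    {Z : Set (Fin n → MonoidAlgebra R Γ)} (hZ : ∀ z ∈ Z, z ∈ K) {x : Fin n → MonoidAlgebra R Γ}
    (hx : x ∈ Submodule.span (Sb R (Γ := Γ) v) Z) : x ∈ K := by
  induction hx using Submodule.span_induction with
  | mem x h => exact hZ x h
  | zero => exact K.zero_mem
  | add x y _ _ hx hy => exact K.add_mem hx hy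
  | smul a x _ hx => exact K.smul_mem (a : MonoidAlgebra R Γ) hx

theorem gv_mem {n r : ℕ} {U : Finset V} {v0 : V} {κ : Fin r → Fin n → MonoidAlgebra R Γ}
    (hκ : InL U v0 κ) {v : V} {x : Fin n → MonoidAlgebra R Γ}
    (hx : x ∈ Submodule.span (Sb R (Γ := Γ) v)
      {z | ∃ (g : Γ) (j : Fin r), g • v0 = v ∧
        z = (MonoidAlgebra.single g 1 : MonoidAlgebra R Γ) • κ j}) :
    x ∈ Submodule.span (MonoidAlgebra R Γ) (Set.range κ) ∧
      x ∈ (Lc R Γ (U : Set V) n).N v := by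
  refine ⟨span_mem_K ?_ hx, ?_⟩
  · rintro z ⟨g, j, -, rfl⟩
    exact Submodule.smul_mem _ _ (Submodule.subset_span ⟨j, rfl⟩)
  · have h : Submodule.span (Sb R (Γ := Γ) v)
        {z | ∃ (g : Γ) (j : Fin r), g • v0 = v ∧
          z = (MonoidAlgebra.single g 1 : MonoidAlgebra R Γ) • κ j} ≤
        (Lc R Γ (U : Set V) n).N v := by
      rw [Submodule.span_le]
      rintro z ⟨g, j, rfl, rfl⟩
      exact (Lc R Γ (U : Set V) n).eqv g v0 (κ j) (hκ j)
    exact h hx

end Main

end KMVM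

open KMVM

theorem specKMV (hC : SpecLCF) (hX : SpecLEX) : SpecKMV := by
  classical
  intro R Γ V _ _ _ T O hT hact hOri hO n U hU v0 r κ hκ
  obtain ⟨hX1, hX2⟩ := hX R Γ V T O hT hact hOri n U hU
  obtain ⟨-, hC2, -, hC4⟩ := hC R Γ V n U
  obtain ⟨-, hC2', -, -⟩ := hC R Γ (V × V) n (U ×ˢ U)
  rw [Finset.coe_product] at hC2'
  set K := Submodule.span (MonoidAlgebra R Γ) (Set.range κ) with hK
  refine ⟨⟨?_, ?_, ?_, ?_⟩, ?_, ?_⟩
  · intro p m hm
    rw [mem_res, mem_cut] at hm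
    rw [mem_res, mem_res]
    exact (hC4 p _).1 hm.1
  · intro m
    obtain ⟨x, hx, hxm⟩ := hX2 v0 r κ hκ m m.2
    obtain ⟨x', hx'1, hx'2⟩ := lift K x fun v => (gv_mem hκ (hx v)).1
    refine ⟨x', fun v => ?_, ?_⟩
    · rw [mem_res, hx'1]
      exact (gv_mem hκ (hx v)).2
    · apply Subtype.ext
      have h1 := tot_map K.subtype.toAddMonoidHom x'
      rw [hx'2, hxm] at h1
      exact h1.symm
  · intro x hx htot
    obtain ⟨y, hy, hyx⟩ := hX1 K (Finsupp.mapRange.addMonoidHom K.subtype.toAddMonoidHom x)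
      (fun v => ⟨(x v).2, (mem_res _ _ _ _).1 (hx v)⟩) (by
        rw [tot_map, htot, map_zero])
    obtain ⟨y', hy'1, hy'2⟩ := lift K y fun p => (hy p).1
    refine ⟨y', fun p => ?_, ?_⟩
    · rw [mem_res, mem_cut, hy'1]
      obtain ⟨-, h2, h3, h4⟩ := hy p
      exact ⟨(hC4 p _).2 ⟨h2, h3⟩, h4⟩
    · have h1 := bd_map K.subtype.toAddMonoidHom y'
      rw [hy'2, hyx] at h1
      ext1 v
      apply Subtype.ext
      exact (DFunLike.congr_fun h1 v).symm
  · intro y hy hbd
    apply bd_inj hT hOri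
    · intro p hp
      by_contra hno
      apply hp
      have h1 := hy p
      rw [mem_res, mem_cut] at h1
      exact Subtype.ext (h1.2 hno)
    · intro p hp
      exact absurd rfl hp
    · rw [hbd, map_zero]
  · obtain ⟨s, hs⟩ := hC2
    refine ⟨s, fun y hy => hs y ?_⟩
    obtain ⟨m, hm, hm0⟩ := hy
    exact ⟨m, (mem_res _ _ _ _).1 hm, fun h => hm0 (Subtype.ext h)⟩
  · obtain ⟨s, hs⟩ := hC2'
    refine ⟨s, fun y hy => hs y ?_⟩
    obtain ⟨m, hm, hm0⟩ := hy
    rw [mem_res, mem_cut] at hm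
    exact ⟨m, hm.1, fun h => hm0 (Subtype.ext h)⟩

end Pool.Agent.Lib.MP8a3537.CT
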