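import Pool.Agent.Lib.MP_8a3537_gt.CT.Spec
import Pool.Agent.Lib.MP_8a3537_gt.AUL.GRP

/-!
# Group rings of groups acting on trees (MP_8a3537_gt, folder CT): module LCF (helper51)

The submodules `(Lc R Γ U n).N y` are free of finite rank over `Sb R y`.
-/

set_option autoImplicit false

namespace Pool.Agent.Lib.MP8a3537.CT

open Pool.Agent.Lib.MP8a3537.AUL (gsub)

namespace LCFM

variable (R Γ : Type) {Y : Type} [Ring R] [Group Γ] [MulAction Γ Y]

/-- The elements of `U` in the orbit of `y`. -/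
abbrev IU (U : Finset Y) (y : Y) : Type := {u : Y // u ∈ U ∧ ∃ g : Γ, g • u = y}

instance (U : Finset Y) (y : Y) : Finite (IU Γ U y) :=
  Finite.of_injective (fun u : IU Γ U y => (⟨u.1, u.2.1⟩ : {u : Y // u ∈ U}))
    fun _ _ h => Subtype.ext (congrArg (fun z : {u : Y // u ∈ U} => z.1) h)

noncomputable instance (U : Finset Y) (y : Y) : Fintype (IU Γ U y) := Fintype.ofFinite _

variable {Γ}

/-- A group element which takes `u` to `y`. -/
noncomputable def gu {U : Finset Y} {y : Y} (u : IU Γ U y) : Γ := u.2.2.choose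

theorem gu_smul {U : Finset Y} {y : Y} (u : IU Γ U y) : gu u • u.1 = y := u.2.2.choose_spec

theorem gu_inv {U : Finset Y} {y : Y} (u : IU Γ U y) : (gu u)⁻¹ • y = u.1 := by
  rw [inv_smul_eq_iff]
  exact (gu_smul u).symm

variable {R}

/-- The row of sums. -/
noncomputable def row {U : Finset Y} {y : Y} {n : ℕ} (a : IU Γ U y × Fin n → Sb R (Γ := Γ) y) :
    Fin n → MonoidAlgebra R Γ :=
  fun i => ∑ u : IU Γ U y, (a (u, i) : MonoidAlgebra R Γ) * MonoidAlgebra.single (gu u) 1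

theorem row_coeff {U : Finset Y} {y : Y} {n : ℕ} (a : IU Γ U y × Fin n → Sb R (Γ := Γ) y)
    (i : Fin n) (k : Γ) : (row a i).coeff k =
      ∑ u : IU Γ U y, (a (u, i) : MonoidAlgebra R Γ).coeff (k * (gu u)⁻¹) := by
  unfold row
  rw [MonoidAlgebra.coeff_sum, Finsupp.finsetSum_apply]
  refine Finset.sum_congr rfl fun u _ => ?_
  rw [MonoidAlgebra.coeff_mul_single_apply, mul_one]

theorem stab_of {U : Finset Y} {y : Y} {k : Γ} (u : IU Γ U y)
    (h : k * (gu u)⁻¹ ∈ MulAction.stabilizer Γ y) : k⁻¹ • y = u.1 := by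
  have h1 : (k * (gu u)⁻¹) • y = y := h
  rw [mul_smul, gu_inv] at h1
  rw [inv_smul_eq_iff]
  exact h1.symm

theorem coeff_zero {U : Finset Y} {y : Y} {n : ℕ} (a : IU Γ U y × Fin n → Sb R (Γ := Γ) y)
    (i : Fin n) (k : Γ) (u : IU Γ U y) (h : k⁻¹ • y ≠ u.1) :
    (a (u, i) : MonoidAlgebra R Γ).coeff (k * (gu u)⁻¹) = 0 :=
  AUL.GRPM.coeff_not_mem _ _ (a (u, i)).2 _ fun h1 => h (stab_of u h1)

theorem row_coeff_eq {U : Finset Y} {y : Y} {n : ℕ} (a : IU Γ U y × Fin n → Sb R (Γ := Γ) y)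
    (i : Fin n) (k : Γ) (u : IU Γ U y) (h : k⁻¹ • y = u.1) :
    (row a i).coeff k = (a (u, i) : MonoidAlgebra R Γ).coeff (k * (gu u)⁻¹) := by
  rw [row_coeff]
  refine Finset.sum_eq_single u (fun v _ hv => coeff_zero a i k v fun h1 => hv ?_)
    (fun h1 => absurd (Finset.mem_univ _) h1)
  exact Subtype.ext (h1.symm.trans h)

theorem row_mem {U : Finset Y} {y : Y} {n : ℕ} (a : IU Γ U y × Fin n → Sb R (Γ := Γ) y) :
    row a ∈ (Lc R Γ (U : Set Y) n).N y := by
  rw [mem_Lc]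
  intro i g hg
  by_contra h
  apply hg
  rw [row_coeff]
  refine Finset.sum_eq_zero fun u _ => coeff_zero a i g u fun h1 => h ?_
  rw [h1]
  exact Finset.mem_coe.2 u.2.1

/-- The linear map. -/
noncomputable def Phi (U : Finset Y) (y : Y) (n : ℕ) :
    (IU Γ U y × Fin n → Sb R (Γ := Γ) y) →ₗ[Sb R (Γ := Γ) y] (Lc R Γ (U : Set Y) n).N y where
  toFun a := ⟨row a, row_mem a⟩
  map_add' a b := by
    refine Subtype.ext (funext fun i => ?_)
    change ∑ u : IU Γ U y, ((a (u, i) + b (u, i) : Sb R (Γ := Γ) y) : MonoidAlgebra R Γ) * _ =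
      (∑ u : IU Γ U y, _) + ∑ u : IU Γ U y, _
    rw [← Finset.sum_add_distrib]
    refine Finset.sum_congr rfl fun u _ => ?_
    rw [Subring.coe_add, add_mul]
  map_smul' s a := by
    refine Subtype.ext (funext fun i => ?_)
    change ∑ u : IU Γ U y, ((s * a (u, i) : Sb R (Γ := Γ) y) : MonoidAlgebra R Γ) * _ =
      (s : MonoidAlgebra R Γ) * ∑ u : IU Γ U y, _
    rw [Finset.mul_sum]
    refine Finset.sum_congr rfl fun u _ => ?_
    rw [Subring.coe_mul, mul_assoc]

theorem Phi_inj (U : Finset Y) (y : Y) (n : ℕ) :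
    Function.Injective (Phi (R := R) (Γ := Γ) U y n) := by
  intro a b hab
  have h0 : ∀ i k, (row a i).coeff k = (row b i).coeff k := by
    intro i k
    have h1 : row a = row b := congrArg Subtype.val hab
    rw [h1]
  funext ⟨u, i⟩
  refine Subtype.ext (MonoidAlgebra.ext (Finsupp.ext fun h => ?_))
  by_cases hh : h ∈ MulAction.stabilizer Γ y
  · have h1 := h0 i (h * gu u)
    have h2 : (h * gu u)⁻¹ • y = u.1 := by
      rw [_root_.mul_inv_rev, mul_smul]
      have h3 : h⁻¹ • y = y := by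
        rw [inv_smul_eq_iff]
        exact (show h • y = y from hh).symm
      rw [h3, gu_inv]
    rw [row_coeff_eq a i _ u h2, row_coeff_eq b i _ u h2, mul_inv_cancel_right] at h1
    exact h1
  · rw [AUL.GRPM.coeff_not_mem _ _ (a (u, i)).2 _ hh, AUL.GRPM.coeff_not_mem _ _ (b (u, i)).2 _ hh]

/-- The part of `x` along `H t`. -/
noncomputable def lco (H : Subgroup Γ) (t : Γ) (x : MonoidAlgebra R Γ) : gsub R H :=
  ⟨UV.emb R H (MonoidAlgebra.ofCoeff (Finsupp.comapDomain (fun h : H => (h : Γ) * t) x.coeff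
    (fun _ _ _ _ h => Subtype.ext (mul_right_cancel h)))), ⟨_, rfl⟩⟩

theorem lco_coeff (H : Subgroup Γ) (t : Γ) (x : MonoidAlgebra R Γ) (h : Γ) (hh : h ∈ H) :
    (lco H t x : MonoidAlgebra R Γ).coeff h = x.coeff (h * t) := by
  have h1 := UV.RESAux.emb_coeff_mem H
    (MonoidAlgebra.ofCoeff (Finsupp.comapDomain (fun h : H => (h : Γ) * t) x.coeff
    (fun _ _ _ _ h => Subtype.ext (mul_right_cancel h)))) ⟨h, hh⟩
  exact h1.trans rfl

theorem Phi_surj (U : Finset Y) (y : Y) (n : ℕ) :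
    Function.Surjective (Phi (R := R) (Γ := Γ) U y n) := by
  rintro ⟨x, hx⟩
  refine ⟨fun p => lco (MulAction.stabilizer Γ y) (gu p.1) (x p.2), ?_⟩
  refine Subtype.ext (funext fun i => MonoidAlgebra.ext (Finsupp.ext fun k => ?_))
  change (row (fun p : IU Γ U y × Fin n =>
    lco (MulAction.stabilizer Γ y) (gu p.1) (x p.2)) i).coeff k = (x i).coeff k
  by_cases hk : k⁻¹ • y ∈ (U : Set Y)
  · have h1 : k • (k⁻¹ • y) = y := smul_inv_smul k y
    let u : IU Γ U y := ⟨k⁻¹ • y, Finset.mem_coe.1 hk, k, h1⟩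
    rw [row_coeff_eq _ i k u rfl]
    have h2 : k * (gu u)⁻¹ ∈ MulAction.stabilizer Γ y := by
      change (k * (gu u)⁻¹) • y = y
      rw [mul_smul, gu_inv]
      exact h1
    rw [lco_coeff _ _ _ _ h2, inv_mul_cancel_right]
  · have h1 : (x i).coeff k = 0 := by
      by_contra h2
      exact hk (hx i k h2)
    rw [h1]
    by_contra h2
    exact hk (row_mem (R := R) (Γ := Γ) (U := U) (y := y) _ i k h2)

end LCFM

theorem specLCF : SpecLCF := by
  intro R Γ Y _ _ _ n U
  have hfp : ∀ y, Module.FinitePresentation (Sb R (Γ := Γ) y) ((Lc R Γ (U : Set Y) n).N y) :=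
    fun y => Module.FinitePresentation.of_equiv
      (LinearEquiv.ofBijective (LCFM.Phi (R := R) (Γ := Γ) U y n)
        ⟨LCFM.Phi_inj U y n, LCFM.Phi_surj U y n⟩)
  refine ⟨hfp, ?_, ?_, ?_⟩
  · refine ⟨U, fun y hy => ?_⟩
    obtain ⟨m, hm, hm0⟩ := hy
    have h1 : ∃ i, m i ≠ 0 := by
      by_contra h
      push Not at h
      exact hm0 (funext h)
    obtain ⟨i, hi⟩ := h1
    have h2 : ∃ g, (m i).coeff g ≠ 0 := by
      by_contra h
      push Not at h
      exact hi (MonoidAlgebra.ext (Finsupp.ext h))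
    obtain ⟨g, hg⟩ := h2
    exact ⟨g, g⁻¹ • y, Finset.mem_coe.1 (hm i g hg), (smul_inv_smul g y).symm⟩
  · intro P hP y
    by_cases h : P y
    · have h1 : ((Lc R Γ (U : Set Y) n).cut P hP).N y = (Lc R Γ (U : Set Y) n).N y :=
        Submodule.ext fun x => ⟨fun hx => hx.1, fun hx => ⟨hx, fun h2 => absurd h h2⟩⟩
      rw [h1]
      have := hfp y
      infer_instance
    · have h1 : ((Lc R Γ (U : Set Y) n).cut P hP).N y = ⊥ :=
        Submodule.ext fun x => ⟨fun hx => (Submodule.mem_bot _).2 (hx.2 h), fun hx => by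
          rw [(Submodule.mem_bot _).1 hx]
          exact zero_mem _⟩
      rw [h1]
      infer_instance
  · intro p x
    constructor
    · intro hx
      exact ⟨fun i g hg => (hx i g hg).1, fun i g hg => (hx i g hg).2⟩
    · rintro ⟨h1, h2⟩ i g hg
      exact ⟨h1 i g hg, h2 i g hg⟩

end Pool.Agent.Lib.MP8a3537.CT
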