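import Pool.Agent.Lib.MP_8a3537_gt.CT.Spec

/-!
# Group rings of groups acting on trees (MP_8a3537_gt, folder CT), module `LEX` (helper92)
-/

set_option autoImplicit false

namespace Pool.Agent.Lib.MP8a3537.CT

open Matrix
open Pool.Agent.Lib.MP8a3537.AUL (FC Res gsub FinRes Aus)
open Pool.Agent.Lib.MP8a3537.AUF (Coh FinResP PZL PF)

namespace LEXM

variable {R Γ V : Type} [Ring R] [Group Γ] [MulAction Γ V]

/-- side sums of a function with values in an additive subgroup -/
theorem ss_mem {A : Type} [AddCommGroup A] (T : SimpleGraph V) (v w : V) (K : AddSubgroup A)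
    (x : V →₀ A) (hx : ∀ u, x u ∈ K) : ss T v w x ∈ K := by
  classical
  have e1 : ss T v w x = ∑ u ∈ x.support, ss T v w (Finsupp.single u (x u)) := by
    conv_lhs => rw [← Finsupp.sum_single x]
    rw [Finsupp.sum, map_sum]
  rw [e1]
  refine K.sum_mem fun u _ => ?_
  by_cases h : u ∈ UV.TREAux.Br T v w
  · rw [ss_single_mem h]
    exact hx u
  · rw [ss_single_not h]
    exact K.zero_mem

/-- the coefficient at `g` of the entry `i` -/
noncomputable def cf (n : ℕ) (i : Fin n) (g : Γ) : (Fin n → MonoidAlgebra R Γ) →+ R where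
  toFun z := (z i).coeff g
  map_zero' := by
    rw [Pi.zero_apply]
    rfl
  map_add' a b := by
    rw [Pi.add_apply, MonoidAlgebra.coeff_add, Finsupp.add_apply]

/-- the property of LEX (2) -/
def PR2 (v0 : V) {n r : ℕ} (κ : Fin r → Fin n → MonoidAlgebra R Γ)
    (m : Fin n → MonoidAlgebra R Γ) : Prop :=
  ∃ x : V →₀ (Fin n → MonoidAlgebra R Γ),
    (∀ v, x v ∈ Submodule.span (Sb R (Γ := Γ) v)
      {z | ∃ (g : Γ) (j : Fin r), g • v0 = v ∧
        z = (MonoidAlgebra.single g 1 : MonoidAlgebra R Γ) • κ j}) ∧ tot x = m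

theorem PR2.zero (v0 : V) {n r : ℕ} (κ : Fin r → Fin n → MonoidAlgebra R Γ) :
    PR2 v0 κ 0 :=
  ⟨0, fun _ => Submodule.zero_mem _, map_zero _⟩

theorem PR2.add {v0 : V} {n r : ℕ} {κ : Fin r → Fin n → MonoidAlgebra R Γ}
    {m m' : Fin n → MonoidAlgebra R Γ} (h : PR2 v0 κ m) (h' : PR2 v0 κ m') :
    PR2 v0 κ (m + m') := by
  obtain ⟨x, hx, hm⟩ := h
  obtain ⟨x', hx', hm'⟩ := h'
  exact ⟨x + x', fun v => Submodule.add_mem _ (hx v) (hx' v), by rw [map_add, hm, hm']⟩

theorem single_one_mem (v : V) (r : R) :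
    (MonoidAlgebra.single 1 r : MonoidAlgebra R Γ) ∈ Sb R (Γ := Γ) v :=
  ⟨MonoidAlgebra.single 1 r, by
    change MonoidAlgebra.mapDomain _ _ = _
    rw [MonoidAlgebra.mapDomain_single]
    rfl⟩

theorem PR2.single (v0 : V) {n r : ℕ} (κ : Fin r → Fin n → MonoidAlgebra R Γ) (g : Γ) (s : R)
    (j : Fin r) : PR2 v0 κ ((MonoidAlgebra.single g s : MonoidAlgebra R Γ) • κ j) := by
  classical
  refine ⟨Finsupp.single (g • v0) ((MonoidAlgebra.single g s : MonoidAlgebra R Γ) • κ j),
    fun v => ?_, tot_single _ _⟩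
  by_cases h : v = g • v0
  · rw [h, Finsupp.single_eq_same]
    have h1 : (MonoidAlgebra.single g s : MonoidAlgebra R Γ) • κ j =
        (MonoidAlgebra.single 1 s : MonoidAlgebra R Γ) •
          ((MonoidAlgebra.single g 1 : MonoidAlgebra R Γ) • κ j) := by
      rw [smul_smul, MonoidAlgebra.single_mul_single, one_mul, mul_one]
    rw [h1]
    exact Submodule.smul_mem _ (⟨_, single_one_mem (g • v0) s⟩ : Sb R (Γ := Γ) (g • v0))
      (Submodule.subset_span ⟨g, j, rfl, rfl⟩)
  · rw [Finsupp.single_eq_of_ne h]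
    exact Submodule.zero_mem _

theorem PR2.smul (v0 : V) {n r : ℕ} (κ : Fin r → Fin n → MonoidAlgebra R Γ)
    (a : MonoidAlgebra R Γ) (j : Fin r) : PR2 v0 κ (a • κ j) := by
  induction a using MonoidAlgebra.induction_linear with
  | zero =>
    rw [zero_smul]
    exact PR2.zero v0 κ
  | add a b ha hb =>
    rw [add_smul]
    exact ha.add hb
  | single g s => exact PR2.single v0 κ g s j

end LEXM

open LEXM

theorem specLEX : SpecLEX := by
  intro R Γ V _ _ _ T O hT hact hO n U hU
  refine ⟨fun K x hx hx0 => ?_, fun v0 r κ _ m hm => ?_⟩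
  · obtain ⟨y, hy, hb⟩ := exists_bd hT hO x hx0
    have hz : ∀ p : V × V, ¬ O p.1 p.2 → y p = 0 := by
      intro p hp
      by_contra h0
      exact hp (hy p h0)
    refine ⟨y, fun p => ?_, hb⟩
    by_cases hp : O p.1 p.2
    · have hs : y p = ss T p.1 p.2 x := by
        rw [← hb]
        exact (ss_bd hT hO hp y hy).symm
      have hm : ∀ (i : Fin n) (g : Γ), (y p i).coeff g ≠ 0 →
          g⁻¹ • p.1 ∈ (U : Set V) ∧ g⁻¹ • p.2 ∈ (U : Set V) := by
        intro i g hg
        exact ends_mem hT (Cx.smul hT hact hU g) x hx0 (cf n i g)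
          (fun u hu => mem_Lc.1 (hx u).2 i g hu) (hO.adj _ _ hp) (by
            rw [← hs]
            exact hg)
      refine ⟨?_, mem_Lc.2 fun i g hg => (hm i g hg).1, mem_Lc.2 fun i g hg => (hm i g hg).2,
        fun h => absurd hp h⟩
      rw [hs]
      exact ss_mem T p.1 p.2 K.toAddSubgroup x fun u => (hx u).1
    · rw [hz p hp]
      exact ⟨K.zero_mem, Submodule.zero_mem _, Submodule.zero_mem _, fun _ => rfl⟩
  · obtain ⟨c, rfl⟩ := (Submodule.mem_span_range_iff_exists_fun _).1 hm
    have h : ∀ s : Finset (Fin r), PR2 v0 κ (∑ j ∈ s, c j • κ j) := by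
      classical
      intro s
      induction s using Finset.induction_on with
      | empty =>
        rw [Finset.sum_empty]
        exact PR2.zero v0 κ
      | insert a s ha ih =>
        rw [Finset.sum_insert ha]
        exact (PR2.smul v0 κ (c a) a).add ih
    exact h Finset.univ

end Pool.Agent.Lib.MP8a3537.CT
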