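import Pool.Agent.Lib.MP_8a3537_gt.CT.Spec

/-! # Folder CT, module LNR (helper10): `tot` and `bd` are linear for the twisted action -/

set_option autoImplicit false

namespace Pool.Agent.Lib.MP8a3537.CT

open Matrix
open Pool.Agent.Lib.MP8a3537.AUL (FC Res gsub FinRes Aus)
open Pool.Agent.Lib.MP8a3537.AUF (Coh FinResP PZL PF)

namespace LNRM

variable {R Γ Y M : Type} [Ring R] [Group Γ] [MulAction Γ Y] [AddCommGroup M]
  [Module (MonoidAlgebra R Γ) M]

/-- the action on a function with one value -/
theorem smul_single (g : Γ) (r : R) (y : Y) (m : M) :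
    ((MonoidAlgebra.single g r : MonoidAlgebra R Γ) • TM.mk (Finsupp.single y m)).f =
      Finsupp.single (g • y) ((MonoidAlgebra.single g r : MonoidAlgebra R Γ) • m) := by
  classical
  refine Finsupp.ext fun z => ?_
  rw [smul_f, f_mk]
  by_cases h : g • y = z
  · have h1 : g⁻¹ • z = y := by rw [← h, inv_smul_smul]
    rw [h1, h, Finsupp.single_eq_same, Finsupp.single_eq_same]
  · have h1 : y ≠ g⁻¹ • z := fun h2 => h (by rw [h2, smul_inv_smul])
    rw [Finsupp.single_apply, Finsupp.single_apply, if_neg h1, if_neg h, smul_zero]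

theorem mk_add (φ ψ : Y →₀ M) : TM.mk (φ + ψ) = TM.mk φ + TM.mk ψ := rfl

theorem mk_sub (φ ψ : Y →₀ M) : TM.mk (φ - ψ) = TM.mk φ - TM.mk ψ := rfl

theorem mk_zero : TM.mk (0 : Y →₀ M) = 0 := rfl

theorem mk_f (x : TM Y M) : TM.mk x.f = x := rfl

theorem tot_smul_single (g : Γ) (r : R) (φ : Y →₀ M) :
    tot ((MonoidAlgebra.single g r : MonoidAlgebra R Γ) • TM.mk φ).f =
      (MonoidAlgebra.single g r : MonoidAlgebra R Γ) • tot φ := by
  induction φ using Finsupp.induction_linear with
  | zero => rw [mk_zero, smul_zero, f_zero, map_zero, smul_zero]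
  | add a b ha hb => rw [mk_add, smul_add, f_add, map_add, ha, hb, map_add, smul_add]
  | single y m => rw [smul_single, tot_single, tot_single]

theorem tot_smul (a : MonoidAlgebra R Γ) (x : TM Y M) : tot (a • x).f = a • tot x.f := by
  induction a using MonoidAlgebra.induction_linear with
  | zero => rw [zero_smul, zero_smul, f_zero, map_zero]
  | add a b ha hb => rw [add_smul, add_smul, f_add, map_add, ha, hb]
  | single g r => exact tot_smul_single g r x.f

/-- `tot` as a linear map -/
noncomputable def tl (R Γ Y M : Type) [Ring R] [Group Γ] [MulAction Γ Y] [AddCommGroup M]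
    [Module (MonoidAlgebra R Γ) M] : TM Y M →ₗ[MonoidAlgebra R Γ] M where
  toFun x := tot x.f
  map_add' x y := by rw [f_add, map_add]
  map_smul' a x := tot_smul a x

section B

variable {V : Type} [MulAction Γ V]

theorem bd_smul_single (g : Γ) (r : R) (φ : (V × V) →₀ M) :
    bd ((MonoidAlgebra.single g r : MonoidAlgebra R Γ) • TM.mk φ).f =
      ((MonoidAlgebra.single g r : MonoidAlgebra R Γ) • TM.mk (bd φ)).f := by
  induction φ using Finsupp.induction_linear with
  | zero => rw [mk_zero, smul_zero, f_zero, map_zero, mk_zero, smul_zero, f_zero]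
  | add a b ha hb =>
    rw [mk_add, smul_add, f_add, map_add, ha, hb, map_add, mk_add, smul_add, f_add]
  | single p m =>
    rw [smul_single, bd_single, bd_single, mk_sub, smul_sub, f_sub, smul_single, smul_single]
    rfl

theorem bd_smul (a : MonoidAlgebra R Γ) (x : TM (V × V) M) :
    bd (a • x).f = (a • TM.mk (bd x.f)).f := by
  induction a using MonoidAlgebra.induction_linear with
  | zero => rw [zero_smul, zero_smul, f_zero, map_zero, f_zero]
  | add a b ha hb => rw [add_smul, add_smul, f_add, map_add, ha, hb, f_add]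
  | single g r => exact bd_smul_single g r x.f

/-- `bd` as a linear map -/
noncomputable def bl (R Γ V M : Type) [Ring R] [Group Γ] [MulAction Γ V] [AddCommGroup M]
    [Module (MonoidAlgebra R Γ) M] : TM (V × V) M →ₗ[MonoidAlgebra R Γ] TM V M where
  toFun x := TM.mk (bd x.f)
  map_add' x y := by rw [f_add, map_add, mk_add]
  map_smul' a x := by
    rw [bd_smul]
    rfl

theorem bd_mem (N : Fa R Γ V M) (E : Fa R Γ (V × V) M)
    (h : ∀ p, ∀ m ∈ E.N p, m ∈ N.N p.1 ∧ m ∈ N.N p.2) (y : (V × V) →₀ M)
    (hy : ∀ p, y p ∈ E.N p) (v : V) : bd y v ∈ N.N v := by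
  classical
  have h1 : bd y v =
      ∑ p ∈ y.support, ((Finsupp.single p.2 (y p) : V →₀ M) v - (Finsupp.single p.1 (y p) : V →₀ M) v) := by
    unfold bd
    rw [Finsupp.liftAddHom_apply, Finsupp.sum, Finsupp.finset_sum_apply]
    rfl
  rw [h1]
  refine Submodule.sum_mem _ fun p _ => Submodule.sub_mem _ ?_ ?_
  · rw [Finsupp.single_apply]
    split_ifs with h2
    · rw [← h2]
      exact (h p _ (hy p)).2
    · exact Submodule.zero_mem _
  · rw [Finsupp.single_apply]
    split_ifs with h2
    · rw [← h2]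
      exact (h p _ (hy p)).1
    · exact Submodule.zero_mem _

end B

end LNRM

open LNRM in
theorem specLNR : SpecLNR := by
  refine ⟨?_, ?_⟩
  · intro R Γ Y M _ _ _ _ _ N
    exact ⟨(tl R Γ Y M).comp (W N).subtype, fun x => rfl⟩
  · intro R Γ V M _ _ _ _ _ N E h
    refine ⟨((bl R Γ V M).comp (W E).subtype).codRestrict (W N) fun x v => ?_, fun x => rfl⟩
    exact bd_mem N E h (x : TM (V × V) M).f x.2 v

end Pool.Agent.Lib.MP8a3537.CT
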