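import Pool.Agent.Lib.MP_8a3537_gt.CT.Spec

/-!
# MP_8a3537_gt, folder CT, module MVR (helper58): the Mayer-Vietoris resolution
-/

set_option autoImplicit false

namespace Pool.Agent.Lib.MP8a3537.CT

theorem specMVR (hF : SpecFRA) (hI : SpecIN2) (hL : SpecLNR) : SpecMVR := by
  intro R Γ V M _ _ _ _ _ N E hM hNF hEF D hN hE
  obtain ⟨t, ht⟩ := hL.1 R Γ V M N
  obtain ⟨d, hd⟩ := hL.2 R Γ V M N E hM.le
  have hinj : Function.Injective d := by
    rw [injective_iff_map_eq_zero]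
    intro x hx
    have h1 : bd (x : TM (V × V) M).f = 0 := by
      rw [← hd x, hx]
      rfl
    have h2 := hM.inj (x : TM (V × V) M).f (fun p => x.2 p) h1
    exact Subtype.ext h2
  have hsurj : Function.Surjective t := by
    intro m
    obtain ⟨x, hx, hm⟩ := hM.gen m
    exact ⟨⟨TM.mk x, hx⟩, (ht _).trans hm⟩
  have hk : LinearMap.ker t = LinearMap.range d := by
    ext x
    rw [LinearMap.mem_ker, LinearMap.mem_range]
    constructor
    · intro hx
      rw [ht x] at hx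
      obtain ⟨y, hy, hb⟩ := hM.ex (x : TM V M).f (fun v => x.2 v) hx
      refine ⟨⟨TM.mk y, hy⟩, ?_⟩
      apply Subtype.ext
      exact (hd ⟨TM.mk y, hy⟩).trans hb
    · rintro ⟨y, rfl⟩
      rw [ht (d y), hd y]
      exact tot_bd _
  have h1 : FR (MonoidAlgebra R Γ) (D + 1) (W N) := hI R Γ V M N hNF (D + 1) hN
  have h2 : FR (MonoidAlgebra R Γ) D (W E) := hI R Γ (V × V) M E hEF D hE
  have h3 : FR (MonoidAlgebra R Γ) D (LinearMap.range d) :=
    (hF (MonoidAlgebra R Γ) (W E) (LinearMap.range d)).1 D (LinearEquiv.ofInjective d hinj) h2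
  have h4 : FR (MonoidAlgebra R Γ) (D + 1) (W N ⧸ LinearMap.range d) :=
    (hF (MonoidAlgebra R Γ) (W N) (W N)).2.2.2.2 D (LinearMap.range d) h1 h3
  have e : (W N ⧸ LinearMap.range d) ≃ₗ[MonoidAlgebra R Γ] M :=
    (Submodule.quotEquivOfEq _ _ hk.symm).trans (t.quotKerEquivOfSurjective hsurj)
  exact (hF (MonoidAlgebra R Γ) (W N ⧸ LinearMap.range d) M).1 (D + 1) e h4

end Pool.Agent.Lib.MP8a3537.CT
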