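import Pool.Agent.Lib.MP_8a3537_gt.CT.KMV

/-!
# Module NFG (MP_8a3537_gt, folder CT): `K ∩ F_v` is finitely generated
-/

set_option autoImplicit false

namespace Pool.Agent.Lib.MP8a3537.CT

open Matrix
open Pool.Agent.Lib.MP8a3537.AUL (FC Res gsub FinRes Aus)
open Pool.Agent.Lib.MP8a3537.AUF (Coh FinResP PZL PF)

namespace NFGM

theorem bd_apply_mem {V A : Type} [AddCommGroup A] (L : AddSubgroup A) (v : V) (y : (V × V) →₀ A)
    (hy : ∀ p, (p.1 = v ∨ p.2 = v) → y p ∈ L) : (bd y) v ∈ L := by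
  classical
  have e : y = y.sum Finsupp.single := (Finsupp.sum_single y).symm
  have e1 : bd y = y.sum fun p a => bd (Finsupp.single p a) := by
    conv_lhs => rw [e]
    rw [Finsupp.sum, map_sum]
    rfl
  rw [e1, Finsupp.sum, Finsupp.finset_sum_apply]
  refine sum_mem fun p _ => ?_
  rw [bd_single, Finsupp.sub_apply, Finsupp.single_apply, Finsupp.single_apply]
  by_cases h1 : p.2 = v <;> by_cases h2 : p.1 = v
  · rw [if_pos h1, if_pos h2, sub_self]
    exact L.zero_mem
  · rw [if_pos h1, if_neg h2, sub_zero]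
    exact hy p (Or.inr h1)
  · rw [if_neg h1, if_pos h2, zero_sub]
    exact L.neg_mem (hy p (Or.inl h2))
  · rw [if_neg h1, if_neg h2, sub_zero]
    exact L.zero_mem

section Main

variable {R Γ V : Type} [Ring R] [Group Γ] [MulAction Γ V]

/-- the element `k` of the stabilizer -/
theorem single_mem_Sb {v : V} {k : Γ} (hk : k • v = v) :
    (MonoidAlgebra.single k 1 : MonoidAlgebra R Γ) ∈ Sb R (Γ := Γ) v :=
  ⟨MonoidAlgebra.single ⟨k, hk⟩ 1, by
    change MonoidAlgebra.mapDomain _ _ = _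
    rw [MonoidAlgebra.mapDomain_single]
    rfl⟩

open Classical in
/-- the generators of `G_v` -/
noncomputable def gen {n r : ℕ} (v0 : V) (κ : Fin r → Fin n → MonoidAlgebra R Γ) (v : V)
    (j : Fin r) : Submodule.span (MonoidAlgebra R Γ) (Set.range κ) :=
  if h : ∃ g : Γ, g • v0 = v then
    ⟨(MonoidAlgebra.single h.choose 1 : MonoidAlgebra R Γ) • κ j,
      Submodule.smul_mem _ _ (Submodule.subset_span ⟨j, rfl⟩)⟩ else 0

theorem gen_mem {n r : ℕ} {U : Finset V} {v0 : V} {κ : Fin r → Fin n → MonoidAlgebra R Γ}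
    (hκ : InL U v0 κ) (v : V) (j : Fin r) :
    (gen v0 κ v j : Fin n → MonoidAlgebra R Γ) ∈ (Lc R Γ (U : Set V) n).N v := by
  classical
  unfold gen
  by_cases h : ∃ g : Γ, g • v0 = v
  · rw [dif_pos h]
    have h1 := (Lc R Γ (U : Set V) n).eqv h.choose v0 (κ j) (hκ j)
    rw [h.choose_spec] at h1
    exact h1
  · rw [dif_neg h]
    exact Submodule.zero_mem _

theorem span_gen {n r : ℕ} {v0 : V} {κ : Fin r → Fin n → MonoidAlgebra R Γ} {v : V}
    {z : Fin n → MonoidAlgebra R Γ}
    (hz : z ∈ Submodule.span (Sb R (Γ := Γ) v)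
      {z | ∃ (g : Γ) (j : Fin r), g • v0 = v ∧
        z = (MonoidAlgebra.single g 1 : MonoidAlgebra R Γ) • κ j}) :
    ∃ x ∈ Submodule.span (Sb R (Γ := Γ) v) (Set.range (gen v0 κ v)),
      (x : Fin n → MonoidAlgebra R Γ) = z := by
  classical
  induction hz using Submodule.span_induction with
  | mem z h =>
    obtain ⟨g, j, hg, rfl⟩ := h
    have h : ∃ g : Γ, g • v0 = v := ⟨g, hg⟩
    have hk : (g * h.choose⁻¹) • v = v := by
      have h2 : h.choose⁻¹ • v = v0 := by
        rw [inv_smul_eq_iff]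
        exact h.choose_spec.symm
      rw [mul_smul, h2, hg]
    refine ⟨(⟨_, single_mem_Sb (R := R) hk⟩ : Sb R (Γ := Γ) v) • gen v0 κ v j,
      Submodule.smul_mem _ _ (Submodule.subset_span ⟨j, rfl⟩), ?_⟩
    change (MonoidAlgebra.single (g * h.choose⁻¹) 1 : MonoidAlgebra R Γ) •
      (gen v0 κ v j : Fin n → MonoidAlgebra R Γ) = _
    unfold gen
    rw [dif_pos h, smul_smul, MonoidAlgebra.single_mul_single, one_mul, inv_mul_cancel_right]
  | zero => exact ⟨0, Submodule.zero_mem _, rfl⟩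
  | add x y _ _ hx hy =>
    obtain ⟨x', hx', rfl⟩ := hx
    obtain ⟨y', hy', rfl⟩ := hy
    exact ⟨x' + y', Submodule.add_mem _ hx' hy', rfl⟩
  | smul a x _ hx =>
    obtain ⟨x', hx', rfl⟩ := hx
    exact ⟨a • x', Submodule.smul_mem _ a hx', rfl⟩

end Main

end NFGM

open KMVM NFGM

theorem specNFG (hC : SpecLCF) (hX : SpecLEX) (hL : SpecNFL) : SpecNFG := by
  classical
  intro R Γ V _ _ _ T O hT hact hOri hO hnoe n U hU v0 r κ hκ
  obtain ⟨hX1, hX2⟩ := hX R Γ V T O hT hact hOri n U hU
  obtain ⟨-, -, -, hC4⟩ := hC R Γ V n U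
  obtain ⟨-, hC2', hC3', -⟩ := hC R Γ (V × V) n (U ×ˢ U)
  rw [Finset.coe_product] at hC2' hC3'
  set K := Submodule.span (MonoidAlgebra R Γ) (Set.range κ) with hK
  have hfin2 : ∀ p, Module.Finite (Sb R (Γ := Γ) p)
      ((((Lc R Γ ((U : Set V) ×ˢ (U : Set V)) n).cut (fun p => O p.1 p.2) hO).res K).N p) := by
    intro p
    by_cases hp : O p.1 p.2
    · haveI := hnoe p hp
      haveI := hC3' (fun p => O p.1 p.2) hO p
      let f : ((((Lc R Γ ((U : Set V) ×ˢ (U : Set V)) n).cut (fun p => O p.1 p.2) hO).res K).N p)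
          →ₗ[Sb R (Γ := Γ) p]
          (((Lc R Γ ((U : Set V) ×ˢ (U : Set V)) n).cut (fun p => O p.1 p.2) hO).N p) :=
        { toFun := fun m => ⟨(m : K), (mem_res _ _ _ _).1 m.2⟩
          map_add' := fun a b => rfl
          map_smul' := fun a b => rfl }
      refine Module.Finite.of_injective f ?_
      intro a b hab
      apply Subtype.ext
      apply Subtype.ext
      have h1 := congrArg Subtype.val hab
      exact h1
    · haveI : Subsingleton
          ((((Lc R Γ ((U : Set V) ×ˢ (U : Set V)) n).cut (fun p => O p.1 p.2) hO).res K).N p) := by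
        refine ⟨fun a b => ?_⟩
        have ha := (mem_cut _ _ _ _ _).1 ((mem_res _ _ _ _).1 a.2)
        have hb := (mem_cut _ _ _ _ _).1 ((mem_res _ _ _ _).1 b.2)
        apply Subtype.ext
        apply Subtype.ext
        rw [ha.2 hp, hb.2 hp]
      infer_instance
  refine ⟨fun v => ?_, hfin2⟩
  have hEfin : ((((Lc R Γ ((U : Set V) ×ˢ (U : Set V)) n).cut (fun p => O p.1 p.2) hO).res
      K)).Fin := by
    obtain ⟨s, hs⟩ := hC2'
    refine ⟨s, fun y hy => hs y ?_⟩
    obtain ⟨m, hm, hm0⟩ := hy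
    rw [mem_res, mem_cut] at hm
    exact ⟨m, hm.1, fun h => hm0 (Subtype.ext h)⟩
  have hLfg := hL R Γ V K
    (((Lc R Γ ((U : Set V) ×ˢ (U : Set V)) n).cut (fun p => O p.1 p.2) hO).res K) hEfin hfin2 v
  set L := Submodule.span (Sb R (Γ := Γ) v) {m : K | ∃ p : V × V, (p.1 = v ∨ p.2 = v) ∧
    m ∈ (((Lc R Γ ((U : Set V) ×ˢ (U : Set V)) n).cut (fun p => O p.1 p.2) hO).res K).N p}
    with hLdef
  set G := Submodule.span (Sb R (Γ := Γ) v) (Set.range (gen v0 κ v)) with hG
  have hGfg : G.FG := Submodule.fg_span (Set.finite_range _)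
  have hN : (((Lc R Γ (U : Set V) n).res K).N v) = G ⊔ L := by
    apply le_antisymm
    · intro x hx
      have hx' : (x : Fin n → MonoidAlgebra R Γ) ∈ (Lc R Γ (U : Set V) n).N v :=
        (mem_res _ _ _ _).1 hx
      obtain ⟨k, hk, hkx⟩ := hX2 v0 r κ hκ x x.2
      obtain ⟨k', hk'1, hk'2⟩ := lift K k fun v => (gv_mem hκ (hk v)).1
      obtain ⟨y, hy, hyx⟩ := hX1 K (Finsupp.single v (x : Fin n → MonoidAlgebra R Γ) - k)
        (fun w => by
          rw [Finsupp.sub_apply]
          have h1 := gv_mem hκ (hk w)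
          by_cases hw : v = w
          · subst hw
            rw [Finsupp.single_eq_same]
            exact ⟨K.sub_mem x.2 h1.1, Submodule.sub_mem _ hx' h1.2⟩
          · rw [Finsupp.single_eq_of_ne' hw, zero_sub]
            exact ⟨K.neg_mem h1.1, Submodule.neg_mem _ h1.2⟩)
        (by rw [map_sub, tot_single, hkx, sub_self])
      obtain ⟨y', hy'1, hy'2⟩ := lift K y fun p => (hy p).1
      have hbd : bd y' = Finsupp.single v x - k' := by
        have h1 := bd_map K.subtype.toAddMonoidHom y'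
        rw [hy'2, hyx] at h1
        ext1 w
        apply Subtype.ext
        have h2 := DFunLike.congr_fun h1 w
        rw [Finsupp.sub_apply] at h2 ⊢
        change (((bd y') w : K) : Fin n → MonoidAlgebra R Γ) =
          (((Finsupp.single v x : V →₀ K) w : K) : Fin n → MonoidAlgebra R Γ) - (k' w : K)
        rw [hk'1]
        have h3 : (((Finsupp.single v x : V →₀ K) w : K) : Fin n → MonoidAlgebra R Γ) =
            (Finsupp.single v (x : Fin n → MonoidAlgebra R Γ) : V →₀ _) w := by
          by_cases hw : v = w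
          · subst hw
            rw [Finsupp.single_eq_same, Finsupp.single_eq_same]
          · rw [Finsupp.single_eq_of_ne' hw, Finsupp.single_eq_of_ne' hw]
            rfl
        rw [h3]
        exact h2.symm
      have hyE : ∀ p, y' p ∈
          (((Lc R Γ ((U : Set V) ×ˢ (U : Set V)) n).cut (fun p => O p.1 p.2) hO).res K).N p := by
        intro p
        rw [mem_res, mem_cut, hy'1]
        obtain ⟨-, h2, h3, h4⟩ := hy p
        exact ⟨(hC4 p _).2 ⟨h2, h3⟩, h4⟩
      have hLmem : (bd y') v ∈ L.toAddSubgroup := by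
        apply bd_apply_mem
        intro p hp
        exact Submodule.subset_span ⟨p, hp, hyE p⟩
      rw [hbd, Finsupp.sub_apply, Finsupp.single_eq_same] at hLmem
      have hGmem : k' v ∈ G := by
        obtain ⟨z, hz, hz'⟩ := span_gen (hk v)
        have h1 : k' v = z := Subtype.ext (by rw [hk'1, hz'])
        rw [h1]
        exact hz
      have h5 : x = k' v + (x - k' v) := by abel
      rw [h5]
      exact Submodule.add_mem_sup hGmem hLmem
    · refine sup_le ?_ ?_
      · rw [hG, Submodule.span_le]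
        rintro _ ⟨j, rfl⟩
        exact (mem_res _ _ _ _).2 (gen_mem hκ v j)
      · rw [hLdef, Submodule.span_le]
        rintro m ⟨p, hp, hm⟩
        rw [mem_res, mem_cut] at hm
        have h1 := (hC4 p _).1 hm.1
        rcases hp with rfl | rfl
        · exact (mem_res _ _ _ _).2 h1.1
        · exact (mem_res _ _ _ _).2 h1.2
  rw [Module.Finite.iff_fg, hN]
  exact hGfg.sup hLfg

end Pool.Agent.Lib.MP8a3537.CT
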