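import Pool.Agent.Lib.MP_8a3537_gt.CT.Spec

/-!
# Group rings of groups acting on trees (MP_8a3537_gt, folder CT): module NFL (helper45)

The part of the edges at `v` is finitely generated.
-/

set_option autoImplicit false

namespace Pool.Agent.Lib.MP8a3537.CT

open Pool.Agent.Lib.MP8a3537.AUL (gsub)

namespace NFLM

section Sub

variable {S M : Type} [Ring S] [AddCommGroup M] [Module S M]

theorem span_ring {A B : Subring S} (h : A ≤ B) (G : Set M) {x : M}
    (hx : x ∈ Submodule.span A G) : x ∈ Submodule.span B G := by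
  induction hx using Submodule.span_induction with
  | mem x hx => exact Submodule.subset_span hx
  | zero => exact zero_mem _
  | add x y _ _ hx hy => exact add_mem hx hy
  | smul a x _ hx => exact Submodule.smul_mem _ (⟨(a : S), h a.2⟩ : B) hx

theorem fg_span {A B : Subring S} (h : A ≤ B) {N : Submodule A M} (hN : N.FG) :
    (Submodule.span B (N : Set M)).FG := by
  obtain ⟨G, rfl⟩ := hN
  exact ⟨G, le_antisymm (Submodule.span_mono Submodule.subset_span)
    (Submodule.span_le.2 fun x hx => span_ring h _ hx)⟩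

end Sub

section Grp

variable {R Γ : Type} [Ring R] [Group Γ]

theorem single_mem_gsub (H : Subgroup Γ) {g : Γ} (hg : g ∈ H) (r : R) :
    (MonoidAlgebra.single g r : MonoidAlgebra R Γ) ∈ gsub R H :=
  ⟨MonoidAlgebra.single ⟨g, hg⟩ r, by
    change MonoidAlgebra.mapDomain _ _ = _
    rw [MonoidAlgebra.mapDomain_single]
    rfl⟩

theorem gsub_mono {H K : Subgroup Γ} (h : H ≤ K) : gsub R H ≤ gsub R K := by
  rintro _ ⟨c, rfl⟩
  induction c using MonoidAlgebra.induction_linear with
  | zero =>
    rw [map_zero]
    exact zero_mem _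
  | add a b ha hb =>
    rw [map_add]
    exact add_mem ha hb
  | single k r =>
    have h2 : UV.emb R H (MonoidAlgebra.single k r) = MonoidAlgebra.single (k : Γ) r := by
      change MonoidAlgebra.mapDomain _ _ = _
      rw [MonoidAlgebra.mapDomain_single]
      rfl
    rw [h2]
    exact single_mem_gsub K (h k.2) r

end Grp

/-- The ends of a pair. -/
def ed {V : Type} : Bool → V × V → V
  | false, p => p.1
  | true, p => p.2

theorem ed_smul {Γ V : Type} [Group Γ] [MulAction Γ V] (i : Bool) (g : Γ) (p : V × V) :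
    ed i (g • p) = g • ed i p := by
  cases i <;> rfl

theorem ed_or {V : Type} (i : Bool) (p : V × V) (v : V) (h : ed i p = v) : p.1 = v ∨ p.2 = v := by
  cases i
  · exact Or.inl h
  · exact Or.inr h

theorem stab_le {Γ V : Type} [Group Γ] [MulAction Γ V] (i : Bool) (p : V × V) (v : V)
    (h : ed i p = v) : MulAction.stabilizer Γ p ≤ MulAction.stabilizer Γ v := by
  intro g hg
  rw [MulAction.mem_stabilizer_iff] at hg ⊢
  rw [← h, ← ed_smul, hg]

end NFLM

open NFLM

/-- **NFL**: the part of the edges at `v` is finitely generated. -/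
theorem specNFL : SpecNFL := by
  intro R Γ V M _ _ _ _ _ E hfin hE v
  classical
  obtain ⟨s, hs⟩ := hfin
  -- the translate of `q` whose end `i` is `v`
  let A : (V × V) × Bool → Submodule (Sb R (Γ := Γ) v) M := fun q =>
    if h : ∃ g : Γ, g • ed q.2 q.1 = v then
      Submodule.span (Sb R (Γ := Γ) v) (E.N (h.choose • q.1) : Set M)
    else ⊥
  have hA : ∀ q, (A q).FG := by
    intro q
    by_cases h : ∃ g : Γ, g • ed q.2 q.1 = v
    · have e : A q = Submodule.span (Sb R (Γ := Γ) v) (E.N (h.choose • q.1) : Set M) := dif_pos h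
      rw [e]
      refine fg_span (gsub_mono (stab_le q.2 _ _ ?_)) (Module.Finite.iff_fg.1 (hE _))
      rw [ed_smul]
      exact h.choose_spec
    · have e : A q = ⊥ := dif_neg h
      rw [e]
      exact Submodule.fg_bot
  have key : Submodule.span (Sb R (Γ := Γ) v)
      {m : M | ∃ p : V × V, (p.1 = v ∨ p.2 = v) ∧ m ∈ E.N p} =
      ⨆ q ∈ s ×ˢ (Finset.univ : Finset Bool), A q := by
    apply le_antisymm
    · refine Submodule.span_le.2 ?_
      rintro m ⟨p, hp, hm⟩
      by_cases hm0 : m = 0
      · rw [hm0]
        exact zero_mem _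
      obtain ⟨g, q, hq, rfl⟩ := hs p ⟨m, hm, hm0⟩
      obtain ⟨i, hi⟩ : ∃ i : Bool, ed i (g • q) = v := by
        rcases hp with h | h
        · exact ⟨false, h⟩
        · exact ⟨true, h⟩
      have hgi : g • ed i q = v := by rw [← ed_smul]; exact hi
      have hex : ∃ g : Γ, g • ed i q = v := ⟨g, hgi⟩
      have e : A (q, i) = Submodule.span (Sb R (Γ := Γ) v) (E.N (hex.choose • q) : Set M) :=
        dif_pos hex
      have hc : hex.choose • ed i q = v := hex.choose_spec
      generalize hex.choose = g0 at e hc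
      have h1 : (MonoidAlgebra.single (g0 * g⁻¹) 1 : MonoidAlgebra R Γ) • m ∈ E.N (g0 • q) := by
        have := E.eqv (g0 * g⁻¹) (g • q) m hm
        rwa [mul_smul, inv_smul_smul] at this
      have h2 : (MonoidAlgebra.single (g0 * g⁻¹) 1 : MonoidAlgebra R Γ) • m ∈ A (q, i) := by
        rw [e]
        exact Submodule.subset_span h1
      have h3 : g * g0⁻¹ ∈ MulAction.stabilizer Γ v := by
        rw [MulAction.mem_stabilizer_iff, mul_smul]
        have : g0⁻¹ • v = ed i q := by rw [← hc, inv_smul_smul]
        rw [this, hgi]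
      have h4 : (MonoidAlgebra.single (g * g0⁻¹) 1 : MonoidAlgebra R Γ) •
          ((MonoidAlgebra.single (g0 * g⁻¹) 1 : MonoidAlgebra R Γ) • m) = m := by
        rw [smul_smul, MonoidAlgebra.single_mul_single]
        have : g * g0⁻¹ * (g0 * g⁻¹) = 1 := by group
        rw [this, one_mul, ← MonoidAlgebra.one_def, one_smul]
      have h5 : m ∈ A (q, i) := by
        rw [← h4]
        exact Submodule.smul_mem _
          (⟨MonoidAlgebra.single (g * g0⁻¹) 1, single_mem_gsub _ h3 1⟩ : Sb R (Γ := Γ) v) h2
      exact Submodule.mem_iSup_of_mem (q, i) (Submodule.mem_iSup_of_mem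
        (Finset.mem_product.2 ⟨hq, Finset.mem_univ i⟩) h5)
    · refine iSup₂_le fun q _ => ?_
      by_cases h : ∃ g : Γ, g • ed q.2 q.1 = v
      · have e : A q = Submodule.span (Sb R (Γ := Γ) v) (E.N (h.choose • q.1) : Set M) := dif_pos h
        rw [e]
        refine Submodule.span_mono fun m hm => ?_
        have hc : ed q.2 (h.choose • q.1) = v := by
          rw [ed_smul]
          exact h.choose_spec
        exact ⟨h.choose • q.1, ed_or q.2 _ v hc, hm⟩
      · have e : A q = ⊥ := dif_neg h
        rw [e]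
        exact bot_le
  rw [key]
  exact Submodule.fg_biSup _ _ fun q _ => hA q

end Pool.Agent.Lib.MP8a3537.CT
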