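import Pool.Agent.Lib.MP_8a3537_gt.CT.Spec
import Pool.Agent.Lib.MP_8a3537_gt.AUL.Main

/-!
# Group rings of groups acting on trees (MP_8a3537_gt, folder CT), module PZR: poly-infinite-cyclic groups
-/

set_option autoImplicit false

namespace Pool.Agent.Lib.MP8a3537.CT

open Matrix
open Pool.Agent.Lib.MP8a3537.AUL (FC Res gsub FinRes Aus)
open Pool.Agent.Lib.MP8a3537.AUF (Coh FinResP PZL PF)

namespace PZRM

theorem finRes_mono {A : Type} [Ring A] {d d' : ℕ} (h : FinRes A d) (hd : d ≤ d') :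
    FinRes A d' := by
  intro N _ _ hN
  obtain ⟨C, hC, hdeg⟩ := h N hN
  refine ⟨C, hC, fun i => ?_⟩
  have h1 := hdeg i
  have h2 : (d : ℤ) ≤ (d' : ℤ) := by exact_mod_cast hd
  omega

end PZRM

theorem specPZR (hTRB : SpecTRB) : SpecPZR := by
  intro R H _ _ _ d0 n hR h0 hH
  induction hH with
  | one n H hs =>
    have h1 := hTRB.1 R (MonoidAlgebra R H) (RingEquiv.ofBijective _ (AUL.POLM.bij R H))
    exact ⟨h1.2.2 hR, PZRM.finRes_mono (h1.2.1 d0 h0) (Nat.le_add_right d0 n)⟩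
  | step n H N t hN hext ih =>
    obtain ⟨hss, ⟨L⟩, -, -⟩ := AUL.specGRP R H N t hext
    obtain ⟨σ⟩ := hTRB.2 R H N
    have h1 := hTRB.1 (MonoidAlgebra R N) (gsub R N) σ
    have hn : IsNoetherianRing (gsub R N) := h1.2.2 ih.1
    have hf : FinRes (gsub R N) (d0 + n) := h1.2.1 _ ih.2
    have hS : IsNoetherianRing (MonoidAlgebra R H) := AUL.specNOE _ (gsub R N) L hn
    exact ⟨hS, AUL.mFNS _ (gsub R N) L (d0 + n) hn hS hf⟩

end Pool.Agent.Lib.MP8a3537.CT
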