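import Pool.Agent.Lib.MP_8a3537_gt.CT.Spec
import Pool.Agent.Lib.MP_8a3537_gt.AUF.Main

/-! # CT, module RCB: the bridge to (RC) -/

set_option autoImplicit false

namespace Pool.Agent.Lib.MP8a3537.CT

theorem specRCB : SpecRCB := by
  intro A _ _ D hA
  refine ⟨?_, ?_, ?_⟩
  · exact AUF.specBRC A hA.1
  · exact AUF.specBRR AUL.specBRL A D hA.2
  · exact AUF.specBRJ AUL.mIND AUF.mRFP A D hA.2

end Pool.Agent.Lib.MP8a3537.CT
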