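import Pool.Agent.Lib.MP_8a3537_gt.CT.Spec

/-!
# MP_8a3537_gt, folder CT, module RCM (helper9): the theorem of the folder
-/

set_option autoImplicit false

namespace Pool.Agent.Lib.MP8a3537.CT

open Pool.Agent.Lib.MP8a3537.AUL (FinRes)

theorem specRCM (hTZC : SpecTZC) (hRCB : SpecRCB) : SpecRCM := by
  intro R K _ _ _ d h hR hF hK
  exact hRCB _ _ (hTZC R K d h hR hF hK)

end Pool.Agent.Lib.MP8a3537.CT
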