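import Pool.Agent.Lib.MP_8a3537_gt.CT.Spec
import Pool.Agent.Lib.MP_8a3537_gt.AUL.SEM

/-! # CT, module TRB: transport along isomorphisms of rings -/

set_option autoImplicit false

namespace Pool.Agent.Lib.MP8a3537.CT

open Matrix
open Pool.Agent.Lib.MP8a3537.AUL (FC Res gsub FinRes Aus)
open Pool.Agent.Lib.MP8a3537.AUF (Coh FinResP PZL PF)

namespace TRBM

variable {A B : Type} [Ring A] [Ring B]

theorem fg_map (σ : A ≃+* B) {X Y : Type} [AddCommGroup X] [Module A X] [AddCommGroup Y]
    [Module B Y] (f : X ≃+ Y) (hf : ∀ (a : A) (x : X), f (a • x) = σ a • f x)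
    (N : Submodule A X) (N' : Submodule B Y) (hN : ∀ x, f x ∈ N' ↔ x ∈ N) (h : N.FG) : N'.FG := by
  classical
  obtain ⟨s, hs⟩ := h
  refine ⟨s.image f, le_antisymm ?_ ?_⟩
  · rw [Submodule.span_le]
    intro y hy
    rw [Finset.coe_image] at hy
    obtain ⟨x, hx, rfl⟩ := hy
    refine (hN x).2 ?_
    rw [← hs]
    exact Submodule.subset_span hx
  · intro y hy
    obtain ⟨x, rfl⟩ := f.surjective y
    have hx : x ∈ Submodule.span A (s : Set X) := by
      rw [hs]
      exact (hN x).1 hy
    clear hy
    induction hx using Submodule.span_induction with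
    | mem x hx =>
      refine Submodule.subset_span ?_
      rw [Finset.coe_image]
      exact ⟨x, hx, rfl⟩
    | zero =>
      rw [map_zero]
      exact Submodule.zero_mem _
    | add x y _ _ hx hy =>
      rw [map_add]
      exact Submodule.add_mem _ hx hy
    | smul a x _ hx =>
      rw [hf]
      exact Submodule.smul_mem _ _ hx

/-- Rows correspond by `σ`. -/
def rowE (σ : A ≃+* B) (n : ℕ) : (Fin n → A) ≃+ (Fin n → B) where
  toFun x := fun i => σ (x i)
  invFun y := fun i => σ.symm (y i)
  left_inv x := funext fun i => σ.symm_apply_apply (x i)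
  right_inv y := funext fun i => σ.apply_symm_apply (y i)
  map_add' x y := funext fun i => map_add σ (x i) (y i)

theorem rowE_smul (σ : A ≃+* B) (n : ℕ) (a : A) (x : Fin n → A) :
    rowE σ n (a • x) = σ a • rowE σ n x := funext fun i => map_mul σ a (x i)

theorem fp_map (σ : A ≃+* B) {X Y : Type} [AddCommGroup X] [Module A X] [AddCommGroup Y]
    [Module B Y] (f : X ≃+ Y) (hf : ∀ (a : A) (x : X), f (a • x) = σ a • f x)
    (h : Module.FinitePresentation A X) : Module.FinitePresentation B Y := by
  obtain ⟨n, K, e, hK⟩ := Module.FinitePresentation.exists_fin A X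
  let g : (Fin n → B) →ₗ[B] Y :=
    { toFun := fun y => f (e.symm (K.mkQ ((rowE σ n).symm y)))
      map_add' := fun y z => by rw [map_add, map_add, map_add, map_add]
      map_smul' := fun b y => by
        have h1 : (rowE σ n).symm (b • y) = σ.symm b • (rowE σ n).symm y := by
          apply (rowE σ n).injective
          rw [AddEquiv.apply_symm_apply, rowE_smul, AddEquiv.apply_symm_apply,
            RingEquiv.apply_symm_apply]
        rw [h1, map_smul, map_smul, hf, RingEquiv.apply_symm_apply, RingHom.id_apply] }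
  refine Module.finitePresentation_of_surjective g ?_ ?_
  · intro z
    obtain ⟨x, hx⟩ := K.mkQ_surjective (e (f.symm z))
    refine ⟨rowE σ n x, ?_⟩
    change f (e.symm (K.mkQ ((rowE σ n).symm (rowE σ n x)))) = z
    rw [AddEquiv.symm_apply_apply, hx, LinearEquiv.symm_apply_apply, AddEquiv.apply_symm_apply]
  · refine fg_map σ (rowE σ n) (rowE_smul σ n) K _ ?_ hK
    intro x
    rw [LinearMap.mem_ker]
    change f (e.symm (K.mkQ ((rowE σ n).symm (rowE σ n x)))) = 0 ↔ _
    rw [AddEquiv.symm_apply_apply, map_eq_zero_iff f f.injective,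
      map_eq_zero_iff e.symm e.symm.injective, Submodule.mkQ_apply, Submodule.Quotient.mk_eq_zero]

theorem coh_map (σ : A ≃+* B) (h : Coh A) : Coh B := by
  intro n N hN
  let N0 : Submodule A (Fin n → A) :=
    { carrier := {x | rowE σ n x ∈ N}
      add_mem' := fun {x y} hx hy => by
        change rowE σ n (x + y) ∈ N
        rw [map_add]
        exact N.add_mem hx hy
      zero_mem' := by
        change rowE σ n 0 ∈ N
        rw [map_zero]
        exact N.zero_mem
      smul_mem' := fun a x hx => by
        change rowE σ n (a • x) ∈ N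
        rw [rowE_smul]
        exact N.smul_mem _ hx }
  have h1 : N0.FG := by
    refine fg_map σ.symm (rowE σ n).symm ?_ N N0 ?_ hN
    · intro b y
      apply (rowE σ n).injective
      rw [AddEquiv.apply_symm_apply, rowE_smul, AddEquiv.apply_symm_apply,
        RingEquiv.apply_symm_apply]
    · intro y
      change rowE σ n ((rowE σ n).symm y) ∈ N ↔ _
      rw [AddEquiv.apply_symm_apply]
  let g : N0 ≃+ N :=
    { toFun := fun x => ⟨rowE σ n x.1, x.2⟩
      invFun := fun y => ⟨(rowE σ n).symm y.1, by
        change rowE σ n ((rowE σ n).symm y.1) ∈ N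
        rw [AddEquiv.apply_symm_apply]
        exact y.2⟩
      left_inv := fun x => Subtype.ext ((rowE σ n).symm_apply_apply x.1)
      right_inv := fun y => Subtype.ext ((rowE σ n).apply_symm_apply y.1)
      map_add' := fun x y => Subtype.ext (map_add (rowE σ n) x.1 y.1) }
  exact fp_map σ g (fun a x => Subtype.ext (rowE_smul σ n a x.1)) (h n N0 h1)

theorem finResP_map (σ : A ≃+* B) (D : ℕ) (h : FinResP A D) : FinResP B D := by
  intro N _ _ hN
  let _ : Module A N := Module.compHom N (σ : A →+* B)
  have h1 : Module.FinitePresentation A N := by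
    refine fp_map σ.symm (AddEquiv.refl N) ?_ hN
    intro b x
    change b • x = σ (σ.symm b) • x
    rw [RingEquiv.apply_symm_apply]
  obtain ⟨C, ⟨r⟩, hC⟩ := h N h1
  exact ⟨C.map (σ : A →+* B), ⟨AUL.SEMM.resMap σ (AddEquiv.refl N) (fun _ _ => rfl) C r⟩, hC⟩

theorem finRes_map (σ : A ≃+* B) (D : ℕ) (h : FinRes A D) : FinRes B D := by
  intro N _ _ hN
  let _ : Module A N := Module.compHom N (σ : A →+* B)
  have h1 : Module.Finite A N := by
    refine ⟨fg_map σ.symm (AddEquiv.refl N) ?_ ⊤ ⊤ ?_ hN.fg_top⟩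
    · intro b x
      change b • x = σ (σ.symm b) • x
      rw [RingEquiv.apply_symm_apply]
    · intro x
      exact ⟨fun _ => trivial, fun _ => trivial⟩
  obtain ⟨C, ⟨r⟩, hC⟩ := h N h1
  exact ⟨C.map (σ : A →+* B), ⟨AUL.SEMM.resMap σ (AddEquiv.refl N) (fun _ _ => rfl) C r⟩, hC⟩

end TRBM

theorem specTRB : SpecTRB := by
  refine ⟨fun A B _ _ σ => ⟨fun D h => ⟨TRBM.coh_map σ h.1, TRBM.finResP_map σ D h.2⟩,
    fun D h => TRBM.finRes_map σ D h, fun h => isNoetherianRing_of_ringEquiv A σ⟩, ?_⟩
  intro R Γ _ _ H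
  refine ⟨RingEquiv.ofBijective (UV.emb R H).rangeRestrict ⟨?_, ?_⟩⟩
  · intro x y hxy
    have h := congrArg Subtype.val hxy
    change MonoidAlgebra.mapDomain _ x = MonoidAlgebra.mapDomain _ y at h
    exact MonoidAlgebra.mapDomain_injective Subtype.val_injective h
  · exact (UV.emb R H).rangeRestrict_surjective

end Pool.Agent.Lib.MP8a3537.CT
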