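import Pool.Agent.Lib.MP_8a3537_gt.CT.Spec

/-!
# CT, module TTG (helper26): the tree theorem
-/

set_option autoImplicit false

namespace Pool.Agent.Lib.MP8a3537.CT

open Pool.Agent.Lib.MP8a3537.AUL (FC Res gsub FinRes Aus)
open Pool.Agent.Lib.MP8a3537.AUF (Coh FinResP PZL PF)

/-- **Module TTG**. -/
theorem specTTG (hCOT : SpecCOT) (hFNT : SpecFNT) (hTRB : SpecTRB) : SpecTTG := by
  intro R Γ V _ _ _ T hT hadj hinv D hv he
  have h1 : ∀ v : V, Rg (Sb R (Γ := Γ) v) (D + 1) := by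
    intro v
    obtain ⟨e⟩ := hTRB.2 R Γ (MulAction.stabilizer Γ v)
    exact (hTRB.1 _ _ e).1 _ (hv v)
  have h2 : ∀ v w : V, T.Adj v w → IsNoetherianRing (Sb R (Γ := Γ) (v, w)) ∧
      FinRes (Sb R (Γ := Γ) (v, w)) D := by
    intro v w hvw
    have h3 : MulAction.stabilizer Γ (v, w) =
        MulAction.stabilizer Γ v ⊓ MulAction.stabilizer Γ w := by
      ext g
      rw [Subgroup.mem_inf, MulAction.mem_stabilizer_iff, MulAction.mem_stabilizer_iff,
        MulAction.mem_stabilizer_iff, Prod.smul_mk, Prod.mk.injEq]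
    obtain ⟨e⟩ := hTRB.2 R Γ (MulAction.stabilizer Γ (v, w))
    have h4 := he v w hvw
    rw [← h3] at h4
    exact ⟨(hTRB.1 _ _ e).2.2 h4.1, (hTRB.1 _ _ e).2.1 D h4.2⟩
  exact ⟨hCOT R Γ V T hT hadj hinv D h1 h2, hFNT R Γ V T hT hadj hinv D h1 h2⟩

end Pool.Agent.Lib.MP8a3537.CT
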