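import Pool.Agent.Lib.MP_8a3537_gt.CT.Spec
import Pool.Agent.Lib.MP_8a3537_gt.AUF.Main

/-!
# CT, module TZC (helper26): Waldhausen's class of groups
-/

set_option autoImplicit false

namespace Pool.Agent.Lib.MP8a3537.CT

open Pool.Agent.Lib.MP8a3537.AUL (FC Res gsub FinRes Aus)
open Pool.Agent.Lib.MP8a3537.AUF (Coh FinResP PZL PF)

namespace TZCM

/-- Group rings of finitely generated (poly-infinite-cyclic)-by-free groups. -/
theorem rg_of_PF (hTRB : SpecTRB) (hPZR : SpecPZR) (R K : Type) [Ring R] [StarRing R] [Group K]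
    (d h : ℕ) (hR : IsNoetherianRing R) (hRd : FinRes R d) (hK : Group.FG K) (hPF : PF h K) :
    Rg (MonoidAlgebra R K) (d + h + 1) := by
  classical
  obtain ⟨N, hN, hPZ, hfree⟩ := hPF
  obtain ⟨X, hX, ψ, hψ⟩ := AUF.specFGX K N hK hfree
  obtain ⟨T, _⟩ := AUF.specFRL X
  obtain ⟨hss, ⟨L⟩, -⟩ := AUF.specGRPF R K (FreeGroup X) X T N ψ hψ
  have h2 := hPZR R N d h hR hRd hPZ
  obtain ⟨e⟩ := hTRB.2 R K N
  have h3 : IsNoetherianRing (gsub R N) := (hTRB.1 _ _ e).2.2 h2.1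
  have h4 : FinRes (gsub R N) (d + h) := (hTRB.1 _ _ e).2.1 _ h2.2
  have _ : Fintype X := Fintype.ofFinite X
  exact ⟨AUF.mCOH (MonoidAlgebra R K) (gsub R N) (FreeGroup X) X T L (d + h) h3 h4,
    AUF.mFNF (MonoidAlgebra R K) (gsub R N) (FreeGroup X) X T L (d + h) h3 h4⟩

end TZCM

open TZCM in
/-- **Module TZC**. -/
theorem specTZC (hTRB : SpecTRB) (hPZR : SpecPZR) (hTTG : SpecTTG) (hFGU : SpecFGU) :
    SpecTZC := by
  intro R K _ _ _ d h hR hRd hK
  induction hK with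
  | base K hF =>
    refine hFGU R K (d + h + 1) fun F hFG => ?_
    exact rg_of_PF hTRB hPZR R F d h hR hRd ((Group.fg_iff_subgroup_fg F).2 hFG) (hF F hFG)
  | tree K V T hT hadj hinv hv he ih =>
    refine hTTG R K V T hT hadj hinv (d + h) ih fun v w hvw => ?_
    exact hPZR R _ d h hR hRd (he v w hvw)

end Pool.Agent.Lib.MP8a3537.CT
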