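import Pool.Agent.Lib.MP_8a3537_gt.CT.FRA
import Pool.Agent.Lib.MP_8a3537_gt.CT.COS
import Pool.Agent.Lib.MP_8a3537_gt.CT.LNR
import Pool.Agent.Lib.MP_8a3537_gt.CT.IN1
import Pool.Agent.Lib.MP_8a3537_gt.CT.IN2
import Pool.Agent.Lib.MP_8a3537_gt.CT.MVR
import Pool.Agent.Lib.MP_8a3537_gt.CT.LCF
import Pool.Agent.Lib.MP_8a3537_gt.CT.LEX
import Pool.Agent.Lib.MP_8a3537_gt.CT.NFL
import Pool.Agent.Lib.MP_8a3537_gt.CT.NFG
import Pool.Agent.Lib.MP_8a3537_gt.CT.KMV
import Pool.Agent.Lib.MP_8a3537_gt.CT.QMV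
import Pool.Agent.Lib.MP_8a3537_gt.CT.COT
import Pool.Agent.Lib.MP_8a3537_gt.CT.FNT
import Pool.Agent.Lib.MP_8a3537_gt.CT.TRB
import Pool.Agent.Lib.MP_8a3537_gt.CT.TTG
import Pool.Agent.Lib.MP_8a3537_gt.CT.FGA
import Pool.Agent.Lib.MP_8a3537_gt.CT.FGU
import Pool.Agent.Lib.MP_8a3537_gt.CT.PZR
import Pool.Agent.Lib.MP_8a3537_gt.CT.TZC
import Pool.Agent.Lib.MP_8a3537_gt.CT.RCB
import Pool.Agent.Lib.MP_8a3537_gt.CT.RCM

/-!
# Group rings of groups acting on trees are regular coherent (MP_8a3537_gt, folder CT)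

`rcm`: if `R` is noetherian and its finitely generated modules have free resolutions of length at
most `d`, and `K` is in the class `TZ h` (`CT/Defs.lean`), then `R[K]` is regular coherent of
dimension at most `d + h + 1`.
-/

set_option autoImplicit false

namespace Pool.Agent.Lib.MP8a3537.CT

theorem mIN1 : SpecIN1 := specIN1 specCOS

theorem mIN2 : SpecIN2 := specIN2 specFRA mIN1

theorem mMVR : SpecMVR := specMVR specFRA mIN2 specLNR

theorem mNFG : SpecNFG := specNFG specLCF specLEX specNFL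

theorem mKMV : SpecKMV := specKMV specLCF specLEX

theorem mQMV : SpecQMV := specQMV specLCF specLEX

theorem mCOT : SpecCOT := specCOT mMVR specLCF mNFG mKMV

theorem mFNT : SpecFNT := specFNT mMVR specLCF mNFG mQMV

/-- **The tree theorem**: the group ring of a group acting on a tree with regular coherent vertex
rings and regular noetherian edge rings is regular coherent. -/
theorem mTTG : SpecTTG := specTTG mCOT mFNT specTRB

theorem mFGA : SpecFGA := specFGA specCOS

theorem mFGU : SpecFGU := specFGU specFRA specLNR mIN1 specLCF specTRB mFGA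

theorem mPZR : SpecPZR := specPZR specTRB

theorem mTZC : SpecTZC := specTZC specTRB mPZR mTTG mFGU

/-- **Waldhausen's class of groups and regular coherence.** -/
theorem rcm : SpecRCM := specRCM mTZC specRCB

end Pool.Agent.Lib.MP8a3537.CT
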