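import Pool.Agent.Lib.MP_8a3537_gt.ROK.FPT

/-!
# Trees (MP_8a3537_gt, folder CT, helper23): orientations, finite subtrees, the boundary map

`T` is a tree with vertex set `V`; `Br T x y` (UV/TRE) is the set of the vertices nearer to `y` than to `x`
(the side of `y` of the edge `(x, y)`).

* `Ori T O` : `O` orients the edges; `exists_ori`: if `G` acts without inversions there is an
  invariant orientation.
* `bd : ((V × V) →₀ A) →+ (V →₀ A)` : the boundary, `(v, w) ↦ w - v`; `ss T v w : (V →₀ A) →+ A` : the sum of
  the coefficients on the side of `w` of the edge `(v, w)`; `tot` : the sum of all coefficients.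
  `ss_bd`: `ss T v w (bd y) = y (v, w)` for `y` supported on `O` (so `bd` is injective on these `y`);
  `exists_bd`: every `x` with `tot x = 0` is `bd y` for such a `y`.
* `Cx T U` : `U` is connected, in the form: an edge with not both ends in `U` has `U` on one side;
  `exists_cx`: finite sets are contained in finite `Cx` sets; `Cx.smul`: translates.
* `ends_mem`: coefficients of side sums.
-/

set_option autoImplicit false

namespace Pool.Agent.Lib.MP8a3537.CT

open UV.TREAux ROK.FPTAux

variable {V : Type} {T : SimpleGraph V}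

/-! ### Orientations -/

/-- `O` is an orientation of the edges of `T`. -/
structure Ori (T : SimpleGraph V) (O : V → V → Prop) : Prop where
  adj : ∀ x y, O x y → T.Adj x y
  or : ∀ x y, T.Adj x y → O x y ∨ O y x
  not : ∀ x y, O x y → ¬ O y x

/-- **ORI** -/
theorem exists_ori {G : Type} [Group G] [MulAction G V]
    (hact : ∀ (g : G) (x y : V), T.Adj x y → T.Adj (g • x) (g • y))
    (hinv : ∀ (g : G) (x y : V), T.Adj x y → ¬ (g • x = y ∧ g • y = x)) :
    ∃ O : V → V → Prop, Ori T O ∧ ∀ (g : G) (x y : V), O x y → O (g • x) (g • y) := by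
  classical
  let Q := MulAction.orbitRel.Quotient G (V × V)
  let q : V × V → Q := fun p => Quotient.mk'' p
  let r : Q → Q → Prop := WellOrderingRel
  have hq : ∀ (g : G) (p : V × V), q (g • p) = q p := fun g p =>
    Quotient.sound' ⟨g, rfl⟩
  refine ⟨fun x y => T.Adj x y ∧ r (q (x, y)) (q (y, x)), ⟨fun x y h => h.1, fun x y h => ?_,
    fun x y h h' => ?_⟩, fun g x y h => ⟨hact g x y h.1, ?_⟩⟩
  · rcases trichotomous_of r (q (x, y)) (q (y, x)) with h1 | h1 | h1
    · exact Or.inl ⟨h, h1⟩
    · exfalso
      obtain ⟨g, hg⟩ := Quotient.exact' h1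
      have h2 : g • y = x := congrArg Prod.fst hg
      have h3 : g • x = y := congrArg Prod.snd hg
      exact hinv g x y h ⟨h3, h2⟩
    · exact Or.inr ⟨h.symm, h1⟩
  · exact asymm_of r h.2 h'.2
  · have h1 := hq g (x, y)
    have h2 := hq g (y, x)
    show r (q (g • x, g • y)) (q (g • y, g • x))
    rw [show q (g • x, g • y) = q (x, y) from h1, show q (g • y, g • x) = q (y, x) from h2]
    exact h.2

/-! ### Sides -/

theorem br_disj {x y u : V} (h : u ∈ Br T x y) : u ∉ Br T y x := by
  intro h'
  rw [mem_Br] at h h'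
  omega

/-- Two adjacent vertices on different sides of an edge are its ends. -/
theorem edge_eq (hT : T.IsTree) {v w a b : V} (h : T.Adj v w) (hab : T.Adj a b)
    (ha : a ∈ Br T w v) (hb : b ∈ Br T v w) : a = v ∧ b = w := by
  have h1 := across hT h hb (T.dist v a) a rfl ha
  have h2 := across hT h.symm ha (T.dist w b) b rfl hb
  have e1 : T.dist a b = 1 := SimpleGraph.dist_eq_one_iff_adj.mpr hab
  have e2 : T.dist b a = 1 := by rw [SimpleGraph.dist_comm]; exact e1
  have hb' := hb
  have ha' := ha
  rw [mem_Br] at ha hb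
  have h3 : T.dist b v ≠ 0 := by
    intro h0
    rw [h0] at hb
    omega
  have h4 : T.dist a w ≠ 0 := by
    intro h0
    rw [h0] at ha
    omega
  have h5 : T.dist v a = 0 := by omega
  have h6 : T.dist w b = 0 := by omega
  exact ⟨((zero_iff hT _ _).1 h5).symm, ((zero_iff hT _ _).1 h6).symm⟩

/-! ### Chains -/

section Chains

variable {A B : Type*} [AddCommGroup A] [AddCommGroup B]

/-- The boundary `(v, w) ↦ w - v`. -/
noncomputable def bd : ((V × V) →₀ A) →+ (V →₀ A) :=
  Finsupp.liftAddHom fun p => Finsupp.singleAddHom p.2 - Finsupp.singleAddHom p.1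

theorem bd_single (p : V × V) (a : A) :
    bd (Finsupp.single p a) = Finsupp.single p.2 a - Finsupp.single p.1 a := by
  unfold bd
  rw [Finsupp.liftAddHom_apply_single]
  rfl

/-- The sum of all coefficients. -/
noncomputable def tot : (V →₀ A) →+ A := Finsupp.liftAddHom fun _ => AddMonoidHom.id A

theorem tot_single (u : V) (a : A) : tot (Finsupp.single u a) = a := by
  unfold tot
  rw [Finsupp.liftAddHom_apply_single]
  rfl

open Classical in
/-- The sum of the coefficients on the side of `w` of the edge `(v, w)`. -/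
noncomputable def ss (T : SimpleGraph V) (v w : V) : (V →₀ A) →+ A :=
  Finsupp.liftAddHom fun u => if u ∈ Br T v w then AddMonoidHom.id A else 0

theorem ss_single_mem {v w u : V} (h : u ∈ Br T v w) (a : A) :
    ss T v w (Finsupp.single u a) = a := by
  unfold ss
  rw [Finsupp.liftAddHom_apply_single, if_pos h]
  rfl

theorem ss_single_not {v w u : V} (h : u ∉ Br T v w) (a : A) :
    ss T v w (Finsupp.single u a) = 0 := by
  unfold ss
  rw [Finsupp.liftAddHom_apply_single, if_neg h]
  rfl

/-- The two sides. -/
theorem ss_add (hT : T.IsTree) {v w : V} (h : T.Adj v w) (x : V →₀ A) :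
    ss T v w x + ss T w v x = tot x := by
  have e : (ss T v w + ss T w v : (V →₀ A) →+ A) = tot := by
    refine Finsupp.addHom_ext fun u a => ?_
    rw [AddMonoidHom.add_apply, tot_single]
    rcases br_or hT h u with h1 | h1
    · rw [ss_single_mem h1, ss_single_not (br_disj h1), add_zero]
    · rw [ss_single_mem h1, ss_single_not (br_disj h1), zero_add]
  exact congrArg (fun f => f x) e

variable {O : V → V → Prop}

/-- `ss T v w (bd y) = y (v, w)`. -/
theorem ss_bd (hT : T.IsTree) (hO : Ori T O) {v w : V} (h : O v w) (y : (V × V) →₀ A)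
    (hy : ∀ p, y p ≠ 0 → O p.1 p.2) : ss T v w (bd y) = y (v, w) := by
  classical
  have e : y = y.sum Finsupp.single := (Finsupp.sum_single y).symm
  have e1 : ss T v w (bd y) = y.sum fun p a => ss T v w (bd (Finsupp.single p a)) := by
    conv_lhs => rw [e]
    rw [Finsupp.sum, map_sum, map_sum]
    rfl
  rw [e1, Finsupp.sum, Finset.sum_eq_single (v, w)]
  · rw [bd_single, map_sub, ss_single_mem (mem_self (hO.adj _ _ h)), ss_single_not (not_mem _ _),
      sub_zero]
  · rintro ⟨a, b⟩ hp hne
    have hab : O a b := hy _ (Finsupp.mem_support_iff.1 hp)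
    have ha := hO.adj _ _ h
    rw [bd_single, map_sub]
    rcases br_or hT ha a with h1 | h1 <;> rcases br_or hT ha b with h2 | h2
    · rw [ss_single_mem h1, ss_single_mem h2, sub_self]
    · exfalso
      obtain ⟨e1, e2⟩ := edge_eq hT ha (hO.adj _ _ hab).symm h2 h1
      subst e1 e2
      exact hO.not _ _ h hab
    · exfalso
      obtain ⟨e1, e2⟩ := edge_eq hT ha (hO.adj _ _ hab) h1 h2
      subst e1 e2
      exact hne rfl
    · rw [ss_single_not (br_disj h1), ss_single_not (br_disj h2), sub_self]
  · intro h0
    rw [Finsupp.notMem_support_iff.1 h0, Finsupp.single_zero, map_zero, map_zero]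

/-- **BIN** -/
theorem bd_inj (hT : T.IsTree) (hO : Ori T O) {y y' : (V × V) →₀ A}
    (hy : ∀ p, y p ≠ 0 → O p.1 p.2) (hy' : ∀ p, y' p ≠ 0 → O p.1 p.2) (h : bd y = bd y') :
    y = y' := by
  ext ⟨v, w⟩
  by_cases hvw : O v w
  · rw [← ss_bd hT hO hvw y hy, ← ss_bd hT hO hvw y' hy', h]
  · have h1 : y (v, w) = 0 := by
      by_contra h0
      exact hvw (hy _ h0)
    have h2 : y' (v, w) = 0 := by
      by_contra h0
      exact hvw (hy' _ h0)
    rw [h1, h2]

theorem tot_bd (y : (V × V) →₀ A) : tot (bd y) = 0 := by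
  have e : (tot.comp bd : ((V × V) →₀ A) →+ A) = 0 := by
    refine Finsupp.addHom_ext fun p a => ?_
    rw [AddMonoidHom.comp_apply, bd_single, map_sub, tot_single, tot_single, sub_self]
    rfl
  exact congrArg (fun f => f y) e

theorem exists_bd_single (hT : T.IsTree) (hO : Ori T O) (o : V) (a : A) (n : ℕ) :
    ∀ u : V, T.dist u o = n → ∃ y : (V × V) →₀ A, (∀ p, y p ≠ 0 → O p.1 p.2) ∧
      bd y = Finsupp.single u a - Finsupp.single o a := by
  classical
  induction n with
  | zero =>
    intro u hu
    rw [(zero_iff hT _ _).1 hu]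
    exact ⟨0, fun p hp => absurd rfl hp, by rw [map_zero, sub_self]⟩
  | succ n ih =>
    intro u hu
    have hne : u ≠ o := by
      intro h0
      rw [h0, SimpleGraph.dist_self] at hu
      omega
    obtain ⟨u', h1, h2⟩ := exists_next hT hne
    obtain ⟨y, hy, hb⟩ := ih u' (by omega)
    rcases hO.or _ _ h1 with h3 | h3
    · refine ⟨y - Finsupp.single (u, u') a, fun p hp => ?_, ?_⟩
      · by_cases h4 : p = (u, u')
        · rw [h4]; exact h3
        · rw [Finsupp.sub_apply, Finsupp.single_eq_of_ne h4, sub_zero] at hp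
          exact hy p hp
      · rw [map_sub, hb, bd_single]
        abel
    · refine ⟨y + Finsupp.single (u', u) a, fun p hp => ?_, ?_⟩
      · by_cases h4 : p = (u', u)
        · rw [h4]; exact h3
        · rw [Finsupp.add_apply, Finsupp.single_eq_of_ne h4, add_zero] at hp
          exact hy p hp
      · rw [map_add, hb, bd_single]
        abel

/-- **BDY** -/
theorem exists_bd (hT : T.IsTree) (hO : Ori T O) (x : V →₀ A) (hx : tot x = 0) :
    ∃ y : (V × V) →₀ A, (∀ p, y p ≠ 0 → O p.1 p.2) ∧ bd y = x := by
  classical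
  by_cases hV : Nonempty V
  · obtain ⟨o⟩ := hV
    choose F hF hb using fun (u : V) (a : A) => exists_bd_single hT hO o a (T.dist u o) u rfl
    refine ⟨∑ u ∈ x.support, F u (x u), fun p hp => ?_, ?_⟩
    · rw [Finsupp.finsetSum_apply] at hp
      obtain ⟨u, -, hu⟩ := Finset.exists_ne_zero_of_sum_ne_zero hp
      exact hF u (x u) p hu
    · rw [map_sum]
      have h1 : ∑ u ∈ x.support, bd (F u (x u)) =
          ∑ u ∈ x.support, (Finsupp.single u (x u) - Finsupp.single o (x u)) :=
        Finset.sum_congr rfl fun u _ => hb u (x u)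
      rw [h1, Finset.sum_sub_distrib]
      have h2 : ∑ u ∈ x.support, Finsupp.single u (x u) = x := Finsupp.sum_single x
      have h3 : ∑ u ∈ x.support, Finsupp.single o (x u) = Finsupp.single o (tot x) := by
        have h4 : tot x = ∑ u ∈ x.support, x u := by
          conv_lhs => rw [← h2]
          rw [map_sum]
          exact Finset.sum_congr rfl fun u _ => tot_single u (x u)
        rw [h4]
        exact (map_sum (Finsupp.singleAddHom o) _ _).symm
      rw [h2, h3, hx, Finsupp.single_zero, sub_zero]
  · refine ⟨0, fun p hp => absurd rfl hp, ?_⟩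
    rw [map_zero]
    ext u
    exact absurd ⟨u⟩ hV

/-! ### Connected sets -/

/-- `U` is connected: it lies on one side of every edge with not both ends in `U`. -/
def Cx (T : SimpleGraph V) (U : Set V) : Prop :=
  ∀ v w, T.Adj v w → ¬ (v ∈ U ∧ w ∈ U) → U ⊆ Br T v w ∨ U ⊆ Br T w v

/-- Coefficients of side sums: if the coefficients `φ (x u)` live on the connected set `W`, and
`tot x = 0`, then `φ` of the side sum at the edge `(v, w)` is zero unless `v, w ∈ W`. -/
theorem ends_mem (hT : T.IsTree) {W : Set V} (hW : Cx T W) (x : V →₀ A) (hx : tot x = 0)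
    (φ : A →+ B) (hφ : ∀ u, φ (x u) ≠ 0 → u ∈ W) {v w : V} (h : T.Adj v w)
    (hne : φ (ss T v w x) ≠ 0) : v ∈ W ∧ w ∈ W := by
  classical
  by_contra hcon
  have key : ∀ a b : V, W ⊆ Br T b a → φ (ss T a b x) = 0 := by
    intro a b hs
    have e1 : ss T a b x = ∑ u ∈ x.support, ss T a b (Finsupp.single u (x u)) := by
      conv_lhs => rw [← Finsupp.sum_single x]
      rw [Finsupp.sum, map_sum]
    rw [e1, map_sum]
    refine Finset.sum_eq_zero fun u _ => ?_
    by_cases hu : u ∈ W
    · rw [ss_single_not (br_disj (hs hu)), map_zero]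
    · have h0 : φ (x u) = 0 := by
        by_contra h0
        exact hu (hφ u h0)
      by_cases h2 : u ∈ Br T a b
      · rw [ss_single_mem h2, h0]
      · rw [ss_single_not h2, map_zero]
  rcases hW v w h hcon with h1 | h1
  · apply hne
    have h2 := ss_add hT h x
    rw [hx] at h2
    rw [eq_neg_of_add_eq_zero_left h2, map_neg, key w v h1, neg_zero]
  · exact hne (key v w h1)

/-- The vertices between `o` and `a`. -/
def Iv (T : SimpleGraph V) (o a : V) : Set V := {c | T.dist o a = T.dist o c + T.dist c a}

theorem iv_finite (hT : T.IsTree) (o : V) (n : ℕ) : ∀ a : V, T.dist a o = n → (Iv T o a).Finite := by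
  induction n with
  | zero =>
    intro a ha
    have h0 : a = o := (zero_iff hT _ _).1 ha
    refine (Set.finite_singleton o).subset fun c hc => ?_
    have hc' : T.dist o a = T.dist o c + T.dist c a := hc
    rw [h0, SimpleGraph.dist_self] at hc'
    exact ((zero_iff hT _ _).1 (by omega : T.dist o c = 0)).symm
  | succ n ih =>
    intro a ha
    have hne : a ≠ o := by
      intro h0
      rw [h0, SimpleGraph.dist_self] at ha
      omega
    obtain ⟨a', h1, h2⟩ := exists_next hT hne
    refine ((ih a' (by omega)).insert a).subset fun c hc => ?_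
    have hc' : T.dist o a = T.dist o c + T.dist c a := hc
    by_cases hca : a = c
    · exact Or.inl hca.symm
    · right
      obtain ⟨a'', h3, h4⟩ := exists_next hT hca
      have h5 : T.dist a'' o ≤ T.dist a'' c + T.dist c o := hT.connected.dist_triangle
      have e1 : T.dist a o = T.dist o a := SimpleGraph.dist_comm
      have e2 : T.dist c o = T.dist o c := SimpleGraph.dist_comm
      have e3 : T.dist a c = T.dist c a := SimpleGraph.dist_comm
      have e4 : T.dist o a' = T.dist a' o := SimpleGraph.dist_comm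
      have e5 : T.dist o a'' = T.dist a'' o := SimpleGraph.dist_comm
      have h6 : a' = a'' := br_unique (u := o) hT h1 h3 (by rw [mem_Br]; omega)
        (by rw [mem_Br]; omega)
      subst h6
      show T.dist o a' = T.dist o c + T.dist c a'
      have e6 : T.dist c a' = T.dist a' c := SimpleGraph.dist_comm
      omega

theorem iv_sub (hT : T.IsTree) {o a c : V} (hc : c ∈ Iv T o a) : Iv T o c ⊆ Iv T o a := by
  intro m hm
  have h1 : T.dist o a = T.dist o c + T.dist c a := hc
  have h2 : T.dist o c = T.dist o m + T.dist m c := hm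
  have h3 : T.dist m a ≤ T.dist m c + T.dist c a := hT.connected.dist_triangle
  have h4 : T.dist o a ≤ T.dist o m + T.dist m a := hT.connected.dist_triangle
  show T.dist o a = T.dist o m + T.dist m a
  omega

/-- Finite sets are contained in finite connected sets. -/
theorem exists_cx (hT : T.IsTree) (S : Finset V) : ∃ U : Finset V, S ⊆ U ∧ Cx T (U : Set V) := by
  classical
  by_cases hV : Nonempty V
  · obtain ⟨o⟩ := hV
    have hfin : ∀ a, (Iv T o a).Finite := fun a => iv_finite hT o _ a rfl
    refine ⟨S.biUnion fun a => (hfin a).toFinset, fun a ha => ?_, ?_⟩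
    · refine Finset.mem_biUnion.2 ⟨a, ha, (hfin a).mem_toFinset.2 ?_⟩
      show T.dist o a = T.dist o a + T.dist a a
      rw [SimpleGraph.dist_self, add_zero]
    · have hU : ∀ c : V, c ∈ ((S.biUnion fun a => (hfin a).toFinset : Finset V) : Set V) ↔
          ∃ a ∈ S, c ∈ Iv T o a := by
        intro c
        rw [Finset.mem_coe, Finset.mem_biUnion]
        simp only [Set.Finite.mem_toFinset]
      -- the claim for the side of `o`
      have key : ∀ v w : V, T.Adj v w → ¬ (v ∈ ((S.biUnion fun a => (hfin a).toFinset :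
          Finset V) : Set V) ∧ w ∈ ((S.biUnion fun a => (hfin a).toFinset : Finset V) : Set V)) →
          o ∈ Br T w v →
          ((S.biUnion fun a => (hfin a).toFinset : Finset V) : Set V) ⊆ Br T w v := by
        intro v w h hn ho c hc
        by_contra hcw
        have hc2 : c ∈ Br T v w := (br_or hT h c).resolve_right hcw
        apply hn
        obtain ⟨a, ha, hca⟩ := (hU c).1 hc
        have h1 := across hT h hc2 (T.dist v o) o rfl ho
        have h2 := across hT h.symm ho (T.dist w c) c rfl hc2
        refine ⟨(hU v).2 ⟨a, ha, iv_sub hT hca ?_⟩, (hU w).2 ⟨a, ha, iv_sub hT hca ?_⟩⟩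
        · show T.dist o c = T.dist o v + T.dist v c
          rw [SimpleGraph.dist_comm (u := o) (v := c), SimpleGraph.dist_comm (u := o) (v := v),
            SimpleGraph.dist_comm (u := v) (v := c), h1, add_comm]
        · exact h2
      intro v w h hn
      rcases br_or hT h o with h1 | h1
      · exact Or.inl (key w v h.symm (fun h2 => hn ⟨h2.2, h2.1⟩) h1)
      · exact Or.inr (key v w h hn h1)
  · refine ⟨∅, fun a _ => absurd ⟨a⟩ hV, fun v => absurd ⟨v⟩ hV⟩

/-- Translates. -/
theorem Cx.smul {G : Type} [Group G] [MulAction G V] (hT : T.IsTree)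
    (hact : ∀ (g : G) (x y : V), T.Adj x y → T.Adj (g • x) (g • y)) {U : Set V} (hU : Cx T U)
    (g : G) : Cx T {u | g⁻¹ • u ∈ U} := by
  intro v w h hn
  have key : ∀ a b : V, U ⊆ Br T (g⁻¹ • a) (g⁻¹ • b) → {u | g⁻¹ • u ∈ U} ⊆ Br T a b := by
    intro a b hs u hu
    have h1 := smul_Br hT hact g (hs hu)
    rwa [smul_inv_smul, smul_inv_smul, smul_inv_smul] at h1
  rcases hU (g⁻¹ • v) (g⁻¹ • w) (hact g⁻¹ v w h) hn with h1 | h1
  · exact Or.inl (key v w h1)
  · exact Or.inr (key w v h1)

end Chains

/-- **SID**: for `u ≠ v` there is exactly one neighbour of `v` nearer to `u`. -/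
theorem exists_unique_next (hT : T.IsTree) {v u : V} (h : v ≠ u) :
    ∃! w, T.Adj v w ∧ u ∈ Br T v w := by
  obtain ⟨w, h1, h2⟩ := exists_next hT h
  refine ⟨w, ⟨h1, ?_⟩, fun w' hw' => ?_⟩
  · rw [mem_Br, SimpleGraph.dist_comm (u := u) (v := w), SimpleGraph.dist_comm (u := u) (v := v)]
    omega
  · refine br_unique hT hw'.1 h1 hw'.2 ?_
    rw [mem_Br, SimpleGraph.dist_comm (u := u) (v := w), SimpleGraph.dist_comm (u := u) (v := v)]
    omega

end Pool.Agent.Lib.MP8a3537.CT
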