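import Pool.Agent.Lib.MP_8a3537_gt.AUF.SpecC
import Pool.Agent.Lib.MP_8a3537_gt.CT.Tree

/-!
# Group rings of groups acting on trees (MP_8a3537_gt, folder CT): definitions (helper31)

`S = R[Γ]`, LEFT modules, rows (conventions of the folders `AUL`, `AUF`: `FC`, `Res`, `cone`, `bc`,
`gsub R H` = the subring of `R[Γ]` of the elements supported in `H`, `Coh`, `FinResP`, `FinRes`).
`Γ` acts on a set `Y` (the vertices, or the pairs of vertices of a tree); `Sb R y` is the subring of the
elements supported in the stabilizer of `y`.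
-/

set_option autoImplicit false

namespace Pool.Agent.Lib.MP8a3537.CT

open Matrix
open Pool.Agent.Lib.MP8a3537.AUL (FC Res gsub FinRes Aus)
open Pool.Agent.Lib.MP8a3537.AUF (Coh FinResP PZL PF)

/-- `N` has a finite free resolution of length `≤ D`. -/
def FR (A : Type) [Ring A] (D : ℕ) (N : Type) [AddCommGroup N] [Module A N] : Prop :=
  ∃ C : FC A, Nonempty (Res C N) ∧ ∀ i, -(D : ℤ) ≤ C.deg i

/-- Coherent, and finitely presented modules have free resolutions of length `≤ D`. -/
def Rg (A : Type) [Ring A] (D : ℕ) : Prop := Coh A ∧ FinResP A D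

/-! ### Equivariant families of submodules -/

section Families

variable (R : Type) [Ring R] {Γ Y : Type} [Group Γ] [MulAction Γ Y]

/-- The elements of `R[Γ]` supported in the stabilizer of `y`. -/
noncomputable abbrev Sb (y : Y) : Subring (MonoidAlgebra R Γ) := gsub R (MulAction.stabilizer Γ y)

/-- An equivariant family of submodules `N y ≤ M`. -/
structure Fa (Γ Y M : Type) [Group Γ] [MulAction Γ Y] [AddCommGroup M]
    [Module (MonoidAlgebra R Γ) M] where
  /-- the submodules -/
  N : ∀ y : Y, Submodule (Sb R (Γ := Γ) y) M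
  eqv : ∀ (g : Γ) (y : Y) (m : M), m ∈ N y →
    (MonoidAlgebra.single g 1 : MonoidAlgebra R Γ) • m ∈ N (g • y)

end Families

/-! ### Finitely supported functions with the twisted action -/

section Twisted

/-- The finitely supported functions `Y → M`. -/
def TM (Y M : Type) [AddCommGroup M] : Type := Y →₀ M

noncomputable instance (Y M : Type) [AddCommGroup M] : AddCommGroup (TM Y M) :=
  inferInstanceAs (AddCommGroup (Y →₀ M))

variable {R Γ Y M : Type} [Ring R] [Group Γ] [MulAction Γ Y] [AddCommGroup M]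
  [Module (MonoidAlgebra R Γ) M]

/-- `(g x)(y) = g x(g⁻¹ y)`. -/
noncomputable def fG (R : Type) [Ring R] [Module (MonoidAlgebra R Γ) M] (g : Γ) (x : Y →₀ M) :
    Y →₀ M :=
  Finsupp.equivMapDomain (MulAction.toPerm g)
    (x.mapRange (fun m => (MonoidAlgebra.single g 1 : MonoidAlgebra R Γ) • m) (smul_zero _))

theorem fG_apply (g : Γ) (x : Y →₀ M) (y : Y) :
    fG R g x y = (MonoidAlgebra.single g 1 : MonoidAlgebra R Γ) • x (g⁻¹ • y) := by
  unfold fG
  rw [Finsupp.equivMapDomain_apply, Finsupp.mapRange_apply]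
  rfl

/-- `(r x)(y) = r x(y)`. -/
noncomputable def fR {R : Type} [Ring R] (Γ : Type) [Group Γ] [Module (MonoidAlgebra R Γ) M]
    (r : R) (x : Y →₀ M) : Y →₀ M :=
  x.mapRange (fun m => (MonoidAlgebra.single 1 r : MonoidAlgebra R Γ) • m) (smul_zero _)

omit [MulAction Γ Y] in
theorem fR_apply (r : R) (x : Y →₀ M) (y : Y) :
    fR Γ r x y = (MonoidAlgebra.single 1 r : MonoidAlgebra R Γ) • x y := by
  unfold fR
  rw [Finsupp.mapRange_apply]

/-- The action of `g` on functions: `(g x)(y) = g x(g⁻¹ y)`. -/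
noncomputable def actG (R : Type) [Ring R] [Module (MonoidAlgebra R Γ) M] :
    Γ →* AddMonoid.End (Y →₀ M) where
  toFun g :=
    { toFun := fG R g
      map_zero' := Finsupp.ext fun y => by
        rw [fG_apply, Finsupp.zero_apply, Finsupp.zero_apply, smul_zero]
      map_add' := fun a b => Finsupp.ext fun y => by
        rw [fG_apply, Finsupp.add_apply, Finsupp.add_apply, fG_apply, fG_apply, smul_add] }
  map_one' := DFunLike.ext _ _ fun x => Finsupp.ext fun y => by
    change fG R 1 x y = x y
    rw [fG_apply, ← MonoidAlgebra.one_def, one_smul, inv_one, one_smul]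
  map_mul' g h := DFunLike.ext _ _ fun x => Finsupp.ext fun y => by
    change fG R (g * h) x y = fG R g (fG R h x) y
    rw [fG_apply, fG_apply, fG_apply, smul_smul, MonoidAlgebra.single_mul_single, one_mul,
      smul_smul, ← _root_.mul_inv_rev]

theorem actG_apply (g : Γ) (x : Y →₀ M) (y : Y) :
    actG R g x y = (MonoidAlgebra.single g 1 : MonoidAlgebra R Γ) • x (g⁻¹ • y) := fG_apply g x y

/-- The action of `R` on functions. -/
noncomputable def actR (R : Type) [Ring R] [Module (MonoidAlgebra R Γ) M] :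
    R →+* AddMonoid.End (Y →₀ M) where
  toFun r :=
    { toFun := fR Γ r
      map_zero' := Finsupp.ext fun y => by
        rw [fR_apply, Finsupp.zero_apply, smul_zero]
      map_add' := fun a b => Finsupp.ext fun y => by
        rw [fR_apply, Finsupp.add_apply, Finsupp.add_apply, fR_apply, fR_apply, smul_add] }
  map_one' := DFunLike.ext _ _ fun x => Finsupp.ext fun y => by
    change fR Γ (1 : R) x y = x y
    rw [fR_apply, ← MonoidAlgebra.one_def, one_smul]
  map_mul' r s := DFunLike.ext _ _ fun x => Finsupp.ext fun y => by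
    change fR Γ (r * s) x y = fR Γ r (fR Γ s x) y
    rw [fR_apply, fR_apply, fR_apply, smul_smul, MonoidAlgebra.single_mul_single, one_mul]
  map_zero' := DFunLike.ext _ _ fun x => Finsupp.ext fun y => by
    change fR Γ (0 : R) x y = 0
    rw [fR_apply, MonoidAlgebra.single_zero, zero_smul]
  map_add' r s := DFunLike.ext _ _ fun x => Finsupp.ext fun y => by
    change fR Γ (r + s) x y = (fR Γ r x + fR Γ s x) y
    rw [Finsupp.add_apply, fR_apply, fR_apply, fR_apply, MonoidAlgebra.single_add, add_smul]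

theorem actR_apply (r : R) (x : Y →₀ M) (y : Y) :
    actR (Γ := Γ) R r x y = (MonoidAlgebra.single 1 r : MonoidAlgebra R Γ) • x y := fR_apply r x y

theorem act_comm (r : R) (g : Γ) :
    Commute (actR (Γ := Γ) (Y := Y) (M := M) R r) (actG (Γ := Γ) (Y := Y) (M := M) R g) := by
  change _ * _ = _ * _
  refine DFunLike.ext _ _ fun x => Finsupp.ext fun y => ?_
  change actR (Γ := Γ) R r (actG R g x) y = actG R g (actR (Γ := Γ) R r x) y
  rw [actR_apply, actG_apply, actG_apply, actR_apply, smul_smul, smul_smul,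
    MonoidAlgebra.single_mul_single, MonoidAlgebra.single_mul_single]
  simp

/-- The action of `R[Γ]` on functions. -/
noncomputable def act (R Γ Y M : Type) [Ring R] [Group Γ] [MulAction Γ Y] [AddCommGroup M]
    [Module (MonoidAlgebra R Γ) M] : MonoidAlgebra R Γ →+* AddMonoid.End (Y →₀ M) :=
  MonoidAlgebra.liftNCRingHom (actR (Γ := Γ) (Y := Y) (M := M) R)
    (actG (Γ := Γ) (Y := Y) (M := M) R) act_comm

noncomputable instance : Module (MonoidAlgebra R Γ) (TM Y M) :=
  Module.compHom (Y →₀ M) (act R Γ Y M)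

theorem act_single (g : Γ) (r : R) (x : Y →₀ M) (y : Y) :
    act R Γ Y M (MonoidAlgebra.single g r) x y =
      (MonoidAlgebra.single g r : MonoidAlgebra R Γ) • x (g⁻¹ • y) := by
  have h1 : act R Γ Y M (MonoidAlgebra.single g r) = actR (Γ := Γ) R r * actG R g := by
    change MonoidAlgebra.liftNC _ _ _ = _
    rw [MonoidAlgebra.liftNC_single]
    rfl
  rw [h1]
  change actR (Γ := Γ) R r (actG R g x) y = _
  rw [actR_apply, actG_apply, smul_smul, MonoidAlgebra.single_mul_single, one_mul, mul_one]

/-- An element of `TM Y M` as a function. -/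
def TM.f (x : TM Y M) : Y →₀ M := x

/-- A function as an element of `TM Y M`. -/
def TM.mk (x : Y →₀ M) : TM Y M := x

theorem f_mk (x : Y →₀ M) : (TM.mk x).f = x := rfl

theorem f_add (x y : TM Y M) : (x + y).f = x.f + y.f := rfl

theorem f_sub (x y : TM Y M) : (x - y).f = x.f - y.f := rfl

theorem f_zero : (0 : TM Y M).f = 0 := rfl

theorem smul_f (g : Γ) (r : R) (x : TM Y M) (y : Y) :
    ((MonoidAlgebra.single g r : MonoidAlgebra R Γ) • x).f y =
      (MonoidAlgebra.single g r : MonoidAlgebra R Γ) • x.f (g⁻¹ • y) := act_single g r x y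

/-- The functions with `x y ∈ N y`. -/
noncomputable def W (N : Fa R Γ Y M) : Submodule (MonoidAlgebra R Γ) (TM Y M) where
  carrier := {x | ∀ y, x.f y ∈ N.N y}
  add_mem' := fun {a b} ha hb y => (N.N y).add_mem (ha y) (hb y)
  zero_mem' := fun y => (N.N y).zero_mem
  smul_mem' := by
    intro a x hx
    induction a using MonoidAlgebra.induction_linear with
    | zero =>
      intro y
      rw [zero_smul]
      exact (N.N y).zero_mem
    | add a b ha hb =>
      intro y
      rw [add_smul]
      exact (N.N y).add_mem (ha y) (hb y)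
    | single g r =>
      intro y
      rw [smul_f]
      have h1 : (MonoidAlgebra.single g r : MonoidAlgebra R Γ) =
          MonoidAlgebra.single 1 r * MonoidAlgebra.single g 1 := by
        rw [MonoidAlgebra.single_mul_single, one_mul, mul_one]
      have h2 := N.eqv g (g⁻¹ • y) _ (hx (g⁻¹ • y))
      rw [smul_inv_smul] at h2
      have h3 : (MonoidAlgebra.single 1 r : MonoidAlgebra R Γ) ∈ Sb R (Γ := Γ) y :=
        ⟨MonoidAlgebra.single 1 r, by
          change MonoidAlgebra.mapDomain _ _ = _
          rw [MonoidAlgebra.mapDomain_single]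
          rfl⟩
      rw [h1, mul_smul]
      exact (N.N y).smul_mem ⟨_, h3⟩ h2

end Twisted

/-! ### Constructions of families -/

section Constructions

variable {R Γ Y M M' : Type} [Ring R] [Group Γ] [MulAction Γ Y] [AddCommGroup M]
  [Module (MonoidAlgebra R Γ) M] [AddCommGroup M'] [Module (MonoidAlgebra R Γ) M']

/-- Only finitely many orbits of `Y` carry non-zero submodules. -/
def Fa.Fin (N : Fa R Γ Y M) : Prop :=
  ∃ s : Finset Y, ∀ y, (∃ m ∈ N.N y, m ≠ 0) → ∃ g : Γ, ∃ z ∈ s, y = g • z

/-- The intersections with the submodule `K`, as a family of submodules of `K`. -/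
noncomputable def Fa.res (N : Fa R Γ Y M) (K : Submodule (MonoidAlgebra R Γ) M) : Fa R Γ Y K where
  N y :=
    { carrier := {m | (m : M) ∈ N.N y}
      add_mem' := fun ha hb => (N.N y).add_mem ha hb
      zero_mem' := (N.N y).zero_mem
      smul_mem' := fun a _ hm => (N.N y).smul_mem a hm }
  eqv g y m hm := N.eqv g y m hm

theorem mem_res (N : Fa R Γ Y M) (K : Submodule (MonoidAlgebra R Γ) M) (y : Y) (m : K) :
    m ∈ (N.res K).N y ↔ (m : M) ∈ N.N y := Iff.rfl

/-- The images under a linear map. -/
noncomputable def Fa.img (N : Fa R Γ Y M) (f : M →ₗ[MonoidAlgebra R Γ] M') : Fa R Γ Y M' where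
  N y :=
    { carrier := {m | ∃ x ∈ N.N y, f x = m}
      add_mem' := by
        rintro _ _ ⟨x, hx, rfl⟩ ⟨y, hy, rfl⟩
        exact ⟨x + y, Submodule.add_mem _ hx hy, map_add f x y⟩
      zero_mem' := ⟨0, Submodule.zero_mem _, map_zero f⟩
      smul_mem' := by
        rintro a _ ⟨x, hx, rfl⟩
        exact ⟨a • x, Submodule.smul_mem _ a hx, map_smul f (a : MonoidAlgebra R Γ) x⟩ }
  eqv := by
    rintro g y _ ⟨x, hx, rfl⟩
    exact ⟨_, N.eqv g y x hx, map_smul f _ x⟩

theorem mem_img (N : Fa R Γ Y M) (f : M →ₗ[MonoidAlgebra R Γ] M') (y : Y) (m : M') :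
    m ∈ (N.img f).N y ↔ ∃ x ∈ N.N y, f x = m := Iff.rfl

/-- The family which is `N y` if `P y` holds and `0` otherwise. -/
noncomputable def Fa.cut (N : Fa R Γ Y M) (P : Y → Prop) (hP : ∀ (g : Γ) (y : Y), P y → P (g • y)) :
    Fa R Γ Y M where
  N y :=
    { carrier := {m | m ∈ N.N y ∧ (¬ P y → m = 0)}
      add_mem' := by
        rintro a b ⟨ha, ha'⟩ ⟨hb, hb'⟩
        exact ⟨Submodule.add_mem _ ha hb, fun h => by rw [ha' h, hb' h, add_zero]⟩
      zero_mem' := ⟨Submodule.zero_mem _, fun _ => rfl⟩
      smul_mem' := by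
        rintro a x ⟨hx, hx'⟩
        exact ⟨Submodule.smul_mem _ a hx, fun h => by rw [hx' h, smul_zero]⟩ }
  eqv := by
    rintro g y m ⟨hm, hm'⟩
    exact ⟨N.eqv g y m hm, fun h => by rw [hm' fun h' => h (hP g y h'), smul_zero]⟩

theorem mem_cut (N : Fa R Γ Y M) (P : Y → Prop) (hP : ∀ (g : Γ) (y : Y), P y → P (g • y)) (y : Y)
    (m : M) : m ∈ (N.cut P hP).N y ↔ m ∈ N.N y ∧ (¬ P y → m = 0) := Iff.rfl

/-- The rows `x` with `g⁻¹ y ∈ U` for all `g` in the support of `x`. -/
noncomputable def Lc (R Γ : Type) {Y : Type} [Ring R] [Group Γ] [MulAction Γ Y] (U : Set Y)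
    (n : ℕ) : Fa R Γ Y (Fin n → MonoidAlgebra R Γ) where
  N y :=
    { carrier := {x | ∀ (i : Fin n) (g : Γ), (x i).coeff g ≠ 0 → g⁻¹ • y ∈ U}
      add_mem' := by
        intro a b ha hb i g h
        by_cases h1 : (a i).coeff g = 0
        · refine hb i g fun h2 => h ?_
          rw [Pi.add_apply, MonoidAlgebra.coeff_add, Finsupp.add_apply, h1, h2, add_zero]
        · exact ha i g h1
      zero_mem' := fun i g h => absurd rfl h
      smul_mem' := by
        rintro ⟨_, ⟨c, rfl⟩⟩ x hx i
        change ∀ g, (UV.emb R (MulAction.stabilizer Γ y) c * x i).coeff g ≠ 0 → g⁻¹ • y ∈ U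
        induction c using MonoidAlgebra.induction_linear with
        | zero =>
          intro g h
          rw [map_zero, zero_mul] at h
          exact absurd rfl h
        | add a b ha hb =>
          intro g h
          rw [map_add, add_mul, MonoidAlgebra.coeff_add, Finsupp.add_apply] at h
          by_cases h1 : (UV.emb R (MulAction.stabilizer Γ y) a * x i).coeff g = 0
          · rw [h1, zero_add] at h
            exact hb g h
          · exact ha g h1
        | single k r =>
          intro g h
          have h2 : UV.emb R (MulAction.stabilizer Γ y) (MonoidAlgebra.single k r) =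
              MonoidAlgebra.single (k : Γ) r := by
            change MonoidAlgebra.mapDomain _ _ = _
            rw [MonoidAlgebra.mapDomain_single]
            rfl
          rw [h2, MonoidAlgebra.coeff_single_mul_apply] at h
          have h3 := hx i ((k : Γ)⁻¹ * g) fun h0 => h (by rw [h0, mul_zero])
          have h4 : (k : Γ) • y = y := k.2
          rwa [_root_.mul_inv_rev, inv_inv, mul_smul, h4] at h3 }
  eqv := by
    intro g y x hx i k h
    have h1 : (((MonoidAlgebra.single g 1 : MonoidAlgebra R Γ) • x) i).coeff k =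
        1 * (x i).coeff (g⁻¹ * k) := by
      change (MonoidAlgebra.single g 1 * x i).coeff k = _
      rw [MonoidAlgebra.coeff_single_mul_apply]
    rw [h1] at h
    have h3 := hx i (g⁻¹ * k) fun h0 => h (by rw [h0, mul_zero])
    rwa [_root_.mul_inv_rev, inv_inv, mul_smul] at h3

theorem mem_Lc {U : Set Y} {n : ℕ} {y : Y} {x : Fin n → MonoidAlgebra R Γ} :
    x ∈ (Lc R Γ U n).N y ↔ ∀ (i : Fin n) (g : Γ), (x i).coeff g ≠ 0 → g⁻¹ • y ∈ U := Iff.rfl

end Constructions

/-! ### Mayer-Vietoris data -/

section Data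

variable {R Γ V M : Type} [Ring R] [Group Γ] [MulAction Γ V] [AddCommGroup M]
  [Module (MonoidAlgebra R Γ) M]

/-- The sequence `0 → ⊕ E → ⊕ N → M → 0` is exact. -/
structure MVd (N : Fa R Γ V M) (E : Fa R Γ (V × V) M) : Prop where
  le : ∀ p, ∀ m ∈ E.N p, m ∈ N.N p.1 ∧ m ∈ N.N p.2
  gen : ∀ m : M, ∃ x : V →₀ M, (∀ v, x v ∈ N.N v) ∧ tot x = m
  ex : ∀ x : V →₀ M, (∀ v, x v ∈ N.N v) → tot x = 0 →
    ∃ y : (V × V) →₀ M, (∀ p, y p ∈ E.N p) ∧ bd y = x
  inj : ∀ y : (V × V) →₀ M, (∀ p, y p ∈ E.N p) → bd y = 0 → y = 0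

end Data

/-! ### The class of groups -/

/-- Waldhausen's class: the groups all of whose finitely generated subgroups are
(poly-infinite-cyclic of length `≤ h`)-by-free, and the groups which act without inversions on a tree
such that the vertex stabilizers are in the class and the edge stabilizers are poly-infinite-cyclic
of length `≤ h`. -/
inductive TZ (h : ℕ) : (K : Type) → [Group K] → Prop
  | base (K : Type) [Group K] : (∀ F : Subgroup K, F.FG → PF h F) → TZ h K
  | tree (K V : Type) [Group K] [MulAction K V] (T : SimpleGraph V) : T.IsTree →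
      (∀ (g : K) (x y : V), T.Adj x y → T.Adj (g • x) (g • y)) →
      (∀ (g : K) (x y : V), T.Adj x y → ¬ (g • x = y ∧ g • y = x)) →
      (∀ v : V, TZ h (MulAction.stabilizer K v)) →
      (∀ v w : V, T.Adj v w →
        PZL h ↥(MulAction.stabilizer K v ⊓ MulAction.stabilizer K w)) → TZ h K

end Pool.Agent.Lib.MP8a3537.CT
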