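import Pool.Agent.Lib.MP_8a3537_gt.CT.Spec
import Pool.Agent.Lib.MP_8a3537_gt.AUL.LFT
import Pool.Agent.Lib.MP_8a3537_gt.AUL.CNE

/-!
# Group rings of groups acting on trees (MP_8a3537_gt, folder CT), module FRA: first properties of `FR`
-/

set_option autoImplicit false

namespace Pool.Agent.Lib.MP8a3537.CT

open Matrix
open Pool.Agent.Lib.MP8a3537.AUL (FC Res gsub FinRes Aus)
open Pool.Agent.Lib.MP8a3537.AUF (Coh FinResP PZL PF)

namespace FRAM

variable {A : Type} [Ring A]

/-- transport along an isomorphism -/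
def resEquiv {C : FC A} {N N' : Type} [AddCommGroup N] [Module A N] [AddCommGroup N'] [Module A N']
    (r : Res C N) (f : N ≃ₗ[A] N') : Res C N' where
  pi := f.toLinearMap ∘ₗ r.pi
  isRes := r.isRes
  low q x hq hx := by
    rw [LinearMap.comp_apply, r.low q x hq hx, map_zero]
  surj y := by
    obtain ⟨x, hx⟩ := r.surj (f.symm y)
    exact ⟨x, by
      rw [LinearMap.comp_apply, hx]
      exact f.apply_symm_apply y⟩
  zero y := by
    rw [LinearMap.comp_apply, r.zero, map_zero]
  ker x hx h := by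
    refine r.ker x hx ?_
    have h1 : f (r.pi x) = f 0 := by
      rw [map_zero]
      exact h
    exact f.injective h1

/-- the sum of two complexes -/
def sm (C C' : FC A) : FC A where
  I := C.I ⊕ C'.I
  fin := inferInstance
  dec := inferInstance
  deg := Sum.elim C.deg C'.deg
  e := fromBlocks C.e 0 0 C'.e
  he := by
    rintro (i | i) (j | j) h
    · exact C.he i j h
    · exact absurd rfl h
    · exact absurd rfl h
    · exact C'.he i j h
  hee := by
    intro i k
    have h : fromBlocks C.e 0 0 C'.e * fromBlocks C.e 0 0 C'.e = 0 := by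
      rw [fromBlocks_multiply, C.e_mul_e, C'.e_mul_e]
      simp
    have h2 := congrFun (congrFun h i) k
    rwa [Matrix.mul_apply] at h2

theorem blk_mul {I J : Type} [Fintype I] [Fintype J] (e : Matrix I I A) (e' : Matrix J J A)
    (z : I ⊕ J → A) : z ᵥ* fromBlocks e 0 0 e' =
      Sum.elim ((fun i => z (Sum.inl i)) ᵥ* e) ((fun i => z (Sum.inr i)) ᵥ* e') := by
  rw [vecMul_fromBlocks, Matrix.vecMul_zero, Matrix.vecMul_zero, add_zero, zero_add]
  rfl

theorem sm_mul (C C' : FC A) (z : (sm C C').I → A) :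
    z ᵥ* (sm C C').e = (Sum.elim ((fun i => z (Sum.inl i)) ᵥ* C.e)
      ((fun i => z (Sum.inr i)) ᵥ* C'.e) : (sm C C').I → A) :=
  blk_mul C.e C'.e z

theorem sm_eq {C C' : FC A} {z : (sm C C').I → A} {y : C.I → A} {y' : C'.I → A}
    (h : (fun i => z (Sum.inl i)) = y ᵥ* C.e) (h' : (fun i => z (Sum.inr i)) = y' ᵥ* C'.e) :
    z = (Sum.elim y y' : (sm C C').I → A) ᵥ* (sm C C').e := by
  refine Eq.trans ?_ (sm_mul C C' (Sum.elim y y' : (sm C C').I → A)).symm
  funext i
  rcases i with i | i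
  · exact congrFun h i
  · exact congrFun h' i

/-- the sum of two resolutions -/
def resSm {C C' : FC A} {N N' : Type} [AddCommGroup N] [Module A N] [AddCommGroup N'] [Module A N']
    (r : Res C N) (s : Res C' N') : Res (sm C C') (N × N') where
  pi :=
    { toFun := fun z => (r.pi (fun i => z (Sum.inl i)), s.pi (fun i => z (Sum.inr i)))
      map_add' := fun a b => by
        refine Prod.ext ?_ ?_
        · exact map_add r.pi (fun i => a (Sum.inl i)) (fun i => b (Sum.inl i))
        · exact map_add s.pi (fun i => a (Sum.inr i)) (fun i => b (Sum.inr i))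
      map_smul' := fun c a => by
        refine Prod.ext ?_ ?_
        · exact map_smul r.pi c (fun i => a (Sum.inl i))
        · exact map_smul s.pi c (fun i => a (Sum.inr i)) }
  isRes := by
    refine ⟨?_, ?_⟩
    · rintro (i | i)
      · exact r.isRes.1 i
      · exact s.isRes.1 i
    · intro q hq z hz hze
      rw [sm_mul] at hze
      obtain ⟨y, hy⟩ := r.isRes.2 q hq (fun i => z (Sum.inl i)) (fun i hi => hz (Sum.inl i) hi)
        (funext fun i => congrFun hze (Sum.inl i))
      obtain ⟨y', hy'⟩ := s.isRes.2 q hq (fun i => z (Sum.inr i)) (fun i hi => hz (Sum.inr i) hi)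
        (funext fun i => congrFun hze (Sum.inr i))
      exact ⟨_, sm_eq hy hy'⟩
  low q z hq hz := Prod.ext (r.low q _ hq fun i hi => hz (Sum.inl i) hi)
    (s.low q _ hq fun i hi => hz (Sum.inr i) hi)
  surj := by
    rintro ⟨n, n'⟩
    obtain ⟨x, hx⟩ := r.surj n
    obtain ⟨x', hx'⟩ := s.surj n'
    exact ⟨Sum.elim x x', Prod.ext hx hx'⟩
  zero y := by
    refine Prod.ext ?_ ?_
    · change r.pi (fun i => (y ᵥ* (sm C C').e) (Sum.inl i)) = 0
      rw [sm_mul]
      exact r.zero _
    · change s.pi (fun i => (y ᵥ* (sm C C').e) (Sum.inr i)) = 0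
      rw [sm_mul]
      exact s.zero _
  ker x hx h := by
    obtain ⟨y, hy⟩ := r.ker (fun i => x (Sum.inl i)) (fun i hi => hx (Sum.inl i) hi)
      (congrArg Prod.fst h)
    obtain ⟨y', hy'⟩ := s.ker (fun i => x (Sum.inr i)) (fun i hi => hx (Sum.inr i) hi)
      (congrArg Prod.snd h)
    exact ⟨_, sm_eq hy hy'⟩

/-- the zero complex -/
def zc (A : Type) [Ring A] : FC A where
  I := Empty
  fin := inferInstance
  dec := inferInstance
  deg := fun i => i.elim
  e := fun i _ => i.elim
  he := fun i => i.elim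
  hee := fun i => i.elim

/-- it resolves the zero module -/
def resZc (N : Type) [AddCommGroup N] [Module A N] (hN : Subsingleton N) : Res (zc A) N where
  pi := 0
  isRes := ⟨fun i => i.elim, fun _ _ _ _ _ => ⟨0, funext fun i => i.elim⟩⟩
  low _ _ _ _ := rfl
  surj _ := ⟨0, Subsingleton.elim _ _⟩
  zero _ := rfl
  ker _ _ _ := ⟨0, funext fun i => i.elim⟩

end FRAM

open FRAM in
theorem specFRA : SpecFRA := by
  intro A _ N N' _ _ _ _
  refine ⟨?_, ?_, ?_, ?_, ?_⟩
  · rintro D f ⟨C, ⟨r⟩, h⟩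
    exact ⟨C, ⟨resEquiv r f⟩, h⟩
  · rintro D D' hD ⟨C, r, h⟩
    refine ⟨C, r, fun i => le_trans ?_ (h i)⟩
    have : (D : ℤ) ≤ D' := by exact_mod_cast hD
    omega
  · rintro D ⟨C, ⟨r⟩, h⟩ ⟨C', ⟨s⟩, h'⟩
    refine ⟨sm C C', ⟨resSm r s⟩, ?_⟩
    rintro (i | i)
    · exact h i
    · exact h' i
  · intro hN
    exact ⟨zc A, ⟨resZc N hN⟩, fun i => i.elim⟩
  · rintro D K ⟨C, ⟨r⟩, h⟩ ⟨C', ⟨s⟩, h'⟩
    obtain ⟨u, hu, hx⟩ := AUL.specLFT A C' C K N s r K.subtype
    refine ⟨AUL.cone C C' u hu, AUL.specCON A C C' N K r s u hu hx, ?_⟩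
    rintro (i | i)
    · exact h i
    · have h1 := h' i
      change -((D + 1 : ℕ) : ℤ) ≤ C'.deg i - 1
      push_cast
      omega

end Pool.Agent.Lib.MP8a3537.CT
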