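import Pool.Agent.Lib.MP_8a3537_gt.CT.KMV

/-!
# Module QMV (MP_8a3537_gt, folder CT): the data of a finitely presented module
-/

set_option autoImplicit false

namespace Pool.Agent.Lib.MP8a3537.CT

open Matrix
open Pool.Agent.Lib.MP8a3537.AUL (FC Res gsub FinRes Aus)
open Pool.Agent.Lib.MP8a3537.AUF (Coh FinResP PZL PF)

namespace QMVM

/-- choice of preimages of the values of a finitely supported function -/
theorem pre {Y P M : Type} [AddCommGroup P] [AddCommGroup M] (f : P →+ M) (F : Y → Set P)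
    (h0 : ∀ y, 0 ∈ F y) (x : Y →₀ M) (hx : ∀ y, ∃ a ∈ F y, f a = x y) :
    ∃ a : Y →₀ P, (∀ y, a y ∈ F y) ∧ Finsupp.mapRange.addMonoidHom f a = x := by
  classical
  choose b hb1 hb2 using hx
  refine ⟨Finsupp.onFinset x.support (fun y => if x y = 0 then 0 else b y) ?_, ?_, ?_⟩
  · intro y hy
    rw [Finsupp.mem_support_iff]
    intro h
    exact hy (if_pos h)
  · intro y
    change (if x y = 0 then 0 else b y) ∈ F y
    split_ifs
    · exact h0 y
    · exact hb1 y
  · ext y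
    change f (if x y = 0 then 0 else b y) = x y
    split_ifs with h
    · rw [map_zero, h]
    · exact hb2 y

section Std

variable {R Γ V : Type} [Ring R] [Group Γ] [MulAction Γ V]

/-- the standard basis -/
theorem std_inL {n : ℕ} {U : Finset V} {v0 : V} (hv : v0 ∈ U) :
    InL U v0 (fun i : Fin n => (Pi.single i 1 : Fin n → MonoidAlgebra R Γ)) := by
  classical
  intro j i g hg
  change ((Pi.single j 1 : Fin n → MonoidAlgebra R Γ) i).coeff g ≠ 0 at hg
  by_cases hij : i = j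
  · subst hij
    rw [Pi.single_eq_same] at hg
    have h1 : g = 1 := by
      by_contra h
      apply hg
      rw [MonoidAlgebra.one_def]
      change (Finsupp.single (1 : Γ) (1 : R)) g = 0
      exact Finsupp.single_eq_of_ne h
    rw [h1, inv_one, one_smul]
    exact hv
  · rw [Pi.single_eq_of_ne hij] at hg
    exact absurd rfl hg

theorem std_span {n : ℕ} (x : Fin n → MonoidAlgebra R Γ) :
    x ∈ Submodule.span (MonoidAlgebra R Γ)
      (Set.range (fun i : Fin n => (Pi.single i 1 : Fin n → MonoidAlgebra R Γ))) := by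
  classical
  have h1 : x = ∑ i, x i • (Pi.single i 1 : Fin n → MonoidAlgebra R Γ) := by
    ext1 j
    rw [Finset.sum_apply, Finset.sum_eq_single j]
    · rw [Pi.smul_apply, Pi.single_eq_same, smul_eq_mul, mul_one]
    · intro i _ hij
      rw [Pi.smul_apply, Pi.single_eq_of_ne hij.symm, smul_zero]
    · intro h
      exact absurd (Finset.mem_univ j) h
  rw [h1]
  exact Submodule.sum_mem _ fun i _ => Submodule.smul_mem _ _ (Submodule.subset_span ⟨i, rfl⟩)

end Std

end QMVM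

open QMVM

theorem specQMV (hC : SpecLCF) (hX : SpecLEX) : SpecQMV := by
  classical
  intro R Γ V _ _ _ T O hT hact hOri hO n U hU v0 hv0 r κ hκ M _ _ f hf hker
  obtain ⟨hX1, hX2⟩ := hX R Γ V T O hT hact hOri n U hU
  obtain ⟨-, hC2, -, hC4⟩ := hC R Γ V n U
  obtain ⟨-, hC2', -, -⟩ := hC R Γ (V × V) n (U ×ˢ U)
  rw [Finset.coe_product] at hC2'
  refine ⟨⟨?_, ?_, ?_, ?_⟩, ?_, ?_⟩
  · intro p m hm
    rw [mem_img] at hm
    obtain ⟨x, hx, rfl⟩ := hm
    replace hx : x ∈ (Lc R Γ ((U : Set V) ×ˢ (U : Set V)) n).N p ∧ (¬ O p.1 p.2 → x = 0) := hx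
    have h1 := (hC4 p _).1 hx.1
    exact ⟨(mem_img _ _ _ _).2 ⟨x, h1.1, rfl⟩, (mem_img _ _ _ _).2 ⟨x, h1.2, rfl⟩⟩
  · intro m
    obtain ⟨x, rfl⟩ := hf m
    obtain ⟨a, ha, hax⟩ := hX2 v0 n _ (std_inL hv0) x (std_span x)
    refine ⟨Finsupp.mapRange.addMonoidHom f.toAddMonoidHom a, fun v => ?_, ?_⟩
    · rw [mem_img]
      exact ⟨a v, (KMVM.gv_mem (std_inL hv0) (ha v)).2, rfl⟩
    · rw [KMVM.tot_map, hax]
      rfl
  · intro x hx htot
    obtain ⟨a, ha1, ha2⟩ := pre f.toAddMonoidHom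
      (fun v => (((Lc R Γ (U : Set V) n).N v : Submodule _ _) : Set (Fin n → MonoidAlgebra R Γ)))
      (fun v => Submodule.zero_mem _) x (fun v => (mem_img _ _ _ _).1 (hx v))
    have h1 : f (tot a) = 0 := by
      have h2 := KMVM.tot_map f.toAddMonoidHom a
      rw [ha2, htot] at h2
      exact h2.symm
    have h2 : tot a ∈ Submodule.span (MonoidAlgebra R Γ) (Set.range κ) := by
      rw [← hker, LinearMap.mem_ker]
      exact h1
    obtain ⟨k, hk, hka⟩ := hX2 v0 r κ hκ _ h2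
    have hk2 : ∀ v, f (k v) = 0 := by
      intro v
      have h3 := (KMVM.gv_mem hκ (hk v)).1
      rw [← hker, LinearMap.mem_ker] at h3
      exact h3
    obtain ⟨y, hy, hyx⟩ := hX1 ⊤ (a - k) (fun v => ⟨Submodule.mem_top, by
      rw [Finsupp.sub_apply]
      exact Submodule.sub_mem _ (ha1 v) (KMVM.gv_mem hκ (hk v)).2⟩) (by
        rw [map_sub, hka, sub_self])
    refine ⟨Finsupp.mapRange.addMonoidHom f.toAddMonoidHom y, fun p => ?_, ?_⟩
    · rw [mem_img]
      obtain ⟨-, h3, h4, h5⟩ := hy p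
      exact ⟨y p, (mem_cut _ _ _ _ _).2 ⟨(hC4 p _).2 ⟨h3, h4⟩, h5⟩, rfl⟩
    · rw [KMVM.bd_map, hyx, map_sub, ha2]
      have h3 : Finsupp.mapRange.addMonoidHom f.toAddMonoidHom k = 0 := by
        ext v
        exact hk2 v
      rw [h3, sub_zero]
  · intro y hy hbd
    apply bd_inj hT hOri
    · intro p hp
      by_contra hno
      apply hp
      obtain ⟨x, hx, hxy⟩ := (mem_img _ _ _ _).1 (hy p)
      replace hx : x ∈ (Lc R Γ ((U : Set V) ×ˢ (U : Set V)) n).N p ∧ (¬ O p.1 p.2 → x = 0) := hx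
      rw [← hxy, hx.2 hno, map_zero]
    · intro p hp
      exact absurd rfl hp
    · rw [hbd, map_zero]
  · obtain ⟨s, hs⟩ := hC2
    refine ⟨s, fun y hy => hs y ?_⟩
    obtain ⟨m, hm, hm0⟩ := hy
    obtain ⟨x, hx, rfl⟩ := (mem_img _ _ _ _).1 hm
    exact ⟨x, hx, fun h => hm0 (by rw [h, map_zero])⟩
  · obtain ⟨s, hs⟩ := hC2'
    refine ⟨s, fun y hy => hs y ?_⟩
    obtain ⟨m, hm, hm0⟩ := hy
    obtain ⟨x, hx, rfl⟩ := (mem_img _ _ _ _).1 hm
    exact ⟨x, hx.1, fun h => hm0 (by rw [h, map_zero])⟩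

end Pool.Agent.Lib.MP8a3537.CT
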