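import Pool.Agent.Lib.MP_8a3537_gt.CT.Defs
import Pool.Agent.Lib.MP_8a3537_gt.DG.Defs

/-!
# Group rings of groups acting on trees (MP_8a3537_gt, folder CT): Specs (helper31)

Every module `XXX` is a file `Pool/Agent/Lib/MP_8a3537_gt/CT/XXX.lean` which imports this file (and, if
wanted, landed files of the folders `AUL`, `AUF`; `AUL.Main`, `AUF.Main` import them all) and proves
`theorem specXXX (hypotheses = deps, in the order of the docstring) : SpecXXX` in the namespace
`Pool.Agent.Lib.MP8a3537.CT`, with its auxiliary declarations in the namespace `XXXM`. No double quote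
characters, no sorry.

LEFT modules, rows. `S = R[Γ] = MonoidAlgebra R Γ`. `C : FC A`: finite free complex, rows `x : C.I → A`,
differential `x ↦ x ᵥ* C.e`, degrees raised by one; `Res C N`: `C` resolves `N` (augmentation `pi`);
`FR A D N`: there is such a `C` with degrees `≥ -D`. `bc C`: base change from a subring. `Sb R y`: the
elements of `S` supported in the stabilizer of `y`; `Fa R Γ Y M`: equivariant families `N y ≤ M` of
`Sb R y`-submodules; `W N ≤ TM Y M`: the finitely supported functions with values in the `N y`, with the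
action `(g x)(y) = g x(g⁻¹ y)` (`smul_f`); `Lc R Γ U n`: the rows `x : Fin n → S` with `g⁻¹ y ∈ U` for all `g` in
the support of `x`; `bd`, `tot`, `Cx`, `Ori`, `Br`: see `CT/Tree.lean`. `(x i).coeff g` is the coefficient.
-/

set_option autoImplicit false

namespace Pool.Agent.Lib.MP8a3537.CT

open Matrix
open Pool.Agent.Lib.MP8a3537.AUL (FC Res gsub FinRes Aus)
open Pool.Agent.Lib.MP8a3537.AUF (Coh FinResP PZL PF)

/-! ### Part 1: resolutions of induced modules -/

/-- **FRA** (size 120; AUL: `specLFT`, `specCON`; AUF: `specDSM`): first properties of `FR`.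

PROOF. (1) compose `pi` with the equivalence. (2) clear. (3) `specDSM` for `X = Bool` (or `Fin 2`), or directly the
block diagonal complex; then (1) for `(∀ b, N b) ≃ N × N'`. (4) the zero complex (index set `Empty`). (5) `u` from
`specLFT` for the inclusion `K → N`, `specCON`: degrees `C.deg`, `D.deg - 1`. -/
def SpecFRA : Prop :=
  ∀ (A : Type) [Ring A] (N N' : Type) [AddCommGroup N] [Module A N] [AddCommGroup N'] [Module A N'],
    (∀ (D : ℕ) (_ : N ≃ₗ[A] N'), FR A D N → FR A D N') ∧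
    (∀ D D' : ℕ, D ≤ D' → FR A D N → FR A D' N) ∧
    (∀ D : ℕ, FR A D N → FR A D N' → FR A D (N × N')) ∧
    (Subsingleton N → FR A 0 N) ∧
    ∀ (D : ℕ) (K : Submodule A N), FR A (D + 1) N → FR A D K → FR A (D + 1) (N ⧸ K)

/-- The part of `g⁻¹ a` supported in `H`: the coefficient at `h ∈ H` is that of `a` at `g h`. -/
noncomputable def co (R : Type) {Γ : Type} [Ring R] [Group Γ] (H : Subgroup Γ) (g : Γ)
    (a : MonoidAlgebra R Γ) : gsub R H :=
  ⟨UV.emb R H (MonoidAlgebra.ofCoeff (Finsupp.comapDomain (fun h : H => g * (h : Γ)) a.coeff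
    (fun _ _ _ _ h => Subtype.ext (mul_left_cancel h)))), ⟨_, rfl⟩⟩

/-- **COS** (size 150): the decomposition of `R[Γ]` along the cosets `gH`.

PROOF. (1), (2) `UV.emb R H` is `MonoidAlgebra.mapDomain` of the injective inclusion: its coefficient at `h ∈ H` is the coefficient at `h`, and `0` off `H`; elements of `gsub R H` are equal
if all coefficients are. (3) - (6) coefficients (`MonoidAlgebra.coeff_single_mul_apply`; for (6) linearity in `b = emb c`, `c = single k r`: `MonoidAlgebra.coeff_mul_single_apply` or the like). (7) every coefficient of `a` is one of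
`co g a`. (8) only the cosets of the elements of the support. (9) `a = ∑ y ∈ b.support, single (s y) 1 * b y`: `co (s y) (single (s z) 1 * b z) = co ((s z)⁻¹ * s y) (b z)`, which is `0` for `z ≠ y` and `b y` for `z = y`. -/
def SpecCOS : Prop :=
  ∀ (R Γ : Type) [Ring R] [Group Γ] (H : Subgroup Γ),
    (∀ (g : Γ) (a : MonoidAlgebra R Γ), ∀ h ∈ H,
      (co R H g a : MonoidAlgebra R Γ).coeff h = a.coeff (g * h)) ∧
    (∀ (g : Γ) (a : MonoidAlgebra R Γ), ∀ h ∉ H,
      (co R H g a : MonoidAlgebra R Γ).coeff h = 0) ∧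
    (∀ (g : Γ) (a b : MonoidAlgebra R Γ), co R H g (a + b) = co R H g a + co R H g b) ∧
    (∀ (g : Γ) (a : MonoidAlgebra R Γ), ∀ h ∈ H, (co R H (g * h) a : MonoidAlgebra R Γ) =
      MonoidAlgebra.single h⁻¹ 1 * (co R H g a : MonoidAlgebra R Γ)) ∧
    (∀ (g k : Γ) (r : R) (a : MonoidAlgebra R Γ),
      (co R H g (MonoidAlgebra.single k r * a) : MonoidAlgebra R Γ) =
        MonoidAlgebra.single 1 r * (co R H (k⁻¹ * g) a : MonoidAlgebra R Γ)) ∧
    (∀ (g : Γ) (a : MonoidAlgebra R Γ) (b : gsub R H),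
      co R H g (a * (b : MonoidAlgebra R Γ)) = co R H g a * b) ∧
    (∀ a b : MonoidAlgebra R Γ, (∀ g, co R H g a = co R H g b) → a = b) ∧
    (∀ a : MonoidAlgebra R Γ,
      {y : Γ ⧸ H | ∃ g : Γ, (g : Γ ⧸ H) = y ∧ co R H g a ≠ 0}.Finite) ∧
    ∀ s : Γ ⧸ H → Γ, (∀ y, (s y : Γ ⧸ H) = y) → ∀ b : (Γ ⧸ H) →₀ gsub R H,
      ∃ a : MonoidAlgebra R Γ, ∀ y, co R H (s y) a = b y

/-- **LNR** (size 120): `tot` and `bd` are linear for the twisted action.

PROOF. For `x = single p m` (`Finsupp.induction_linear`; `MonoidAlgebra.induction_linear` for the scalar): `single g r • single y m = single (g • y) (single g r • m)` (`smul_f`, coefficients), so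
`tot` gives `single g r • m`, and `bd (single p m) = single p.2 m - single p.1 m` gives the same on both sides. The values of `bd y` are in the `N v`: they are sums of values `± y p ∈ E p` with `p.2 = v` resp. `p.1 = v`
(induction on `y`: all functions `y` with values in the submodules; or the formula for `(bd y) v`). -/
def SpecLNR : Prop :=
  (∀ (R Γ Y M : Type) [Ring R] [Group Γ] [MulAction Γ Y] [AddCommGroup M]
    [Module (MonoidAlgebra R Γ) M] (N : Fa R Γ Y M),
    ∃ t : W N →ₗ[MonoidAlgebra R Γ] M, ∀ x : W N, t x = tot (x : TM Y M).f) ∧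
  ∀ (R Γ V M : Type) [Ring R] [Group Γ] [MulAction Γ V] [AddCommGroup M]
    [Module (MonoidAlgebra R Γ) M] (N : Fa R Γ V M) (E : Fa R Γ (V × V) M),
    (∀ p, ∀ m ∈ E.N p, m ∈ N.N p.1 ∧ m ∈ N.N p.2) →
    ∃ t : W E →ₗ[MonoidAlgebra R Γ] W N, ∀ x : W E, (t x : TM V M).f = bd (x : TM (V × V) M).f

/-- **IN1** (size 280, strong, deps `SpecCOS`; compare `AUF/BCF.lean`, `AUF/CHR.lean`): the induced module of one orbit.

PROOF. `H` = the stabilizer of `y0`, `S0 = Sb R y0 = gsub R H`. `C`, `r : Res C (N.N y0)`, `C' = bc C` (the same `deg`). For a row `x` over `S` let `co g x` be the row of the `co R H g (x i)`;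
`co g (x ᵥ* C'.e) = co g x ᵥ* C.e` (COS (3), (6)). For every `y` in the orbit of `y0` choose `g_y` with `y = g_y • y0`; the cosets `g_y H` are the elements of `Γ ⧸ H` (all of them). Augmentation: `pi x` is the function with the value
`single g_y 1 • r.pi (co g_y x)` at `y` in the orbit (the same for every choice of `g_y` by COS (4) since `r.pi` is `S0`-linear), `0` elsewhere; finitely
many non-zero values (COS (8)). It is in `W N` (`N.eqv`) and `S`-linear: check `single k r` with `smul_f` and COS (5). `low`, `zero`: clear.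
`surj`: `z ∈ W N`: `single g_y⁻¹ 1 • z y ∈ N y0` (`N.eqv`), `= r.pi b_y` (`b_y = 0` if `z y = 0`), and `x` with `co g_y x = b_y` (COS (9)). `ker`, exactness: `co g_y x` is a
cocycle resp. is in the kernel of `r.pi`, so `co g_y x = b_y ᵥ* C.e` (`b_y = 0` if `co g_y x = 0`), `x = x' ᵥ* C'.e` for `x'` with `co g_y x' = b_y` (COS (9), (4), (7)). -/
def SpecIN1 : Prop :=
  ∀ (R Γ Y M : Type) [Ring R] [Group Γ] [MulAction Γ Y] [AddCommGroup M]
    [Module (MonoidAlgebra R Γ) M] (N : Fa R Γ Y M) (y0 : Y),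
    (∀ y, (∃ m ∈ N.N y, m ≠ 0) → ∃ g : Γ, y = g • y0) → ∀ D : ℕ,
    FR (Sb R (Γ := Γ) y0) D (N.N y0) → FR (MonoidAlgebra R Γ) D (W N)

/-- **IN2** (size 150, deps `SpecFRA`, `SpecIN1`): finitely many orbits.

PROOF. Induction on the finset `s` of `Fa.Fin` for all families. `s = ∅`: all `N y` are zero, `W N` is a subsingleton (FRA (4),
(2)). `s = insert z s'`: `N1 = N.cut P`, `P y` = `y` in the orbit of `z`, `N2 = N.cut (¬ P)` (both invariant). IN1 for `N1`, `z`
(`N1.N z ≃ N.N z`), the induction hypothesis for `N2` (orbits of `s'`; `N2.N y` is isomorphic to `N.N y` or zero: FRA (1), (4)). `W N ≃ W N1 × W N2`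
linearly: `x ↦ (x on the orbit, x off the orbit)` (`Finsupp.filter`), the inverse is the sum; FRA (3), (1). -/
def SpecIN2 : Prop :=
  ∀ (R Γ Y M : Type) [Ring R] [Group Γ] [MulAction Γ Y] [AddCommGroup M]
    [Module (MonoidAlgebra R Γ) M] (N : Fa R Γ Y M), N.Fin → ∀ D : ℕ,
    (∀ y, FR (Sb R (Γ := Γ) y) D (N.N y)) → FR (MonoidAlgebra R Γ) D (W N)

/-- **MVR** (size 120, deps `SpecFRA`, `SpecIN2`, `SpecLNR`): the Mayer-Vietoris resolution.

PROOF. `S`-linear maps `∂ : W E → W N` (LNR (2), `MVd.le`), injective (`inj`), and `t : W N → M` (LNR (1)),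
surjective (`gen`), with kernel `range ∂` (`ex`, `tot_bd`). FRA (5) for `K = range ∂` (`≃ W E`, FRA (1)), and
`W N ⧸ range ∂ ≃ M` (`LinearMap.quotKerEquivOfSurjective`). -/
def SpecMVR : Prop :=
  ∀ (R Γ V M : Type) [Ring R] [Group Γ] [MulAction Γ V] [AddCommGroup M]
    [Module (MonoidAlgebra R Γ) M] (N : Fa R Γ V M) (E : Fa R Γ (V × V) M), MVd N E → N.Fin →
    E.Fin → ∀ D : ℕ, (∀ v, FR (Sb R (Γ := Γ) v) (D + 1) (N.N v)) →
    (∀ p, FR (Sb R (Γ := Γ) p) D (E.N p)) → FR (MonoidAlgebra R Γ) (D + 1) M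

/-! ### Part 2: lattices -/

/-- **LCF** (size 250): `Lc R Γ U n` for a finite set `U`.

PROOF. (1) `S0 = Sb R y`, `H` the stabilizer of `y`. `J` = the finite type of the pairs `(u, i)`, `u ∈ U` in the orbit of `y`, `i : Fin n`; choose `g_u` with
`g_u • u = y`. The elements `g` with `g⁻¹ • y = u` are the `h * g_u`, `h ∈ H`. The `S0`-linear map `(J → S0) → (Lc R Γ U n).N y`,
`a ↦ (i ↦ ∑_u a (u, i) * single g_u 1)`, is bijective (the coefficient of `a (u, i)` at `h ∈ H` is the coefficient of the value `i` at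
`h * g_u`). So the module is finite free, `Module.finitePresentation_of_free` or the instance for `J → S0` and the equivalence. (2) if
`x ∈ N y` is non-zero then some coefficient `g` is non-zero, `g⁻¹ • y = u ∈ U`, `y = g • u`. (3) linear equivalence with the same module
resp. with the zero module. (4) `Lc` for `U ×ˢ U`: the two conditions. -/
def SpecLCF : Prop :=
  ∀ (R Γ Y : Type) [Ring R] [Group Γ] [MulAction Γ Y] (n : ℕ) (U : Finset Y),
    (∀ y, Module.FinitePresentation (Sb R (Γ := Γ) y) ((Lc R Γ (U : Set Y) n).N y)) ∧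
    (Lc R Γ (U : Set Y) n).Fin ∧
    (∀ (P : Y → Prop) (hP : ∀ (g : Γ) (y : Y), P y → P (g • y)) (y : Y),
      Module.Finite (Sb R (Γ := Γ) y) (((Lc R Γ (U : Set Y) n).cut P hP).N y)) ∧
    ∀ (p : Y × Y) (x : Fin n → MonoidAlgebra R Γ), x ∈ (Lc R Γ ((U : Set Y) ×ˢ (U : Set Y)) n).N p ↔
      x ∈ (Lc R Γ (U : Set Y) n).N p.1 ∧ x ∈ (Lc R Γ (U : Set Y) n).N p.2

/-- The rows `κ j` are in `Lc` at `v0`. -/
def InL {R Γ V : Type} [Ring R] [Group Γ] [MulAction Γ V] (U : Finset V) (v0 : V) {n r : ℕ}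
    (κ : Fin r → Fin n → MonoidAlgebra R Γ) : Prop :=
  ∀ j, κ j ∈ (Lc R Γ (U : Set V) n).N v0

/-- An invariant orientation. -/
def InvO (Γ : Type) {V : Type} [Group Γ] [MulAction Γ V] (O : V → V → Prop) : Prop :=
  ∀ (g : Γ) (p : V × V), O p.1 p.2 → O (g • p).1 (g • p).2

/-- **LEX** (size 250): exactness for the submodule `K` of `S^n`.

PROOF. `P = Fin n → S`. (1) Let `x : V →₀ P` have values `x v ∈ K ∩ F_v` (`F_v = (Lc R Γ U n).N v`), `tot x = 0`. `exists_bd`: `y` supported on `O` with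
`bd y = x`, and `y (v, w) = ss T v w x` (`ss_bd`) for `O v w`, a finite sum of values of `x`, so it is in `K` (`ss` of a function with values
in a subgroup: induction on `x`, `Finsupp.induction_linear`, or `ss` commutes with maps of the coefficient group and use `P ⧸ K`). `y (v, w) ∈ F_v ∩ F_w`:
`ends_mem` for `phi` = the coefficient at `g` of the entry `i`, and the set `{u | g⁻¹ • u ∈ U}` (`Cx.smul`). (2) every element of `span (range κ)` is a finite sum of elements
`single g r • κ j`, which is in `K` and in `F_(g • v0)` (`Fa.eqv`, and `single 1 r ∈ Sb`); the statement is closed under sums (`x + x'`, `tot` additive). -/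
def SpecLEX : Prop :=
  ∀ (R Γ V : Type) [Ring R] [Group Γ] [MulAction Γ V] (T : SimpleGraph V) (O : V → V → Prop),
    T.IsTree → (∀ (g : Γ) (x y : V), T.Adj x y → T.Adj (g • x) (g • y)) → Ori T O →
    ∀ (n : ℕ) (U : Finset V), Cx T (U : Set V) →
    (∀ (K : Submodule (MonoidAlgebra R Γ) (Fin n → MonoidAlgebra R Γ))
      (x : V →₀ (Fin n → MonoidAlgebra R Γ)),
      (∀ v, x v ∈ K ∧ x v ∈ (Lc R Γ (U : Set V) n).N v) → tot x = 0 →
      ∃ y : (V × V) →₀ (Fin n → MonoidAlgebra R Γ), (∀ p, y p ∈ K ∧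
        y p ∈ (Lc R Γ (U : Set V) n).N p.1 ∧ y p ∈ (Lc R Γ (U : Set V) n).N p.2 ∧
        (¬ O p.1 p.2 → y p = 0)) ∧ bd y = x) ∧
    ∀ (v0 : V) (r : ℕ) (κ : Fin r → Fin n → MonoidAlgebra R Γ), InL U v0 κ →
      ∀ m ∈ Submodule.span (MonoidAlgebra R Γ) (Set.range κ),
      ∃ x : V →₀ (Fin n → MonoidAlgebra R Γ),
        (∀ v, x v ∈ Submodule.span (Sb R (Γ := Γ) v)
          {z | ∃ (g : Γ) (j : Fin r), g • v0 = v ∧
            z = (MonoidAlgebra.single g 1 : MonoidAlgebra R Γ) • κ j}) ∧ tot x = m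

/-- **NFL** (size 180): the part of the edges at `v` is finitely generated.

PROOF. Let `s` be the finset of `E.Fin`. For `q ∈ s` and an end `q.i` (`i = 1, 2`) in the orbit of `v` choose `g_q` with `g_q • q.i = v` and a finite generating set of `E.N (g_q • q)`; all these elements together
generate: if `m ∈ E.N p`, `m ≠ 0`, `p.i = v`, then `p = g • q` with `q ∈ s`, `h = g * g_q⁻¹` fixes `v`, `p = h • (g_q • q)`, `single h⁻¹ 1 • m ∈ E.N (g_q • q)` (`Fa.eqv`) is a combination of the generators with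
coefficients in `Sb R (g_q • q) ≤ Sb R v` (the stabilizer of `g_q • q` fixes its end `v`), and `single h 1 ∈ Sb R v`. -/
def SpecNFL : Prop :=
  ∀ (R Γ V M : Type) [Ring R] [Group Γ] [MulAction Γ V] [AddCommGroup M]
    [Module (MonoidAlgebra R Γ) M] (E : Fa R Γ (V × V) M), E.Fin →
    (∀ p, Module.Finite (Sb R (Γ := Γ) p) (E.N p)) → ∀ v : V,
    (Submodule.span (Sb R (Γ := Γ) v)
      {m : M | ∃ p : V × V, (p.1 = v ∨ p.2 = v) ∧ m ∈ E.N p}).FG

/-- **NFG** (size 200, deps `SpecLCF`, `SpecLEX`, `SpecNFL`): `K ∩ F_v` is finitely generated.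

PROOF. `K = span (range κ)`, `F_v = (Lc R Γ U n).N v`, `E_p = K ∩ F_p.1 ∩ F_p.2` if `O p.1 p.2` and `0` otherwise. (2) `E_p` is a submodule of the finite module
`(Lc R Γ (U × U) n).N p` (LCF (1), (4)) over the noetherian ring `Sb R p`, or zero. (1) Let `G_v` be the span in LEX (2): if `v = g0 • v0` it is generated by the
`single g0 1 • κ j` (`g = h * g0` with `h ∈ H_v`, the stabilizer of `v`), otherwise it is zero; `G_v ≤ K ∩ F_v`. Let `x ∈ K ∩ F_v`. LEX (2): `x = tot k`, `k w ∈ G_w`.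
`single v x - k` has `tot = 0`, so (LEX (1)) it is `bd y`, `y p ∈ E_p`; at `v`: `x - k v` is the sum of the `y p`, `p.2 = v`, minus the sum of the `y p`, `p.1 = v`. So
`K ∩ F_v = G_v + L_v`, `L_v` = the `Sb R v`-span of the `E_p` with `p.1 = v` or `p.2 = v` (`E_p ≤ K ∩ F_v`); NFL for the family `(Lc R Γ (U × U) n).cut O ..` intersected with `K` in `M = S^n` or in `K` (`Fa.res`), `E.Fin` by LCF (2). -/
def SpecNFG : Prop :=
  ∀ (R Γ V : Type) [Ring R] [Group Γ] [MulAction Γ V] (T : SimpleGraph V) (O : V → V → Prop),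
    T.IsTree → (∀ (g : Γ) (x y : V), T.Adj x y → T.Adj (g • x) (g • y)) → Ori T O →
    ∀ hO : InvO Γ O,
    (∀ p : V × V, O p.1 p.2 → IsNoetherianRing (Sb R (Γ := Γ) p)) →
    ∀ (n : ℕ) (U : Finset V), Cx T (U : Set V) →
    ∀ (v0 : V) (r : ℕ) (κ : Fin r → Fin n → MonoidAlgebra R Γ), InL U v0 κ →
    (∀ v, Module.Finite (Sb R (Γ := Γ) v)
      (((Lc R Γ (U : Set V) n).res (Submodule.span (MonoidAlgebra R Γ) (Set.range κ))).N v)) ∧
    ∀ p, Module.Finite (Sb R (Γ := Γ) p)
      ((((Lc R Γ ((U : Set V) ×ˢ (U : Set V)) n).cut (fun p => O p.1 p.2) hO).res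
        (Submodule.span (MonoidAlgebra R Γ) (Set.range κ))).N p)

/-- **KMV** (size 150, deps `SpecLCF`, `SpecLEX`): the data of a finitely generated submodule.

PROOF. `MVd`: `le`: LCF (4). `gen`: LEX (2), the span is in `K` and in `F_v` (equivariance; `G_v ≤ K ∩ F_v`); functions with values in `K` as functions `V →₀ K`
(`Finsupp.mapRange`, or `Finsupp.onFinset`; `tot` commutes with the inclusion `K → P`, which is injective). `ex`: LEX (1), in the same way for `bd`. `inj`: `bd_inj`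
(`O`-supported chains). `Fin`: LCF (2) (for `V` and for `V × V` with `U × U`; smaller families). -/
def SpecKMV : Prop :=
  ∀ (R Γ V : Type) [Ring R] [Group Γ] [MulAction Γ V] (T : SimpleGraph V) (O : V → V → Prop),
    T.IsTree → (∀ (g : Γ) (x y : V), T.Adj x y → T.Adj (g • x) (g • y)) → Ori T O →
    ∀ hO : InvO Γ O, ∀ (n : ℕ) (U : Finset V), Cx T (U : Set V) →
    ∀ (v0 : V) (r : ℕ) (κ : Fin r → Fin n → MonoidAlgebra R Γ), InL U v0 κ →
    MVd ((Lc R Γ (U : Set V) n).res (Submodule.span (MonoidAlgebra R Γ) (Set.range κ)))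
      (((Lc R Γ ((U : Set V) ×ˢ (U : Set V)) n).cut (fun p => O p.1 p.2) hO).res
        (Submodule.span (MonoidAlgebra R Γ) (Set.range κ))) ∧
    ((Lc R Γ (U : Set V) n).res (Submodule.span (MonoidAlgebra R Γ) (Set.range κ))).Fin ∧
    (((Lc R Γ ((U : Set V) ×ˢ (U : Set V)) n).cut (fun p => O p.1 p.2) hO).res
        (Submodule.span (MonoidAlgebra R Γ) (Set.range κ))).Fin

/-- **QMV** (size 200, deps `SpecLCF`, `SpecLEX`): the data of a finitely presented module.

PROOF. `f : P → M` onto with kernel `K = span (range κ)`. `le`: LCF (4). `gen`: `m = f x`, `x ∈ span` of the standard basis `Pi.single i 1`, which is `InL U v0` since `v0 ∈ U` (the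
support of `Pi.single i 1` is `{1}`): LEX (2), apply `f`. `ex`: `x v = f (a v)`, `a v ∈ F_v` (`a v = 0` if `x v = 0`), `tot a ∈ K`; LEX (2) for `κ`: `tot a = tot k`, `k v ∈ K ∩ F_v`; LEX (1) for `K = ⊤` and
`a - k`: `a - k = bd y`; apply `f` to `y` (`Finsupp.mapRange.addMonoidHom` commutes with `bd`, `tot`; `f (k v) = 0`). `inj`: `bd_inj`. `Fin`: LCF (2). -/
def SpecQMV : Prop :=
  ∀ (R Γ V : Type) [Ring R] [Group Γ] [MulAction Γ V] (T : SimpleGraph V) (O : V → V → Prop),
    T.IsTree → (∀ (g : Γ) (x y : V), T.Adj x y → T.Adj (g • x) (g • y)) → Ori T O →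
    ∀ hO : InvO Γ O, ∀ (n : ℕ) (U : Finset V), Cx T (U : Set V) → ∀ v0 ∈ U,
    ∀ (r : ℕ) (κ : Fin r → Fin n → MonoidAlgebra R Γ), InL U v0 κ →
    ∀ (M : Type) [AddCommGroup M] [Module (MonoidAlgebra R Γ) M]
      (f : (Fin n → MonoidAlgebra R Γ) →ₗ[MonoidAlgebra R Γ] M), Function.Surjective f →
    LinearMap.ker f = Submodule.span (MonoidAlgebra R Γ) (Set.range κ) →
    MVd ((Lc R Γ (U : Set V) n).img f)
      (((Lc R Γ ((U : Set V) ×ˢ (U : Set V)) n).cut (fun p => O p.1 p.2) hO).img f) ∧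
    ((Lc R Γ (U : Set V) n).img f).Fin ∧
    (((Lc R Γ ((U : Set V) ×ˢ (U : Set V)) n).cut (fun p => O p.1 p.2) hO).img f).Fin

/-! ### Part 3: the tree theorem -/

/-- **COT** (size 200, deps `SpecMVR`, `SpecLCF`, `SpecNFG`, `SpecKMV`; AUF: `specCFP`, `mRFP`): coherence.

PROOF. `K ≤ (Fin n → S)` finitely generated: `K = span (range κ)` (`Submodule.fg_iff_exists_fin_generating_family`). `v0` a vertex (`hT.connected.nonempty`); `U ⊇ {g⁻¹ • v0 | g in the
support of an entry of a κ j}`, `Cx T U` (`exists_cx`): `InL U v0 κ`. `O` from `exists_ori`. KMV. For the vertices: the module of NFG (1) is isomorphic to a finitely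
generated submodule of `(Lc R Γ U n).N v`, which is finitely presented (LCF (1)); `Sb R v` is coherent: `specCFP` (1): finitely presented; `FinResP`: `FR`. For the pairs: NFG (2), `FinRes`
if `O p.1 p.2` (`Adj`, `Ori.adj`), otherwise the module is zero (FR of a subsingleton: the zero complex). MVR: `FR S (D + 1) K`, so `K` is finitely presented (`mRFP`, first part). -/
def SpecCOT : Prop :=
  ∀ (R Γ V : Type) [Ring R] [Group Γ] [MulAction Γ V] (T : SimpleGraph V), T.IsTree →
    (∀ (g : Γ) (x y : V), T.Adj x y → T.Adj (g • x) (g • y)) →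
    (∀ (g : Γ) (x y : V), T.Adj x y → ¬ (g • x = y ∧ g • y = x)) → ∀ D : ℕ,
    (∀ v : V, Rg (Sb R (Γ := Γ) v) (D + 1)) →
    (∀ v w : V, T.Adj v w → IsNoetherianRing (Sb R (Γ := Γ) (v, w)) ∧
      FinRes (Sb R (Γ := Γ) (v, w)) D) → Coh (MonoidAlgebra R Γ)

/-- **FNT** (size 200, deps `SpecMVR`, `SpecLCF`, `SpecNFG`, `SpecQMV`): finite free resolutions.

PROOF. `M` finitely presented: `f : (Fin n → S) → M` onto with finitely generated kernel `K = span (range κ)` (`Module.FinitePresentation.exists_fin` or from the definition: a finite generating set `Fin n`, and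
`Module.FinitePresentation.fg_ker`). `v0`, `U ∋ v0`, `O` as in COT. QMV. For the vertices: `((Lc ..).img f).N v` is isomorphic to `F_v` modulo `K ∩ F_v`, finitely presented (LCF (1), NFG (1):
`Module.finitePresentation_of_surjective` with finitely generated kernel); `FinResP`. For the pairs: a quotient of a finite module (LCF (3)), `FinRes`; or zero. MVR. -/
def SpecFNT : Prop :=
  ∀ (R Γ V : Type) [Ring R] [Group Γ] [MulAction Γ V] (T : SimpleGraph V), T.IsTree →
    (∀ (g : Γ) (x y : V), T.Adj x y → T.Adj (g • x) (g • y)) →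
    (∀ (g : Γ) (x y : V), T.Adj x y → ¬ (g • x = y ∧ g • y = x)) → ∀ D : ℕ,
    (∀ v : V, Rg (Sb R (Γ := Γ) v) (D + 1)) →
    (∀ v w : V, T.Adj v w → IsNoetherianRing (Sb R (Γ := Γ) (v, w)) ∧
      FinRes (Sb R (Γ := Γ) (v, w)) D) → FinResP (MonoidAlgebra R Γ) (D + 1)

/-- **TRB** (size 150; AUL: `specSEM`): transport along isomorphisms of rings, and `gsub R H = R[H]`.

PROOF. `Coh`: for `N ≤ (Fin n → B)` take `N' = {x | σ x ∈ N}`; (or: `Coh A` says that all finitely generated submodules of `A^n` have a finitely generated module of relations; transport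
generators). Semilinear equivalences preserve finite presentation (`Module.FinitePresentation` of `Module.compHom`, as in the proof of `specSEM` (3)). `FinResP`, `FinRes`: a module over `B` is
a module over `A` by `Module.compHom`; `specSEM` (1) (its proof; the involutions are not needed: copy it, `FC.map σ`, `pi y = f (r.pi (σ.symm y))`). `gsub R H` = the range of
`UV.emb R H`, which is injective (`GRPM.emb_injective` or `MonoidAlgebra.mapDomain_injective`). -/
def SpecTRB : Prop :=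
  (∀ (A B : Type) [Ring A] [Ring B] (_ : A ≃+* B),
    (∀ D : ℕ, Rg A D → Rg B D) ∧ (∀ D : ℕ, FinRes A D → FinRes B D) ∧
    (IsNoetherianRing A → IsNoetherianRing B)) ∧
  ∀ (R Γ : Type) [Ring R] [Group Γ] (H : Subgroup Γ),
    Nonempty (MonoidAlgebra R H ≃+* gsub R H)

/-- **TTG** (size 60, deps `SpecCOT`, `SpecFNT`, `SpecTRB`): the tree theorem.

PROOF. TRB; the stabilizer of `(v, w) : V × V` is `stabilizer v ⊓ stabilizer w` (an equality of subgroups: `rw`, or `MonoidAlgebra` of equal subgroups). -/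
def SpecTTG : Prop :=
  ∀ (R Γ V : Type) [Ring R] [Group Γ] [MulAction Γ V] (T : SimpleGraph V), T.IsTree →
    (∀ (g : Γ) (x y : V), T.Adj x y → T.Adj (g • x) (g • y)) →
    (∀ (g : Γ) (x y : V), T.Adj x y → ¬ (g • x = y ∧ g • y = x)) → ∀ D : ℕ,
    (∀ v : V, Rg (MonoidAlgebra R (MulAction.stabilizer Γ v)) (D + 1)) →
    (∀ v w : V, T.Adj v w →
      IsNoetherianRing (MonoidAlgebra R ↥(MulAction.stabilizer Γ v ⊓ MulAction.stabilizer Γ w)) ∧
      FinRes (MonoidAlgebra R ↥(MulAction.stabilizer Γ v ⊓ MulAction.stabilizer Γ w)) D) →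
    Rg (MonoidAlgebra R Γ) (D + 1)

/-! ### Part 4: unions, the class of groups -/

/-- **FGA** (size 220, deps `SpecCOS`): rows with entries in `R[H]`.

PROOF. `F_y` = the rows supported in the coset `y` (`g⁻¹ • y = 1` iff `y = g • 1 = gH`). (1) the parts: `m = ∑ x_y`, `x_y i` = the part of `m i` supported in the coset `y`, `= single g 1 * co R H g (m i)` for any `g ∈ y`;
finitely many are non-zero (or `Finsupp` filtering of the supports). (2) the coefficient at `g` of `tot x` is that of `x (gH)`. (3) `tot x = ∑ a_j • κ j`, so by (2) `x y = ∑ (a_j)_y • κ j`, `(a)_y = single g 1 * co R H g a`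
(COS (6), `κ j i ∈ gsub R H`). (4) by (3) with `y = 1`, `g = 1`: every element of `K ∩ F_1` is `∑ co R H 1 a_j • κ j`, and `co R H 1 a_j ∈ gsub R H = Sb R 1` (`MulAction.stabilizer_quotient`); so the `κ j` generate. -/
def SpecFGA : Prop :=
  ∀ (R Γ : Type) [Ring R] [Group Γ] (H : Subgroup Γ) (n r : ℕ)
    (κ : Fin r → Fin n → MonoidAlgebra R Γ), (∀ j i, κ j i ∈ gsub R H) →
    (∀ m : Fin n → MonoidAlgebra R Γ, ∃ x : (Γ ⧸ H) →₀ (Fin n → MonoidAlgebra R Γ),
      (∀ y, x y ∈ (Lc R Γ ({((1 : Γ) : Γ ⧸ H)} : Set (Γ ⧸ H)) n).N y) ∧ tot x = m) ∧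
    (∀ x : (Γ ⧸ H) →₀ (Fin n → MonoidAlgebra R Γ),
      (∀ y, x y ∈ (Lc R Γ ({((1 : Γ) : Γ ⧸ H)} : Set (Γ ⧸ H)) n).N y) → tot x = 0 → x = 0) ∧
    (∀ x : (Γ ⧸ H) →₀ (Fin n → MonoidAlgebra R Γ),
      (∀ y, x y ∈ (Lc R Γ ({((1 : Γ) : Γ ⧸ H)} : Set (Γ ⧸ H)) n).N y) →
      tot x ∈ Submodule.span (MonoidAlgebra R Γ) (Set.range κ) →
      ∀ y, x y ∈ Submodule.span (MonoidAlgebra R Γ) (Set.range κ)) ∧
    Module.Finite (Sb R (Γ := Γ) ((1 : Γ) : Γ ⧸ H))
      (((Lc R Γ ({((1 : Γ) : Γ ⧸ H)} : Set (Γ ⧸ H)) n).res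
        (Submodule.span (MonoidAlgebra R Γ) (Set.range κ))).N ((1 : Γ) : Γ ⧸ H))

/-- **FGU** (size 200, deps `SpecFRA`, `SpecLNR`, `SpecIN1`, `SpecLCF`, `SpecTRB`, `SpecFGA`; AUF: `specCFP`, `mRFP`): from the finitely generated subgroups to the group.

PROOF. `κ : Fin r → (Fin n → S)`, `K = span (range κ)`, `H` the subgroup generated by the supports of the entries: finitely generated. `Y = Γ ⧸ H`, `y0 = 1`, with the stabilizer `H`
(`MulAction.stabilizer_quotient`), so `Rg (Sb R y0) D` (TRB); every `y` is `g • y0`. `F = Lc R Γ {y0} n`; `F_y0` is finitely presented (LCF (1), `U = {y0}`, `Finset.coe_singleton`). (a) `N = F.res K`. `tot : W N → K`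
(LNR (1)) is bijective: FGA (2) (with the inclusion `K → S^n`), FGA (1), (3). `N y0` is isomorphic to a finitely generated submodule (FGA (4)) of `F_y0`: finitely presented (`specCFP` (1)), `FR`; IN1, FRA (1): `FR S D K`, so `K` is
finitely presented (`mRFP`): `Coh`. (b) `M` finitely presented, `f : (Fin n → S) → M` onto with kernel `K = span (range κ)`; `N = F.img f`. `tot : W N → M` is surjective (FGA (1), apply `f`) and injective: `tot x = 0`, `x y = f (a y)`,
`a y ∈ F_y` (`a y = 0` if `x y = 0`), so `tot a ∈ K`, all `a y ∈ K` (FGA (3)), `x y = 0`. `N y0` is `F_y0` modulo `K ∩ F_y0`: finitely presented; `FinResP`, IN1, FRA (1). -/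
def SpecFGU : Prop :=
  ∀ (R Γ : Type) [Ring R] [Group Γ] (D : ℕ),
    (∀ H : Subgroup Γ, H.FG → Rg (MonoidAlgebra R H) D) → Rg (MonoidAlgebra R Γ) D

/-- **PZR** (size 80, deps `SpecTRB`; AUL: `specNOE`, `mFNS`, `specGRP`; compare `AUF/PZN.lean`, `AUL/POLG.lean`): poly-infinite-cyclic groups.

PROOF. Induction on `PZL n H`. Trivial group: `MonoidAlgebra R H ≃+* R`, TRB. Step: `AUL.specGRP` gives `Lau (gsub R N)`; `gsub R N ≃+* R[N]` (TRB); NOE, FNS. -/
def SpecPZR : Prop :=
  ∀ (R H : Type) [Ring R] [StarRing R] [Group H] (d0 n : ℕ), IsNoetherianRing R → FinRes R d0 →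
    PZL n H → IsNoetherianRing (MonoidAlgebra R H) ∧ FinRes (MonoidAlgebra R H) (d0 + n)

/-- **TZC** (size 150, deps `SpecTRB`, `SpecPZR`, `SpecTTG`, `SpecFGU`; AUF: `specFGX`, `specFRL`, `specGRPF`, `mCOH`, `mFNF`, compare `AUF/WPG.lean`): the class.

PROOF. Induction on `TZ h K`. Base: FGU (`D = d + h + 1`); for a finitely generated `F ≤ K`: `PF h F`, so as in the proof of `warPF` (`AUF/WPG.lean`) there are `N`, `X`, `T : TreeLen (FreeGroup X) X`, `L : Fre (gsub R N) T`;
`R[N]` is noetherian with `FinRes (d + h)` (PZR), so is `gsub R N` (TRB), and `mCOH`, `mFNF` give `Coh`, `FinResP (d + h + 1)` for `R[F]`. Tree: TTG with `D = d + h`, PZR. -/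
def SpecTZC : Prop :=
  ∀ (R K : Type) [Ring R] [StarRing R] [Group K] (d h : ℕ), IsNoetherianRing R → FinRes R d →
    TZ h K → Rg (MonoidAlgebra R K) (d + h + 1)

/-- **RCB** (size 40; AUF: `specBRC`, `specBRR`, `specBRJ`, see `mBRW` in `AUF/Main.lean`): the bridge to `DG.RC`. -/
def SpecRCB : Prop :=
  ∀ (A : Type) [Ring A] [StarRing A] (D : ℕ), Rg A D → DG.RC A D

/-- **RCM** (size 30, deps `SpecTZC`, `SpecRCB`): the theorem of the folder. -/
def SpecRCM : Prop :=
  ∀ (R K : Type) [Ring R] [StarRing R] [Group K] (d h : ℕ), IsNoetherianRing R → FinRes R d →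
    TZ h K → DG.RC (MonoidAlgebra R K) (d + h + 1)

end Pool.Agent.Lib.MP8a3537.CT
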